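import Pool.Agent.KAF.VC

/-!
# KAF module AA: the value at `a = i` in real eigencoordinates

Fix `L > 1`, `a = i`, `z = -i (L + L⁻¹)`, `P = par i z`: `P.t = -i`, `P.t' = i`, `P.d = -D` with
`D = 2 / (L + L⁻¹) - 1 < 0`; put `q = -i L`, `q⁻¹ = i / L`; then `z = q - q⁻¹`.
For `x = (α, β, γ)` let `ev x = (α + γ q, α - γ q⁻¹, α + β P.d + γ P.t)`.
* `ev (P.mul x y) = ev x * ev y` (componentwise; `P.t ^ 2 = 1 + z (P.t - P.t * P.d)`, i.e.
  `P.t' - P.t = z (P.d - 1)`).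
* `ev (P.tw true n) = (q ^ n, (-q⁻¹) ^ n, P.t ^ n) = (-i) ^ n * (L ^ n, L⁻¹ ^ n, 1)`, and for `false` the
  inverses.
* `ev (P.rot x) = - rotR L (ev x)` with the formula of `rotR` over `ℂ` (`rotR` is linear, so
  `ev (P.rot x) = -u * rotR L y` if `ev x = u * y` with real `y`).  Check: with `C = i γ ...`; solve for
  `α, β, γ` from `ev x`: `γ = (x₊ - x₋) / (q + q⁻¹)`, `q + q⁻¹ = -i (L - L⁻¹)`,
  `α = (q⁻¹ x₊ + q x₋) / (q + q⁻¹)`, `β = (x₀ - α - γ P.t) / P.d`; then `field_simp; ring`.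
Induction on the tree: `ev (P.tr s t) = u * eR L s t` (componentwise, real numbers as complex ones) with
`‖u‖ = 1`.  Finally `P.val t` is the last component of `ev (P.rot (P.tr true t))`, because
`P.d * α + β + P.t' * γ` is `α' + β' P.d + γ' P.t` for `(α', β', γ') = P.rot (α, β, γ)`
(`z (P.d - 1) = P.t' - P.t`), so it is `-u` times the last component of `rotR L (eR L true t)`.
* `bar_conj`: `P.bar = P.map (starRingEnd ℂ)` (`conj z = -z`, `conj i = -i`, `P.d` is real), `val_map`.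
-/

namespace Pool.Agent.KAF

open Pool.Agent.Helper9.TG (PTree)
open Complex

/-- the eigencoordinates of `x` are `u` times the real numbers `y` -/
private def Rel76 (l m d u : ℂ) (x : ℂ × ℂ × ℂ) (y : ℝ × ℝ × ℝ) : Prop :=
  x.1 + x.2.2 * (-I * l) = u * y.1 ∧ x.1 + x.2.2 * (-I * m) = u * y.2.1 ∧
    x.1 + x.2.1 * d + x.2.2 * (-I) = u * y.2.2

private theorem key76 {l m : ℂ} (hlm : l * m = 1) : 1 + I * I * (l * m) = 0 := by
  rw [hlm, I_mul_I]
  ring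

private theorem rel_mul76 {l m d u u' : ℂ} (hlm : l * m = 1)
    (hd : (l + m) * (1 - d) = 2) {x x' : ℂ × ℂ × ℂ} {y y' : ℝ × ℝ × ℝ}
    (h : Rel76 l m d u x y) (h' : Rel76 l m d u' x' y') :
    Rel76 l m d (u * u') ((⟨-I * (l + m), d, -I, I⟩ : Par ℂ).mul x x') (y * y') := by
  obtain ⟨a1, a2, a3⟩ := h
  obtain ⟨b1, b2, b3⟩ := h'
  have k := key76 hlm
  have hI := I_mul_I
  refine ⟨?_, ?_, ?_⟩
  · simp only [Par.mul, Prod.fst_mul, ofReal_mul]
    linear_combination (x'.1 + x'.2.2 * (-I * l)) * a1 + u * y.1 * b1 + x.2.2 * x'.2.2 * k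
  · simp only [Par.mul, Prod.fst_mul, Prod.snd_mul, ofReal_mul]
    linear_combination (x'.1 + x'.2.2 * (-I * m)) * a2 + u * y.2.1 * b2 + x.2.2 * x'.2.2 * k
  · simp only [Par.mul, Prod.snd_mul, ofReal_mul]
    linear_combination (x'.1 + x'.2.1 * d + x'.2.2 * (-I)) * a3 + u * y.2.2 * b3 +
      x.2.2 * x'.2.2 * (hI + I * I * hd)

private theorem rel_rot76 {L : ℝ} {d u : ℂ} (hL : 1 < L)
    (hd : ((L : ℂ) + (L : ℂ)⁻¹) * (1 - d) = 2) {x : ℂ × ℂ × ℂ} {y : ℝ × ℝ × ℝ}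
    (h : Rel76 L (L : ℂ)⁻¹ d u x y) :
    Rel76 L (L : ℂ)⁻¹ d (-u) ((⟨-I * ((L : ℂ) + (L : ℂ)⁻¹), d, -I, I⟩ : Par ℂ).rot x) (rotR L y) := by
  obtain ⟨a1, a2, a3⟩ := h
  have hI := I_mul_I
  have hL0 : (0 : ℝ) < L := by linarith
  have hlc : (L : ℂ) ≠ 0 := by exact_mod_cast hL0.ne'
  have hi : L⁻¹ < 1 := inv_lt_one_of_one_lt₀ hL
  have hs : L - L⁻¹ ≠ 0 := by
    have : 0 < L - L⁻¹ := by linarith
    exact this.ne'
  have hsc : (L : ℂ) - (L : ℂ)⁻¹ ≠ 0 := by exact_mod_cast hs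
  have hp : 2 < L + L⁻¹ := by
    have h1 : L * L⁻¹ = 1 := mul_inv_cancel₀ hL0.ne'
    nlinarith [mul_pos (sub_pos.2 hL) (sub_pos.2 hi)]
  have hD : (2 : ℝ) / (L + L⁻¹) - 1 ≠ 0 := by
    have : (2 : ℝ) / (L + L⁻¹) < 1 := by
      rw [div_lt_one (by linarith)]
      exact hp
    exact (by linarith : (2 : ℝ) / (L + L⁻¹) - 1 < 0).ne
  have hpc : (L : ℂ) + (L : ℂ)⁻¹ ≠ 0 := by
    have : L + L⁻¹ ≠ 0 := by linarith
    exact_mod_cast this
  have hDc : (2 : ℂ) / ((L : ℂ) + (L : ℂ)⁻¹) - 1 ≠ 0 := by exact_mod_cast hD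
  have hdD : d = -((2 : ℂ) / ((L : ℂ) + (L : ℂ)⁻¹) - 1) := by
    have : 1 - d = 2 / ((L : ℂ) + (L : ℂ)⁻¹) := by
      rw [eq_div_iff hpc, mul_comm]
      exact hd
    linear_combination -this
  set l : ℂ := (L : ℂ) with hl
  set m : ℂ := (L : ℂ)⁻¹ with hm
  have hlm : l * m = 1 := mul_inv_cancel₀ hlc
  have k := key76 hlm
  have c1 : x.2.2 = I * u * ((y.1 - y.2.1) / (l - m)) := by
    rw [← mul_div_assoc, eq_div_iff hsc]
    linear_combination I * (a1 - a2) + (x.2.2 * (l - m)) * hI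
  have c2 : x.1 = u * ((l * y.2.1 - m * y.1) / (l - m)) := by
    rw [← mul_div_assoc, eq_div_iff hsc]
    linear_combination l * a2 - m * a1
  set C : ℂ := (y.1 - y.2.1) / (l - m) with hC
  set A : ℂ := (l * y.2.1 - m * y.1) / (l - m) with hA
  have c3 : x.2.1 = -u * ((y.2.2 - A - C) / (2 / (l + m) - 1)) := by
    rw [← mul_div_assoc, eq_div_iff hDc]
    rw [hdD] at a3
    linear_combination -a3 + c2 - I * c1 - u * C * hI
  set B : ℂ := (y.2.2 - A - C) / (2 / (l + m) - 1) with hB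
  have e1 : (((rotR L y).1 : ℝ) : ℂ) = B + C * m := by
    simp only [rotR]
    push_cast
    rfl
  have e2 : (((rotR L y).2.1 : ℝ) : ℂ) = B + C * l := by
    simp only [rotR]
    push_cast
    rfl
  have e3 : (((rotR L y).2.2 : ℝ) : ℂ) = A * (2 / (l + m) - 1) + B + C := by
    simp only [rotR]
    push_cast
    rfl
  refine ⟨?_, ?_, ?_⟩
  · simp only [Par.rot]
    rw [e1]
    linear_combination c3 + I * m * c1 + u * C * m * hI
  · simp only [Par.rot]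
    rw [e2]
    linear_combination c3 + I * l * c1 + u * C * l * hI
  · simp only [Par.rot]
    rw [e3]
    have hz : (l + m) * (1 - d) = 2 := hd
    linear_combination c3 + d * c2 + I * c1 + u * C * hI + u * A * hdD + I * x.2.2 * hz

private theorem par_eq76 {L : ℝ} (hL : 1 < L) :
    par I (-I * (L + L⁻¹) : ℂ) =
      ⟨-I * ((L : ℂ) + (L : ℂ)⁻¹), 1 - 2 / ((L : ℂ) + (L : ℂ)⁻¹), -I, I⟩ := by
  have hL0 : (0 : ℝ) < L := by linarith
  have hpc : (L : ℂ) + (L : ℂ)⁻¹ ≠ 0 := by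
    have h1 : 0 < L⁻¹ := inv_pos.2 hL0
    have : L + L⁻¹ ≠ 0 := by linarith
    exact_mod_cast this
  have hI := I_ne_zero
  have h2 : -I * ((L : ℂ) + (L : ℂ)⁻¹) ≠ 0 := mul_ne_zero (neg_ne_zero.2 hI) hpc
  have h3 : (1 : ℂ) + (I - -I) / (-I * ((L : ℂ) + (L : ℂ)⁻¹)) = 1 - 2 / ((L : ℂ) + (L : ℂ)⁻¹) := by
    rw [sub_neg_eq_add, sub_eq_add_neg]
    congr 1
    rw [← neg_div, div_eq_div_iff h2 hpc]
    ring
  unfold par
  rw [inv_I, Complex.ofReal_inv, h3]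

private theorem hd76 {L : ℝ} (hL : 1 < L) :
    ((L : ℂ) + (L : ℂ)⁻¹) * (1 - (1 - 2 / ((L : ℂ) + (L : ℂ)⁻¹))) = 2 := by
  have hL0 : (0 : ℝ) < L := by linarith
  have hpc : (L : ℂ) + (L : ℂ)⁻¹ ≠ 0 := by
    have h1 : 0 < L⁻¹ := inv_pos.2 hL0
    have : L + L⁻¹ ≠ 0 := by linarith
    exact_mod_cast this
  rw [sub_sub_cancel, mul_div_cancel₀ _ hpc]

private theorem rel_tw76 {L : ℝ} {d : ℂ} (hL : 1 < L)
    (hd : ((L : ℂ) + (L : ℂ)⁻¹) * (1 - d) = 2) (s : Bool) (n : ℕ) :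
    Rel76 L (L : ℂ)⁻¹ d ((if s then -I else I) ^ n)
      ((⟨-I * ((L : ℂ) + (L : ℂ)⁻¹), d, -I, I⟩ : Par ℂ).tw s n)
      ((if s then L ^ n else L⁻¹ ^ n), (if s then L⁻¹ ^ n else L ^ n), 1) := by
  have hL0 : (0 : ℝ) < L := by linarith
  have hlc : (L : ℂ) ≠ 0 := by exact_mod_cast hL0.ne'
  have hlm : (L : ℂ) * (L : ℂ)⁻¹ = 1 := mul_inv_cancel₀ hlc
  induction n with
  | zero =>
    refine ⟨?_, ?_, ?_⟩ <;> simp [Par.tw]
  | succ n ih =>
    have h1 : Rel76 L (L : ℂ)⁻¹ d (if s then -I else I)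
        (if s then (0, 0, 1) else (-(-I * ((L : ℂ) + (L : ℂ)⁻¹)), -I * ((L : ℂ) + (L : ℂ)⁻¹), 1))
        ((if s then L else L⁻¹), (if s then L⁻¹ else L), 1) := by
      cases s
      · refine ⟨?_, ?_, ?_⟩
        · simp only [Bool.false_eq_true, if_false]
          push_cast
          ring
        · simp only [Bool.false_eq_true, if_false]
          ring
        · simp only [Bool.false_eq_true, if_false]
          push_cast
          linear_combination I * hd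
      · refine ⟨?_, ?_, ?_⟩ <;> simp
    have h2 := rel_mul76 hlm hd ih h1
    have e : (((if s then L ^ n else L⁻¹ ^ n), (if s then L⁻¹ ^ n else L ^ n), 1) : ℝ × ℝ × ℝ) *
        ((if s then L else L⁻¹), (if s then L⁻¹ else L), 1) =
        ((if s then L ^ (n + 1) else L⁻¹ ^ (n + 1)), (if s then L⁻¹ ^ (n + 1) else L ^ (n + 1)), 1) := by
      cases s <;> simp [pow_succ]
    rw [e, ← pow_succ] at h2
    exact h2

private theorem eR_leaf76 {L : ℝ} (hL : 1 < L) (s : Bool) (a : ℤ) :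
    eR L s (.leaf a) =
      ((if decide (decide (0 < a) = s) then L ^ a.natAbs else L⁻¹ ^ a.natAbs),
        (if decide (decide (0 < a) = s) then L⁻¹ ^ a.natAbs else L ^ a.natAbs), 1) := by
  unfold eR
  rcases lt_or_ge 0 a with h | h
  · obtain ⟨n, rfl⟩ := Int.eq_ofNat_of_zero_le h.le
    have h0 : n ≠ 0 := by
      rintro rfl
      simp at h
    have h1 : 0 < n := Nat.pos_of_ne_zero h0
    cases s <;> simp [h0, h1, inv_pow]
  · obtain ⟨n, hn⟩ := Int.eq_ofNat_of_zero_le (neg_nonneg.2 h)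
    have ha : a = -(n : ℤ) := by omega
    subst ha
    have h3 : ¬ (0 : ℤ) < -(n : ℤ) := by omega
    cases s <;> simp [inv_pow]

private theorem rel_tr76 {L : ℝ} {d : ℂ} (hL : 1 < L)
    (hd : ((L : ℂ) + (L : ℂ)⁻¹) * (1 - d) = 2) (t : PTree) : ∀ s : Bool,
    ∃ u : ℂ, ‖u‖ = 1 ∧ Rel76 L (L : ℂ)⁻¹ d u
      ((⟨-I * ((L : ℂ) + (L : ℂ)⁻¹), d, -I, I⟩ : Par ℂ).tr s t) (eR L s t) := by
  have hL0 : (0 : ℝ) < L := by linarith
  have hlc : (L : ℂ) ≠ 0 := by exact_mod_cast hL0.ne'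
  have hlm : (L : ℂ) * (L : ℂ)⁻¹ = 1 := mul_inv_cancel₀ hlc
  induction t with
  | leaf a =>
    intro s
    refine ⟨(if decide (decide (0 < a) = s) then -I else I) ^ a.natAbs, ?_, ?_⟩
    · rw [norm_pow]
      split_ifs <;> simp
    · rw [eR_leaf76 hL]
      exact rel_tw76 hL hd _ _
  | graft p c ihp ihc =>
    intro s
    obtain ⟨u, hu, hr⟩ := ihp s
    obtain ⟨v, hv, hr'⟩ := ihc (!s)
    refine ⟨u * -v, by rw [norm_mul, norm_neg, hu, hv, mul_one], ?_⟩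
    exact rel_mul76 hlm hd hr (rel_rot76 hL hd hr')

theorem val_I (t : PTree) (L : ℝ) (hL : 1 < L) :
    ‖(par I (-I * (L + L⁻¹) : ℂ)).val t‖ = |(rotR L (eR L true t)).2.2| := by
  rw [par_eq76 hL]
  have hd := hd76 hL
  set d : ℂ := 1 - 2 / ((L : ℂ) + (L : ℂ)⁻¹) with hdd
  obtain ⟨u, hu, hr⟩ := rel_tr76 hL hd t true
  obtain ⟨_, _, h3⟩ := rel_rot76 hL hd hr
  have e : (⟨-I * ((L : ℂ) + (L : ℂ)⁻¹), d, -I, I⟩ : Par ℂ).val t =
      -u * (((rotR L (eR L true t)).2.2 : ℝ) : ℂ) := by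
    rw [← h3]
    simp only [Par.val, Par.rot]
    linear_combination (-I * ((⟨-I * ((L : ℂ) + (L : ℂ)⁻¹), d, -I, I⟩ : Par ℂ).tr true t).2.2) * hd
  rw [e, norm_mul, norm_neg, hu, one_mul, Complex.norm_real, Real.norm_eq_abs]

theorem bar_conj (t : PTree) (L : ℝ) (hL : 1 < L) :
    (par I (-I * (L + L⁻¹) : ℂ)).bar.val t =
      (starRingEnd ℂ) ((par I (-I * (L + L⁻¹) : ℂ)).val t) := by
  rw [← val_map, par_eq76 hL]
  congr 1
  unfold Par.bar Par.map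
  simp [map_ofNat]

/-- the value times that of the mirror image -/
theorem val_sq (t : PTree) (L : ℝ) (hL : 1 < L) :
    (par I (-I * (L + L⁻¹) : ℂ)).val t * (par I (-I * (L + L⁻¹) : ℂ)).bar.val t =
      (((rotR L (eR L true t)).2.2 ^ 2 : ℝ) : ℂ) := by
  rw [bar_conj t L hL, Complex.mul_conj, Complex.normSq_eq_norm_sq, val_I t L hL, sq_abs]

end Pool.Agent.KAF
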