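import Pool.Agent.KAF.Defs

/-!
# KAF module AB: the value of a reduced tree tends to infinity

All limits for `L → +∞` (filter `atTop` on `ℝ`), `e = 1 / L`.

COEFFICIENTS of `rotR`: it is linear, `rotR L x = x₊ F₊ + x₋ F₋ + x₀ F₀` with
`L F₊₊ → 1, F₊₋ → 1, L F₊₀ → 2`, `F₋₊ → 1, L F₋₋ → 1, L F₋₀ → 2`, `F₀₊, F₀₋, F₀₀ → -1`
(`F₊₋` is the second component of `rotR L (1, 0, 0)`, and so on).  Closed forms:
`F₋₋ = L / (L - 1)²`, ...

STATE `St s t k r u v c₊ c₋` (a vertex with `k` children): `c₊, c₋ > 0`, `x = eR L s t`,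
`e = if s then t.wt else -t.wt`, `p = u - e`, `q = v + e`: `x₊ * L ^ p → c₊`, `x₋ * L ^ q → c₋`,
`x₀ * L ^ r` is bounded, and
`k = t.deg`, `r ≤ -k`, `u + v ≤ 2 r - k`, `u ≤ r`, `v ≤ r`, `|u - v| ≤ k`.
For a leaf `k = r = u = v = 0`, `c₊ = c₋ = 1`.

CHILD: if moreover `k ≤ 1 → 2 ≤ |wt|`, then with `M = min p q` one has `M ≤ -2`, and `M + 2 ≤ r` if
`p ≠ q`, `M + 1 ≤ r` if `p = q` (integer arithmetic, `omega`).  With `α = min (p + 1) q`,
`β = min p (q + 1)` (so `min α β = M`, `|α - β| ≤ 1`): `y = rotR L x` satisfies `y₊ * L ^ α → A > 0`,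
`y₋ * L ^ β → B > 0`, `y₀ * L ^ (M + 1)` bounded.  (`x₀ L ^ α → 0` since `r > α`, and so on; `y₊` has the
leading term `F₊₊ x₊` if `p + 1 < q`, `F₋₊ x₋` if `q < p + 1`, the sum of both if `q = p + 1`;
`y₋`: `F₊₋ x₊` if `p < q + 1`, `F₋₋ x₋` if `q + 1 < p`, the sum if `p = q + 1`.)
Attaching such a child changes `(k, r, u, v)` to `(k + 1, r + M + 1, u + α, v + β)`, and `c₊`, `c₋` are
multiplied by `A`, `B`.

ROOT: `k ≤ 2 → 2 ≤ |wt|`: then `M + 2 ≤ r` and `M ≤ -2`, so `y₀ * L ^ (M + 1)` tends to `2 c₊`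
(`p < q`), `2 c₋` (`q < p`) or `2 c₊ + 2 c₋` (`p = q`), where `M + 1 ≤ -1`: hence `y₀ → ∞`.
-/

namespace Pool.Agent.KAF

open Filter Topology
open Pool.Agent.Helper9.TG (PTree)

private noncomputable def gPP (x : ℝ) : ℝ := x / (1 - x ^ 2) + (1 + x ^ 2) / ((1 + x) * (1 - x) ^ 2)
private noncomputable def gPM (x : ℝ) : ℝ := 1 / (1 - x ^ 2) + x * (1 + x ^ 2) / ((1 + x) * (1 - x) ^ 2)
private noncomputable def gP0 (x : ℝ) : ℝ := x * (1 - x) / ((1 + x) * (1 + x ^ 2)) +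
  (1 + x ^ 2) / ((1 + x) * (1 - x) ^ 2) + 1 / (1 - x ^ 2)
private noncomputable def gMP (x : ℝ) : ℝ := (1 + x ^ 2) / ((1 + x) * (1 - x) ^ 2) - x ^ 2 / (1 - x ^ 2)
private noncomputable def gMM (x : ℝ) : ℝ := 1 / (1 - x) ^ 2
private noncomputable def gM0 (x : ℝ) : ℝ :=
  (3 - x + x ^ 2 + x ^ 3) / ((1 + x) * (1 - x) ^ 2 * (1 + x ^ 2)) - 1 / (1 - x ^ 2)
private noncomputable def g00 (x : ℝ) : ℝ := -((1 + x ^ 2) / (1 - x) ^ 2)

private theorem rotR_eq {L : ℝ} (hL : 1 < L) (x : ℝ × ℝ × ℝ) :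
    (rotR L x).1 = x.1 * (L⁻¹ * gPP L⁻¹) + x.2.1 * gMP L⁻¹ + x.2.2 * g00 L⁻¹ ∧
    (rotR L x).2.1 = x.1 * gPM L⁻¹ + x.2.1 * (L⁻¹ * gMM L⁻¹) + x.2.2 * g00 L⁻¹ ∧
    (rotR L x).2.2 = x.1 * (L⁻¹ * gP0 L⁻¹) + x.2.1 * (L⁻¹ * gM0 L⁻¹) + x.2.2 * g00 L⁻¹ := by
  have h0 : L ≠ 0 := by linarith
  have h1 : L - 1 ≠ 0 := by linarith
  have h2 : L + 1 ≠ 0 := by linarith
  have h3 : L ^ 2 + 1 ≠ 0 := by positivity
  have h3' : L ^ 2 + 1 > 0 := by positivity
  have hD : 2 / (L + L⁻¹) - 1 = -((L - 1) ^ 2 / (L ^ 2 + 1)) := by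
    have : L + L⁻¹ = (L ^ 2 + 1) / L := by field_simp
    rw [this]
    field_simp
    ring
  have hLL : L - L⁻¹ = (L - 1) * (L + 1) / L := by
    field_simp
    ring
  have e1 : 1 - L⁻¹ ^ 2 = (L - 1) * (L + 1) / L ^ 2 := by
    field_simp
    ring
  have e2 : 1 + L⁻¹ ^ 2 = (L ^ 2 + 1) / L ^ 2 := by
    field_simp
  have e3 : 1 + L⁻¹ = (L + 1) / L := by
    field_simp
  have e4 : 1 - L⁻¹ = (L - 1) / L := by
    field_simp
  simp only [rotR, gPP, gPM, gP0, gMP, gMM, gM0, g00]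
  rw [hD, hLL, e1, e2, e3, e4]
  refine ⟨?_, ?_, ?_⟩
  · field_simp
    ring
  · field_simp
    ring
  · field_simp
    ring


private theorem lim_inv {g : ℝ → ℝ} (hg : ContinuousAt g 0) :
    Tendsto (fun L : ℝ => g L⁻¹) atTop (𝓝 (g 0)) :=
  hg.tendsto.comp tendsto_inv_atTop_zero

private theorem lim_inv0 {g : ℝ → ℝ} (hg : ContinuousAt g 0) :
    Tendsto (fun L : ℝ => g L⁻¹ * L ^ (0 : ℤ)) atTop (𝓝 (g 0)) := by
  simpa using lim_inv hg

private theorem lim_inv1 {g : ℝ → ℝ} (hg : ContinuousAt g 0) :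
    Tendsto (fun L : ℝ => (L⁻¹ * g L⁻¹) * L ^ (1 : ℤ)) atTop (𝓝 (g 0)) := by
  refine (lim_inv hg).congr' ?_
  filter_upwards [eventually_gt_atTop 0] with L hL
  rw [zpow_one]
  field_simp

private theorem cPP : ContinuousAt gPP 0 := by
  unfold gPP
  fun_prop (disch := norm_num)

private theorem cPM : ContinuousAt gPM 0 := by
  unfold gPM
  fun_prop (disch := norm_num)

private theorem cP0 : ContinuousAt gP0 0 := by
  unfold gP0
  fun_prop (disch := norm_num)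

private theorem cMP : ContinuousAt gMP 0 := by
  unfold gMP
  fun_prop (disch := norm_num)

private theorem cMM : ContinuousAt gMM 0 := by
  unfold gMM
  fun_prop (disch := norm_num)

private theorem cM0 : ContinuousAt gM0 0 := by
  unfold gM0
  fun_prop (disch := norm_num)

private theorem c00 : ContinuousAt g00 0 := by
  unfold g00
  fun_prop (disch := norm_num)

private theorem tm {f g : ℝ → ℝ} {a b m : ℤ} {c d : ℝ}
    (hf : Tendsto (fun L => f L * L ^ a) atTop (𝓝 c))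
    (hg : Tendsto (fun L => g L * L ^ b) atTop (𝓝 d)) (hm : m ≤ a + b) :
    Tendsto (fun L => f L * g L * L ^ m) atTop (𝓝 (if m = a + b then c * d else 0)) := by
  have hz : Tendsto (fun L : ℝ => L ^ (m - (a + b))) atTop (𝓝 (if m = a + b then 1 else 0)) := by
    split_ifs with h
    · rw [h, sub_self]
      simp
    · exact tendsto_zpow_atTop_zero (by omega)
  have h1 := (hf.mul hg).mul hz
  have h2 : c * d * (if m = a + b then 1 else 0) = if m = a + b then c * d else 0 := by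
    split_ifs <;> ring
  rw [h2] at h1
  refine h1.congr' ?_
  filter_upwards [eventually_gt_atTop 0] with L hL
  have h3 : L ^ m = L ^ a * L ^ b * L ^ (m - (a + b)) := by
    rw [← zpow_add₀ hL.ne', ← zpow_add₀ hL.ne']
    congr 1
    ring
  rw [h3]
  ring

private theorem tb0 {f g : ℝ → ℝ} {r m : ℤ} {d : ℝ}
    (hf : ∃ C, ∀ᶠ L in atTop, |f L * L ^ r| ≤ C)
    (hg : Tendsto g atTop (𝓝 d)) (hm : m < r) :
    Tendsto (fun L => f L * g L * L ^ m) atTop (𝓝 0) := by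
  obtain ⟨C, hC⟩ := hf
  have h1 : Tendsto (fun L : ℝ => g L * L ^ (m - r)) atTop (𝓝 0) := by
    have := hg.mul (tendsto_zpow_atTop_zero (𝕜 := ℝ) (show m - r < 0 by omega))
    rwa [mul_zero] at this
  refine (bdd_le_mul_tendsto_zero' C hC h1).congr' ?_
  filter_upwards [eventually_gt_atTop 0] with L hL
  have h3 : L ^ m = L ^ r * L ^ (m - r) := by
    rw [← zpow_add₀ hL.ne']
    congr 1
    ring
  rw [h3]
  ring

private theorem bdt {f : ℝ → ℝ} {c : ℝ} (h : Tendsto f atTop (𝓝 c)) :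
    ∃ C, ∀ᶠ L in atTop, |f L| ≤ C :=
  ⟨|c| + 1, (h.abs.eventually (gt_mem_nhds (lt_add_one |c|))).mono fun _ h => h.le⟩

private theorem bda {f g : ℝ → ℝ} (hf : ∃ C, ∀ᶠ L in atTop, |f L| ≤ C)
    (hg : ∃ C, ∀ᶠ L in atTop, |g L| ≤ C) : ∃ C, ∀ᶠ L in atTop, |f L + g L| ≤ C := by
  obtain ⟨C, hC⟩ := hf
  obtain ⟨D, hD⟩ := hg
  refine ⟨C + D, ?_⟩
  filter_upwards [hC, hD] with L h1 h2
  exact (abs_add_le _ _).trans (add_le_add h1 h2)

private theorem bdm {f g : ℝ → ℝ} (hf : ∃ C, ∀ᶠ L in atTop, |f L| ≤ C)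
    (hg : ∃ C, ∀ᶠ L in atTop, |g L| ≤ C) : ∃ C, ∀ᶠ L in atTop, |f L * g L| ≤ C := by
  obtain ⟨C, hC⟩ := hf
  obtain ⟨D, hD⟩ := hg
  refine ⟨C * D, ?_⟩
  filter_upwards [hC, hD] with L h1 h2
  rw [abs_mul]
  exact mul_le_mul h1 h2 (abs_nonneg _) ((abs_nonneg _).trans h1)

private theorem tbb {f g : ℝ → ℝ} {r m : ℤ} {d : ℝ}
    (hf : ∃ C, ∀ᶠ L in atTop, |f L * L ^ r| ≤ C)
    (hg : Tendsto g atTop (𝓝 d)) (hm : m ≤ r) :
    ∃ C, ∀ᶠ L in atTop, |f L * g L * L ^ m| ≤ C := by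
  rcases hm.lt_or_eq with h | h
  · exact bdt (tb0 hf hg h)
  · subst h
    obtain ⟨C, hC⟩ := bdm hf (bdt hg)
    refine ⟨C, hC.mono fun L h => ?_⟩
    rwa [mul_right_comm]

private theorem rot_asym {x : ℝ → ℝ × ℝ × ℝ} {p q r : ℤ} {cp cm : ℝ} (hcp : 0 < cp) (hcm : 0 < cm)
    (h1 : Tendsto (fun L => (x L).1 * L ^ p) atTop (𝓝 cp))
    (h2 : Tendsto (fun L => (x L).2.1 * L ^ q) atTop (𝓝 cm))
    (h3 : ∃ C, ∀ᶠ L in atTop, |(x L).2.2 * L ^ r| ≤ C)
    (hr1 : min p q + 1 ≤ r) (hr2 : p ≠ q → min p q + 2 ≤ r) :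
    (∃ A, 0 < A ∧ Tendsto (fun L => (rotR L (x L)).1 * L ^ (min (p + 1) q)) atTop (𝓝 A)) ∧
    (∃ B, 0 < B ∧ Tendsto (fun L => (rotR L (x L)).2.1 * L ^ (min p (q + 1))) atTop (𝓝 B)) ∧
    (∃ C, ∀ᶠ L in atTop, |(rotR L (x L)).2.2 * L ^ (min p q + 1)| ≤ C) ∧
    (min p q + 2 ≤ r → ∃ D, 0 < D ∧
      Tendsto (fun L => (rotR L (x L)).2.2 * L ^ (min p q + 1)) atTop (𝓝 D)) := by
  have k1 : gPP 0 = 1 := by norm_num [gPP]
  have k2 : gPM 0 = 1 := by norm_num [gPM]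
  have k3 : gP0 0 = 2 := by norm_num [gP0]
  have k4 : gMP 0 = 1 := by norm_num [gMP]
  have k5 : gMM 0 = 1 := by norm_num [gMM]
  have k6 : gM0 0 = 2 := by norm_num [gM0]
  refine ⟨?_, ?_, ?_, ?_⟩
  · have t1 := tm (m := min (p + 1) q) h1 (lim_inv1 cPP) (by omega)
    have t2 := tm (m := min (p + 1) q) h2 (lim_inv0 cMP) (by omega)
    have t3 := tb0 (m := min (p + 1) q) h3 (lim_inv c00) (by
      by_cases h : p = q
      · subst h; omega
      · have := hr2 h; omega)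
    rw [k1] at t1
    rw [k4] at t2
    refine ⟨_, ?_, ((t1.add t2).add t3).congr' ?_⟩
    · split_ifs with a b b
      · linarith
      · linarith
      · linarith
      · omega
    · filter_upwards [eventually_gt_atTop 1] with L hL
      rw [(rotR_eq hL (x L)).1]
      ring
  · have t1 := tm (m := min p (q + 1)) h1 (lim_inv0 cPM) (by omega)
    have t2 := tm (m := min p (q + 1)) h2 (lim_inv1 cMM) (by omega)
    have t3 := tb0 (m := min p (q + 1)) h3 (lim_inv c00) (by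
      by_cases h : p = q
      · subst h; omega
      · have := hr2 h; omega)
    rw [k2] at t1
    rw [k5] at t2
    refine ⟨_, ?_, ((t1.add t2).add t3).congr' ?_⟩
    · split_ifs with a b b
      · linarith
      · linarith
      · linarith
      · omega
    · filter_upwards [eventually_gt_atTop 1] with L hL
      rw [(rotR_eq hL (x L)).2.1]
      ring
  · have t1 := bdt (tm (m := min p q + 1) h1 (lim_inv1 cP0) (by omega))
    have t2 := bdt (tm (m := min p q + 1) h2 (lim_inv1 cM0) (by omega))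
    have t3 := tbb (m := min p q + 1) h3 (lim_inv c00) (by omega)
    obtain ⟨C, hC⟩ := bda (bda t1 t2) t3
    refine ⟨C, ?_⟩
    filter_upwards [hC, eventually_gt_atTop 1] with L hCL hL
    rw [(rotR_eq hL (x L)).2.2]
    refine le_trans (le_of_eq ?_) hCL
    congr 1
    ring
  · intro hr
    have t1 := tm (m := min p q + 1) h1 (lim_inv1 cP0) (by omega)
    have t2 := tm (m := min p q + 1) h2 (lim_inv1 cM0) (by omega)
    have t3 := tb0 (m := min p q + 1) h3 (lim_inv c00) (by omega)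
    rw [k3] at t1
    rw [k6] at t2
    refine ⟨_, ?_, ((t1.add t2).add t3).congr' ?_⟩
    · split_ifs with a b b
      · linarith
      · linarith
      · linarith
      · omega
    · filter_upwards [eventually_gt_atTop 1] with L hL
      rw [(rotR_eq hL (x L)).2.2]
      ring

/-- the signed weight -/
private def sw (s : Bool) (t : PTree) : ℤ := if s then t.wt else -t.wt

private structure St (s : Bool) (t : PTree) (r u v : ℤ) (cp cm : ℝ) : Prop where
  cp0 : 0 < cp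
  cm0 : 0 < cm
  hp : Tendsto (fun L : ℝ => (eR L s t).1 * L ^ (u - sw s t)) atTop (𝓝 cp)
  hq : Tendsto (fun L : ℝ => (eR L s t).2.1 * L ^ (v + sw s t)) atTop (𝓝 cm)
  h0 : ∃ C, ∀ᶠ L : ℝ in atTop, |(eR L s t).2.2 * L ^ r| ≤ C
  k1 : r ≤ -(t.deg : ℤ)
  k2 : u + v ≤ 2 * r - t.deg
  k3 : u ≤ r
  k4 : v ≤ r
  k5 : u - v ≤ t.deg
  k6 : v - u ≤ t.deg

private theorem state (t : PTree) (h : Inner t) (s : Bool) :
    ∃ (r u v : ℤ) (cp cm : ℝ), St s t r u v cp cm := by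
  induction t generalizing s with
  | leaf a =>
    refine ⟨0, 0, 0, 1, 1, one_pos, one_pos, ?_, ?_, ⟨1, ?_⟩, ?_, ?_, ?_, ?_, ?_, ?_⟩
    · refine tendsto_const_nhds.congr' ?_
      filter_upwards [eventually_gt_atTop 0] with L hL
      simp only [eR, sw, PTree.wt]
      rw [← zpow_add₀ hL.ne']
      simp
    · refine tendsto_const_nhds.congr' ?_
      filter_upwards [eventually_gt_atTop 0] with L hL
      simp only [eR, sw, PTree.wt]
      rw [← zpow_add₀ hL.ne']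
      cases s <;> simp
    · filter_upwards with L
      simp [eR]
    all_goals simp [PTree.deg]
  | graft p c ihp ihc =>
    obtain ⟨hp, hc, hcond⟩ := h
    obtain ⟨r, u, v, cp, cm, S⟩ := ihp hp s
    obtain ⟨r', u', v', cp', cm', S'⟩ := ihc hc (!s)
    have hsw : (c.deg : ℤ) ≤ 1 → sw (!s) c ≤ -2 ∨ 2 ≤ sw (!s) c := by
      intro h1
      have h2 := hcond (by exact_mod_cast h1)
      unfold sw
      split_ifs <;> omega
    have b1 := S'.k1
    have b2 := S'.k2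
    have b3 := S'.k3
    have b4 := S'.k4
    have b5 := S'.k5
    have b6 := S'.k6
    have a1 := S.k1
    have a2 := S.k2
    have a3 := S.k3
    have a4 := S.k4
    have a5 := S.k5
    have a6 := S.k6
    set e' := sw (!s) c with he'
    have hdn : (0 : ℤ) ≤ c.deg := Int.natCast_nonneg _
    have hM : min (u' - e') (v' + e') ≤ -2 ∧ min (u' - e') (v' + e') + 1 ≤ r' ∧
        (u' - e' ≠ v' + e' → min (u' - e') (v' + e') + 2 ≤ r') := by
      by_cases h1 : (c.deg : ℤ) ≤ 1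
      · have h2 := hsw h1
        rcases h2 with h3 | h3 <;> refine ⟨?_, ?_, fun _ => ?_⟩ <;> omega
      · refine ⟨?_, ?_, fun _ => ?_⟩ <;> omega
    obtain ⟨hM1, hM2, hM3⟩ := hM
    obtain ⟨⟨A, hA, tA⟩, ⟨B, hB, tB⟩, hC, -⟩ := rot_asym S'.cp0 S'.cm0 S'.hp S'.hq S'.h0 hM2 hM3
    refine ⟨r + (min (u' - e') (v' + e') + 1), u + min (u' - e' + 1) (v' + e'),
      v + min (u' - e') (v' + e' + 1), cp * A, cm * B, mul_pos S.cp0 hA, mul_pos S.cm0 hB,
      ?_, ?_, ?_, ?_, ?_, ?_, ?_, ?_, ?_⟩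
    · refine (S.hp.mul tA).congr' ?_
      filter_upwards [eventually_gt_atTop 0] with L hL
      have e1 : (eR L s (.graft p c)).1 = (eR L s p).1 * (rotR L (eR L (!s) c)).1 := rfl
      have e2 : sw s (.graft p c) = sw s p := rfl
      have e3 : L ^ (u + min (u' - e' + 1) (v' + e') - sw s p) =
          L ^ (u - sw s p) * L ^ (min (u' - e' + 1) (v' + e')) := by
        rw [← zpow_add₀ hL.ne']
        congr 1
        ring
      rw [e1, e2, e3]
      ring
    · refine (S.hq.mul tB).congr' ?_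
      filter_upwards [eventually_gt_atTop 0] with L hL
      have e1 : (eR L s (.graft p c)).2.1 = (eR L s p).2.1 * (rotR L (eR L (!s) c)).2.1 := rfl
      have e2 : sw s (.graft p c) = sw s p := rfl
      have e3 : L ^ (v + min (u' - e') (v' + e' + 1) + sw s p) =
          L ^ (v + sw s p) * L ^ (min (u' - e') (v' + e' + 1)) := by
        rw [← zpow_add₀ hL.ne']
        congr 1
        ring
      rw [e1, e2, e3]
      ring
    · obtain ⟨C, hC⟩ := bdm S.h0 hC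
      refine ⟨C, ?_⟩
      filter_upwards [hC, eventually_gt_atTop 0] with L hCL hL
      have e1 : (eR L s (.graft p c)).2.2 = (eR L s p).2.2 * (rotR L (eR L (!s) c)).2.2 := rfl
      have e3 : L ^ (r + (min (u' - e') (v' + e') + 1)) =
          L ^ r * L ^ (min (u' - e') (v' + e') + 1) := zpow_add₀ hL.ne' _ _
      rw [e1, e3]
      refine le_trans (le_of_eq ?_) hCL
      congr 1
      ring
    all_goals
      try simp only [PTree.deg]
      try push_cast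
      omega

theorem grow (t : PTree) (h : Reduced t) :
    Tendsto (fun L : ℝ => (rotR L (eR L true t)).2.2) atTop atTop := by
  obtain ⟨hI, hcond⟩ := h
  obtain ⟨r, u, v, cp, cm, S⟩ := state t hI true
  have a1 := S.k1
  have a2 := S.k2
  have a3 := S.k3
  have a4 := S.k4
  have a5 := S.k5
  have a6 := S.k6
  have hsw : (t.deg : ℤ) ≤ 2 → sw true t ≤ -2 ∨ 2 ≤ sw true t := by
    intro h1
    have h2 := hcond (by exact_mod_cast h1)
    unfold sw
    rw [if_pos rfl]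
    omega
  have hdn : (0 : ℤ) ≤ t.deg := Int.natCast_nonneg _
  have hM : min (u - sw true t) (v + sw true t) ≤ -2 ∧ min (u - sw true t) (v + sw true t) + 2 ≤ r := by
    by_cases h1 : (t.deg : ℤ) ≤ 2
    · have h2 := hsw h1
      rcases h2 with h3 | h3 <;> refine ⟨?_, ?_⟩ <;> omega
    · refine ⟨?_, ?_⟩ <;> omega
  obtain ⟨-, -, -, hD⟩ := rot_asym S.cp0 S.cm0 S.hp S.hq S.h0 (by omega) (fun _ => hM.2)
  obtain ⟨D, hD0, tD⟩ := hD hM.2
  have h2 : Tendsto (fun L : ℝ => L ^ (-(min (u - sw true t) (v + sw true t) + 1))) atTop atTop := by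
    obtain ⟨m, hm⟩ := Int.eq_ofNat_of_zero_le (show 0 ≤ -(min (u - sw true t) (v + sw true t) + 1) by omega)
    rw [hm]
    have hm0 : m ≠ 0 := by
      rintro rfl
      omega
    simpa using tendsto_pow_atTop (α := ℝ) hm0
  refine (Tendsto.pos_mul_atTop hD0 tD h2).congr' ?_
  filter_upwards [eventually_gt_atTop 0] with L hL
  rw [mul_assoc, ← zpow_add₀ hL.ne']
  simp

end Pool.Agent.KAF
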