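import Mathlib
import Pool.Agent.EVT.Defs
import Pool.Agent.Helper9.TG.PTree

/-!
# The Kauffman polynomial detects arborescent knots: definitions

Only definitions.
-/

namespace Pool.Agent.KAF

open Finset
open Pool.Agent.Helper9.Kashaev (Piece Diagram)
open Pool.Agent.Helper9.TG (PTree)
open Pool.Agent.EVT (FD zp zz xW)

/-! ### matrices of two strands -/

section Mat

variable {A ι κ : Type*} [CommRing A] [Fintype ι] [DecidableEq ι] [Fintype κ] [DecidableEq κ]

/-- the operator of a matrix at the strands number `k`, `k + 1` -/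
def op (M : ι → ι → ι → ι → A) : ℕ → (List ι → A) → List ι → A
  | 0, f, a :: b :: w => ∑ c, ∑ d, M a b c d * f (c :: d :: w)
  | 0, _, _ => 0
  | _ + 1, _, [] => 0
  | k + 1, f, x :: w => op M k (fun u => f (x :: u)) w

/-- two vertical strands -/
def one (a b c d : ι) : A := if a = c ∧ b = d then 1 else 0

/-- a maximum below a minimum -/
def FE (F : FD A ι) (a b c d : ι) : A :=
  if b = F.dual a ∧ d = F.dual c then F.cup a * F.cap c else 0

/-- the product of matrices (the second one is below the first one) -/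
def mm (M N : ι → ι → ι → ι → A) (a b c d : ι) : A := ∑ x, ∑ y, M a b x y * N x y c d

/-- the matrix turned by a quarter turn -/
def rt (F : FD A ι) (M : ι → ι → ι → ι → A) (a b c d : ι) : A :=
  F.cup a * F.cap (F.dual d) * M b (F.dual d) (F.dual a) c

/-- the combination of two vertical strands, a maximum below a minimum and a positive crossing -/
def cmb (F : FD A ι) (x : A × A × A) (a b c d : ι) : A :=
  x.1 * one a b c d + x.2.1 * FE F a b c d + x.2.2 * F.pos a b c d

/-- The relations of the Dubrovnik form of the Kauffman polynomial; `θ` is the factor of a positive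
curl, `θ'` that of a negative one, `δ` the value of a closed curve. -/
structure Kf (F : FD A ι) (z δ θ θ' : A) : Prop where
  dd : ∀ a, F.dual (F.dual a) = a
  zig : ∀ a, F.cap (F.dual a) * F.cup a = 1
  loop : ∑ a, F.cap a * F.cup a = δ
  tt : θ * θ' = 1
  skein : ∀ a b c d, F.pos a b c d - F.neg a b c d = z * (one a b c d - FE F a b c d)
  cup1p : ∀ a b, ∑ c, F.pos a b c (F.dual c) * F.cup c = if b = F.dual a then θ * F.cup a else 0
  cup1n : ∀ a b, ∑ c, F.neg a b c (F.dual c) * F.cup c = if b = F.dual a then θ' * F.cup a else 0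
  cap1p : ∀ c d, ∑ a, F.cap a * F.pos a (F.dual a) c d = if d = F.dual c then θ * F.cap c else 0
  cap1n : ∀ c d, ∑ a, F.cap a * F.neg a (F.dual a) c d = if d = F.dual c then θ' * F.cap c else 0
  pn : ∀ a b c d, ∑ x, ∑ y, F.neg a b x y * F.pos x y c d = if a = c ∧ b = d then 1 else 0
  np : ∀ a b c d, ∑ x, ∑ y, F.pos a b x y * F.neg x y c d = if a = c ∧ b = d then 1 else 0
  rotp : ∀ a b c x, F.cup (F.dual c) * F.pos a b x (F.dual c) =
    F.cup a * F.neg b c (F.dual a) x
  rotn : ∀ a b c x, F.cup (F.dual c) * F.neg a b x (F.dual c) =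
    F.cup a * F.pos b c (F.dual a) x

/-- the third Reidemeister move -/
def R3 (P : ι → ι → ι → ι → A) : Prop := ∀ t₁ t₂ t₃ s₁ s₂ s₃,
  ∑ u, ∑ v, ∑ w, P t₁ t₂ u v * P v t₃ w s₃ * P u w s₁ s₂ =
    ∑ u, ∑ v, ∑ w, P t₂ t₃ u v * P t₁ u s₁ w * P w v s₂ s₃

/-- the mirror image -/
def bar (F : FD A ι) : FD A ι where
  dual := F.dual
  cup := F.cup
  cap := F.cap
  pos := F.neg
  neg := F.pos

/-- the product of two state sums -/
def prd (F : FD A ι) (G : FD A κ) : FD A (ι × κ) where
  dual := fun a => (F.dual a.1, G.dual a.2)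
  cup := fun a => F.cup a.1 * G.cup a.2
  cap := fun a => F.cap a.1 * G.cap a.2
  pos := fun a b c d => F.pos a.1 b.1 c.1 d.1 * G.pos a.2 b.2 c.2 d.2
  neg := fun a b c d => F.neg a.1 b.1 c.1 d.1 * G.neg a.2 b.2 c.2 d.2

end Mat

/-! ### the vector representation of quantum `so(2 n)` -/

section KF

variable {A : Type*} [CommRing A]

/-- the coefficient of a minimum -/
def cK {n : ℕ} (q : Aˣ) (a : Bool × Fin n) : A :=
  if a.1 then zp q (2 * (a.2 : ℤ) + 2 - 2 * n) else 1

/-- the coefficient of a maximum -/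
def eK {n : ℕ} (q : Aˣ) (a : Bool × Fin n) : A :=
  if a.1 then 1 else zp q (2 * n - 2 - 2 * (a.2 : ℤ))

/-- The matrices of the framed crossings of quantum `gl(n)` for all orientations. -/
def xK {n : ℕ} (q : Aˣ) (s : Bool) (a b c d : Bool × Fin n) : A :=
  zp q (if s = decide (a.1 = b.1) then n else -n) * xW q s a b c d

/-- Two vertical strands minus a maximum below a minimum, for the orientation `(u, !u)` at the top and at
the bottom. -/
def tK {n : ℕ} (q : Aˣ) (u : Bool) (a b c d : Bool × Fin n) : A :=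
  if a.1 = u ∧ b.1 = !u ∧ c.1 = u ∧ d.1 = !u then
    (if a.2 = c.2 ∧ b.2 = d.2 then 1 else 0) -
      (if a.2 = b.2 ∧ c.2 = d.2 then cK q a * eK q c else 0)
  else 0

/-- The state sum of the vector representation of quantum `so(2 n)`: the framed crossings of quantum
`gl(n)` and a correction. -/
def KF (n : ℕ) (q : Aˣ) : FD A (Bool × Fin n) where
  dual := fun a => (!a.1, a.2)
  cup := cK q
  cap := eK q
  pos := fun a b c d => xK q true a b c d + zz q * tK q true a b c d
  neg := fun a b c d => xK q false a b c d - zz q * tK q false a b c d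

/-- the value of a closed curve -/
def dK {A : Type*} [CommRing A] (n : ℕ) (q : Aˣ) : A := ∑ a : Bool × Fin n, eK q a * cK q a

/-- the factor of a curl of the framed crossings of quantum `gl(n)`: sign of the crossing, orientation
at the upper left -/
def kp {A : Type*} [CommRing A] (n : ℕ) (q : Aˣ) (s u : Bool) : A :=
  zp q (if s then (if u then -1 else 1 - 2 * n) else (if u then 2 * n - 1 else 1))

/-- the state sum of a diagram and its mirror image -/
def KP (n : ℕ) (q : Aˣ) : FD A ((Bool × Fin n) × (Bool × Fin n)) := prd (KF n q) (bar (KF n q))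

/-- the value of a diagram with one strand at the bottom and at the top, times that of its mirror
image -/
def vK (n : ℕ) [NeZero n] (q : Aˣ) (D : Diagram) : A :=
  (KP n q).RT D (EVT.ket A [((true, 0), (true, 0))]) [((true, 0), (true, 0))]

end KF

/-! ### the recursion of a plumbing tree -/

/-- The parameters `z`, `δ`, `θ`, `θ'`. -/
structure Par (A : Type*) where
  z : A
  d : A
  t : A
  t' : A

section Par

variable {A : Type*} [CommRing A]

/-- the product of two combinations of `1`, `E`, `R` -/
def Par.mul (P : Par A) (x y : A × A × A) : A × A × A :=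
  (x.1 * y.1 + x.2.2 * y.2.2,
    x.1 * y.2.1 + x.2.1 * y.1 + P.d * (x.2.1 * y.2.1) + P.t * (x.2.1 * y.2.2 + x.2.2 * y.2.1) -
      P.z * P.t * (x.2.2 * y.2.2),
    x.1 * y.2.2 + x.2.2 * y.1 + P.z * (x.2.2 * y.2.2))

/-- the combination turned by a quarter turn -/
def Par.rot (P : Par A) (x : A × A × A) : A × A × A :=
  (x.2.1 - P.z * x.2.2, x.1 + P.z * x.2.2, x.2.2)

/-- the powers of a crossing -/
def Par.tw (P : Par A) (s : Bool) : ℕ → A × A × A
  | 0 => (1, 0, 0)
  | n + 1 => P.mul (P.tw s n) (if s then (0, 0, 1) else (-P.z, P.z, 1))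

/-- the tangle of a tree -/
def Par.tr (P : Par A) : Bool → PTree → A × A × A
  | s, .leaf a => P.tw (decide (decide (0 < a) = s)) a.natAbs
  | s, .graft p c => P.mul (P.tr s p) (P.rot (P.tr (!s) c))

/-- the value of a plumbing tree -/
def Par.val (P : Par A) (t : PTree) : A :=
  P.d * (P.tr true t).1 + (P.tr true t).2.1 + P.t' * (P.tr true t).2.2

/-- the parameters of the mirror image -/
def Par.bar (P : Par A) : Par A := ⟨-P.z, P.d, P.t', P.t⟩

/-- change of the ring -/
def Par.map {B : Type*} [CommRing B] (φ : A →+* B) (P : Par A) : Par B :=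
  ⟨φ P.z, φ P.d, φ P.t, φ P.t'⟩

end Par

/-- the parameters for given `a` and `z` -/
noncomputable def par {K : Type*} [Field K] (a z : K) : Par K := ⟨z, 1 + (a - a⁻¹) / z, a⁻¹, a⟩

/-! ### the real recursion -/

/-- the quarter turn in the eigencoordinates -/
noncomputable def rotR (L : ℝ) (x : ℝ × ℝ × ℝ) : ℝ × ℝ × ℝ :=
  let D : ℝ := 2 / (L + L⁻¹) - 1
  let C : ℝ := (x.1 - x.2.1) / (L - L⁻¹)
  let A : ℝ := (L * x.2.1 - L⁻¹ * x.1) / (L - L⁻¹)
  let B : ℝ := (x.2.2 - A - C) / D
  (B + C * L⁻¹, B + C * L, A * D + B + C)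

/-- the eigencoordinates of the tangle of a tree -/
noncomputable def eR (L : ℝ) : Bool → PTree → ℝ × ℝ × ℝ
  | s, .leaf a => (L ^ (if s then a else -a), L ^ (if s then -a else a), 1)
  | s, .graft p c => eR L s p * rotR L (eR L (!s) c)

/-! ### reduced trees -/

/-- Every vertex except the root with at most one child has a weight of absolute value at least `2`. -/
def Inner : PTree → Prop
  | .leaf _ => True
  | .graft p c => Inner p ∧ Inner c ∧ (c.deg ≤ 1 → 2 ≤ c.wt.natAbs)

/-- All weights at vertices of valence at most `2` have absolute value at least `2`. -/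
def Reduced (t : PTree) : Prop := Inner t ∧ (t.deg ≤ 2 → 2 ≤ t.wt.natAbs)

end Pool.Agent.KAF
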