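import Pool.Agent.KAF.Defs

/-!
# KAF module RE: matrices of three strands

* `LM M`, `RM M`: the matrix `M` on the strands 1, 2 resp. 2, 3 of three strands; `PM ty u v w`: the
  projection on the words with the types `u, v, w`.
* All statements are computations with entries (`ext ⟨a, b, c⟩ ⟨d, e, f⟩`, `Matrix.mul_apply`,
  `Fintype.sum_prod_type`).  `r3_iff`: the entry at `(t₁, t₂, t₃)`, `(s₁, s₂, s₃)`.
* `EEL`, `EER`: straightening; `cap (dual a) * cup a = 1`.
* `bend1`-`bend4`: e.g. `bend1` at `(a, b, c)`, `(d, e, f)`: left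
  `∑ x y z, [a = x] X b c y z * [z = f] [y = dual x] cup x * [e = dual d] cap d`
  `= X b c (dual a) f * cup a * cap d` if `e = dual d`, else `0`; right: `Y a b x y` with a minimum
  at the strands 2, 3 and straightening: `Y a b f (dual c) * cup (dual c) * cap d` if `e = dual d`;
  equal by `rot'` (with `X`, `Y` exchanged).
-/

namespace Pool.Agent.KAF

open Finset Matrix
open Pool.Agent.EVT (FD)

variable {A ι : Type*} [CommRing A] [Fintype ι] [DecidableEq ι]

/-- a matrix on the first two of three strands -/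
def LM (M : ι → ι → ι → ι → A) : Matrix (ι × ι × ι) (ι × ι × ι) A :=
  fun a c => if a.2.2 = c.2.2 then M a.1 a.2.1 c.1 c.2.1 else 0

/-- a matrix on the last two of three strands -/
def RM (M : ι → ι → ι → ι → A) : Matrix (ι × ι × ι) (ι × ι × ι) A :=
  fun a c => if a.1 = c.1 then M a.2.1 a.2.2 c.2.1 c.2.2 else 0

/-- the projection on the words with given types -/
def PM (A : Type*) [CommRing A] (ty : ι → Bool) (u v w : Bool) :
    Matrix (ι × ι × ι) (ι × ι × ι) A :=
  Matrix.diagonal fun a => if ty a.1 = u ∧ ty a.2.1 = v ∧ ty a.2.2 = w then 1 else 0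

private theorem lml (M : ι → ι → ι → ι → A) (Z : Matrix (ι × ι × ι) (ι × ι × ι) A) (a b c : ι)
    (g : ι × ι × ι) : (LM M * Z) (a, b, c) g = ∑ x, ∑ y, M a b x y * Z (x, y, c) g := by
  rw [Matrix.mul_apply, Fintype.sum_prod_type]
  refine Finset.sum_congr rfl fun x _ => ?_
  rw [Fintype.sum_prod_type]
  refine Finset.sum_congr rfl fun y _ => ?_
  simp [LM]

private theorem rml (M : ι → ι → ι → ι → A) (Z : Matrix (ι × ι × ι) (ι × ι × ι) A) (a b c : ι)
    (g : ι × ι × ι) : (RM M * Z) (a, b, c) g = ∑ y, ∑ z, M b c y z * Z (a, y, z) g := by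
  rw [Matrix.mul_apply, Fintype.sum_prod_type]
  rw [Finset.sum_eq_single a]
  · rw [Fintype.sum_prod_type]
    refine Finset.sum_congr rfl fun y _ => Finset.sum_congr rfl fun z _ => ?_
    simp [RM]
  · intro x _ hx
    refine Finset.sum_eq_zero fun y _ => ?_
    have : a ≠ x := fun h => hx h.symm
    simp [RM, this]
  · intro h
    exact absurd (Finset.mem_univ _) h

theorem LM_mul (M N : ι → ι → ι → ι → A) : LM M * LM N = LM (mm M N) := by
  ext ⟨a, b, c⟩ ⟨d, e, f⟩
  rw [lml]
  by_cases h : c = f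
  · simp [LM, mm, h]
  · simp [LM, h]

theorem RM_mul (M N : ι → ι → ι → ι → A) : RM M * RM N = RM (mm M N) := by
  ext ⟨a, b, c⟩ ⟨d, e, f⟩
  rw [rml]
  by_cases h : a = d
  · simp [RM, mm, h]
  · simp [RM, h]

theorem LM_one : LM (one : ι → ι → ι → ι → A) = 1 := by
  ext ⟨a, b, c⟩ ⟨d, e, f⟩
  rw [Matrix.one_apply]
  simp only [LM, one, Prod.mk.injEq]
  by_cases h : c = f <;> simp [h, and_assoc]

theorem RM_one : RM (one : ι → ι → ι → ι → A) = 1 := by
  ext ⟨a, b, c⟩ ⟨d, e, f⟩
  rw [Matrix.one_apply]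
  simp only [RM, one, Prod.mk.injEq]
  by_cases h : a = d <;> simp [h]

theorem LM_add (x : A) (M N : ι → ι → ι → ι → A) :
    LM (fun a b c d => M a b c d + x * N a b c d) = LM M + x • LM N := by
  ext ⟨a, b, c⟩ ⟨d, e, f⟩
  simp only [LM, Matrix.add_apply, Matrix.smul_apply, smul_eq_mul]
  split_ifs <;> simp

theorem RM_add (x : A) (M N : ι → ι → ι → ι → A) :
    RM (fun a b c d => M a b c d + x * N a b c d) = RM M + x • RM N := by
  ext ⟨a, b, c⟩ ⟨d, e, f⟩
  simp only [RM, Matrix.add_apply, Matrix.smul_apply, smul_eq_mul]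
  split_ifs <;> simp

theorem r3_iff (P : ι → ι → ι → ι → A) :
    R3 P ↔ LM P * RM P * LM P = RM P * LM P * RM P := by
  have e1 : ∀ t₁ t₂ t₃ s₁ s₂ s₃ : ι, (LM P * RM P * LM P) (t₁, t₂, t₃) (s₁, s₂, s₃) =
      ∑ u, ∑ v, ∑ w, P t₁ t₂ u v * P v t₃ w s₃ * P u w s₁ s₂ := by
    intro t₁ t₂ t₃ s₁ s₂ s₃
    rw [Matrix.mul_assoc, lml]
    refine Finset.sum_congr rfl fun u _ => Finset.sum_congr rfl fun v _ => ?_
    rw [rml, Finset.mul_sum]
    refine Finset.sum_congr rfl fun w _ => ?_
    simp [LM, mul_assoc]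
  have e2 : ∀ t₁ t₂ t₃ s₁ s₂ s₃ : ι, (RM P * LM P * RM P) (t₁, t₂, t₃) (s₁, s₂, s₃) =
      ∑ u, ∑ v, ∑ w, P t₂ t₃ u v * P t₁ u s₁ w * P w v s₂ s₃ := by
    intro t₁ t₂ t₃ s₁ s₂ s₃
    rw [Matrix.mul_assoc, rml]
    refine Finset.sum_congr rfl fun u _ => Finset.sum_congr rfl fun v _ => ?_
    rw [lml, Finset.sum_comm, Finset.mul_sum]
    refine Finset.sum_congr rfl fun w _ => ?_
    simp [RM, mul_assoc]
  constructor
  · intro h
    ext ⟨t₁, t₂, t₃⟩ ⟨s₁, s₂, s₃⟩
    rw [e1, e2]
    exact h t₁ t₂ t₃ s₁ s₂ s₃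
  · intro h t₁ t₂ t₃ s₁ s₂ s₃
    rw [← e1, ← e2, h]

theorem PM_sum (ty : ι → Bool) :
    ∑ u, ∑ v, ∑ w, PM A ty u v w = 1 := by
  ext a b
  by_cases h : a = b
  · subst h
    simp only [Matrix.sum_apply, PM, Matrix.diagonal_apply_eq, Matrix.one_apply_eq,
      Fintype.sum_bool]
    rcases h1 : ty a.1 <;> rcases h2 : ty a.2.1 <;> rcases h3 : ty a.2.2 <;> simp [h1, h2, h3]
  · simp [Matrix.sum_apply, PM, Matrix.diagonal_apply_ne _ h, h]

theorem PM_mul (ty : ι → Bool) (u v w u' v' w' : Bool) :
    PM A ty u v w * PM A ty u' v' w' =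
      if u = u' ∧ v = v' ∧ w = w' then PM A ty u v w else 0 := by
  unfold PM
  rw [Matrix.diagonal_mul_diagonal]
  by_cases h : u = u' ∧ v = v' ∧ w = w'
  · obtain ⟨rfl, rfl, rfl⟩ := h
    simp only [and_self, if_true]
    congr 1
    funext a
    split_ifs <;> simp
  · rw [if_neg h]
    ext a b
    rw [Matrix.diagonal_apply]
    split_ifs with h1 h2 h3
    · exfalso
      obtain ⟨p1, p2, p3⟩ := h2
      obtain ⟨q1, q2, q3⟩ := h3
      exact h ⟨p1.symm.trans q1, p2.symm.trans q2, p3.symm.trans q3⟩
    all_goals simp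

/-- A matrix which exchanges the types. -/
theorem PM_LM (ty : ι → Bool) {M : ι → ι → ι → ι → A}
    (h : ∀ a b c d, M a b c d ≠ 0 → ty c = ty b ∧ ty d = ty a) (u v w : Bool) :
    PM A ty u v w * LM M = LM M * PM A ty v u w := by
  ext ⟨a, b, c⟩ ⟨d, e, f⟩
  unfold PM
  rw [Matrix.diagonal_mul, Matrix.mul_diagonal]
  by_cases h0 : LM M (a, b, c) (d, e, f) = 0
  · rw [h0, mul_zero, zero_mul]
  · have h1 : c = f := by
      by_contra hn
      exact h0 (if_neg hn)
    have h2 : M a b d e ≠ 0 := by
      intro hn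
      apply h0
      simp [LM, hn]
    obtain ⟨h3, h4⟩ := h a b d e h2
    rw [mul_comm]
    congr 1
    refine if_congr ?_ rfl rfl
    simp only [h1, h3, h4]
    tauto

theorem PM_RM (ty : ι → Bool) {M : ι → ι → ι → ι → A}
    (h : ∀ a b c d, M a b c d ≠ 0 → ty c = ty b ∧ ty d = ty a) (u v w : Bool) :
    PM A ty u v w * RM M = RM M * PM A ty u w v := by
  ext ⟨a, b, c⟩ ⟨d, e, f⟩
  unfold PM
  rw [Matrix.diagonal_mul, Matrix.mul_diagonal]
  by_cases h0 : RM M (a, b, c) (d, e, f) = 0
  · rw [h0, mul_zero, zero_mul]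
  · have h1 : a = d := by
      by_contra hn
      exact h0 (if_neg hn)
    have h2 : M b c e f ≠ 0 := by
      intro hn
      apply h0
      simp [RM, hn]
    obtain ⟨h3, h4⟩ := h b c e f h2
    rw [mul_comm]
    congr 1
    refine if_congr ?_ rfl rfl
    simp only [h1, h3, h4]
    tauto

section bend

variable (F : FD A ι) (dd : ∀ a, F.dual (F.dual a) = a) (zig : ∀ a, F.cap (F.dual a) * F.cup a = 1)

include dd zig

omit dd zig in
private theorem lel (Z : Matrix (ι × ι × ι) (ι × ι × ι) A) (a b c : ι) (g : ι × ι × ι) :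
    (LM (FE F) * Z) (a, b, c) g =
      if b = F.dual a then ∑ x, F.cup a * F.cap x * Z (x, F.dual x, c) g else 0 := by
  rw [lml]
  by_cases h : b = F.dual a
  · rw [if_pos h]
    refine Finset.sum_congr rfl fun x _ => ?_
    simp [FE, h]
  · rw [if_neg h]
    refine Finset.sum_eq_zero fun x _ => Finset.sum_eq_zero fun y _ => ?_
    simp [FE, h]

omit dd zig in
private theorem rel (Z : Matrix (ι × ι × ι) (ι × ι × ι) A) (a b c : ι) (g : ι × ι × ι) :
    (RM (FE F) * Z) (a, b, c) g =
      if c = F.dual b then ∑ y, F.cup b * F.cap y * Z (a, y, F.dual y) g else 0 := by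
  rw [rml]
  by_cases h : c = F.dual b
  · rw [if_pos h]
    refine Finset.sum_congr rfl fun x _ => ?_
    simp [FE, h]
  · rw [if_neg h]
    refine Finset.sum_eq_zero fun x _ => Finset.sum_eq_zero fun y _ => ?_
    simp [FE, h]

omit zig in
private theorem dual_eq (x y : ι) : F.dual x = y ↔ x = F.dual y := by
  constructor
  · intro h
    rw [← h, dd]
  · intro h
    rw [h, dd]

/-- the product of two bends, the first one at the upper left -/
private theorem ler (M : ι → ι → ι → ι → A) (x y c d e f : ι) :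
    (RM (FE F) * LM M) (x, y, c) (d, e, f) =
      if y = F.dual c then F.cup (F.dual c) * F.cap (F.dual f) * M x (F.dual f) d e else 0 := by
  rw [rel]
  by_cases h : y = F.dual c
  · have h' : c = F.dual y := by rw [h, dd]
    rw [if_pos h, if_pos h', Finset.sum_eq_single (F.dual f)]
    · simp [LM, dd, h]
    · intro z _ hz
      have : ¬ (F.dual z = f) := fun hn => hz ((dual_eq F dd z f).mp hn)
      simp [LM, this]
    · intro hn
      exact absurd (Finset.mem_univ _) hn
  · have h' : ¬ (c = F.dual y) := fun hn => h (by rw [hn, dd])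
    rw [if_neg h, if_neg h']

private theorem rel' (M : ι → ι → ι → ι → A) (a y z d e f : ι) :
    (LM (FE F) * RM M) (a, y, z) (d, e, f) =
      if y = F.dual a then F.cup a * F.cap d * M (F.dual d) z e f else 0 := by
  rw [lel]
  by_cases h : y = F.dual a
  · rw [if_pos h, if_pos h, Finset.sum_eq_single d]
    · simp [RM]
    · intro x _ hx
      simp [RM, hx]
    · intro hn
      exact absurd (Finset.mem_univ _) hn
  · rw [if_neg h, if_neg h]

theorem EEL : LM (FE F) * RM (FE F) * LM (FE F) = LM (FE F) := by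
  ext ⟨a, b, c⟩ ⟨d, e, f⟩
  have hz : ∀ x, F.cap x * F.cup (F.dual x) = 1 := fun x => by
    have := zig (F.dual x)
    rwa [dd] at this
  rw [Matrix.mul_assoc, lel]
  simp only [ler F dd zig]
  by_cases h : b = F.dual a
  · rw [if_pos h, Finset.sum_eq_single c]
    · by_cases hcf : c = f
      · by_cases hed : e = F.dual d
        · simp only [LM, FE, h, hcf, hed, if_true, and_self]
          linear_combination F.cup a * F.cap d * F.cap (F.dual f) * F.cup f * hz f +
            F.cup a * F.cap d * zig f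
        · simp [LM, FE, hcf, hed]
      · have h2 : ¬ (F.dual f = F.dual c) := fun hn => hcf (by rw [← dd c, ← hn, dd])
        simp [LM, FE, hcf, h2]
    · intro x _ hx
      have h2 : ¬ (F.dual x = F.dual c) := fun hn => hx (by rw [← dd x, hn, dd])
      rw [if_neg h2, mul_zero]
    · intro hn
      exact absurd (Finset.mem_univ _) hn
  · rw [if_neg h]
    simp [LM, FE, h]

theorem EER : RM (FE F) * LM (FE F) * RM (FE F) = RM (FE F) := by
  ext ⟨a, b, c⟩ ⟨d, e, f⟩
  have hz : ∀ x, F.cap x * F.cup (F.dual x) = 1 := fun x => by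
    have := zig (F.dual x)
    rwa [dd] at this
  rw [Matrix.mul_assoc, rel]
  simp only [rel' F dd zig]
  by_cases h : c = F.dual b
  · rw [if_pos h, Finset.sum_eq_single (F.dual a)]
    · by_cases had : a = d
      · by_cases hfe : f = F.dual e
        · simp only [RM, FE, h, had, hfe, dd, if_true, and_self]
          linear_combination F.cup b * F.cap e * F.cap (F.dual d) * F.cup d * hz d +
            F.cup b * F.cap e * zig d
        · simp [RM, FE, had, hfe]
      · have h2 : ¬ (a = d) := had
        have h3 : ¬ (F.dual (F.dual a) = F.dual (F.dual d)) := fun hn => had (by rw [← dd a, hn, dd])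
        simp [RM, FE, had, h3]
    · intro x _ hx
      rw [if_neg hx, mul_zero]
    · intro hn
      exact absurd (Finset.mem_univ _) hn
  · rw [if_neg h]
    simp [RM, FE, h]

variable {X Y : ι → ι → ι → ι → A}
  (rot : ∀ a b c x, F.cup (F.dual c) * X a b x (F.dual c) = F.cup a * Y b c (F.dual a) x)
  (rot' : ∀ a b c x, F.cup (F.dual c) * Y a b x (F.dual c) = F.cup a * X b c (F.dual a) x)

include rot rot'

theorem bend1 : RM X * LM (FE F) = LM Y * RM (FE F) * LM (FE F) := by
  ext ⟨a, b, c⟩ ⟨d, e, f⟩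
  rw [Matrix.mul_assoc, rml, lml]
  simp only [ler F dd zig]
  have e1 : ∑ y, ∑ z, X b c y z * LM (FE F) (a, y, z) (d, e, f) =
      if e = F.dual d then X b c (F.dual a) f * (F.cup a * F.cap d) else 0 := by
    rw [Finset.sum_eq_single (F.dual a)]
    · rw [Finset.sum_eq_single f]
      · simp [LM, FE]
      · intro z _ hz
        simp [LM, hz]
      · intro hn
        exact absurd (Finset.mem_univ _) hn
    · intro y _ hy
      refine Finset.sum_eq_zero fun z _ => ?_
      simp [LM, FE, hy]
    · intro hn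
      exact absurd (Finset.mem_univ _) hn
  have e2 : ∑ x, ∑ y, Y a b x y * (if y = F.dual c then
        F.cup (F.dual c) * F.cap (F.dual f) * FE F x (F.dual f) d e else 0) =
      if e = F.dual d then Y a b f (F.dual c) * (F.cup (F.dual c) * F.cap d) else 0 := by
    rw [Finset.sum_eq_single f]
    · rw [Finset.sum_eq_single (F.dual c)]
      · by_cases h : e = F.dual d
        · simp only [FE, h, if_true, and_self]
          linear_combination Y a b f (F.dual c) * F.cup (F.dual c) * F.cap d * zig f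
        · simp [FE, h]
      · intro z _ hz
        simp [hz]
      · intro hn
        exact absurd (Finset.mem_univ _) hn
    · intro y _ hy
      have h2 : ¬ (F.dual f = F.dual y) := fun hn => hy (by rw [← dd y, ← hn, dd])
      refine Finset.sum_eq_zero fun z _ => ?_
      simp [FE, h2]
    · intro hn
      exact absurd (Finset.mem_univ _) hn
  rw [e1, e2]
  split_ifs
  · linear_combination (-F.cap d) * rot' a b c f
  · rfl

theorem bend2 : LM X * RM (FE F) = RM Y * LM (FE F) * RM (FE F) := by
  ext ⟨a, b, c⟩ ⟨d, e, f⟩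
  have hz : ∀ x, F.cap x * F.cup (F.dual x) = 1 := fun x => by
    have := zig (F.dual x)
    rwa [dd] at this
  rw [Matrix.mul_assoc, rml, lml]
  simp only [rel' F dd zig]
  have e1 : ∑ x, ∑ y, X a b x y * RM (FE F) (x, y, c) (d, e, f) =
      if f = F.dual e then X a b d (F.dual c) * (F.cup (F.dual c) * F.cap e) else 0 := by
    rw [Finset.sum_eq_single d]
    · rw [Finset.sum_eq_single (F.dual c)]
      · simp [RM, FE, dd]
      · intro z _ hz
        have h2 : ¬ (c = F.dual z) := fun hn => hz (by rw [hn, dd])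
        simp [RM, FE, h2]
      · intro hn
        exact absurd (Finset.mem_univ _) hn
    · intro y _ hy
      refine Finset.sum_eq_zero fun z _ => ?_
      simp [RM, hy]
    · intro hn
      exact absurd (Finset.mem_univ _) hn
  have e2 : ∑ y, ∑ z, Y b c y z * (if y = F.dual a then
        F.cup a * F.cap d * FE F (F.dual d) z e f else 0) =
      if f = F.dual e then Y b c (F.dual a) d * (F.cup a * F.cap e) else 0 := by
    rw [Finset.sum_eq_single (F.dual a)]
    · rw [Finset.sum_eq_single d]
      · by_cases h : f = F.dual e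
        · simp only [FE, h, dd, if_true, and_self]
          linear_combination Y b c (F.dual a) d * F.cup a * F.cap e * hz d
        · simp [FE, h]
      · intro z _ hz
        have h2 : ¬ (z = F.dual (F.dual d)) := fun hn => hz (by rw [hn, dd])
        simp [FE, h2]
      · intro hn
        exact absurd (Finset.mem_univ _) hn
    · intro y _ hy
      refine Finset.sum_eq_zero fun z _ => ?_
      simp [hy]
    · intro hn
      exact absurd (Finset.mem_univ _) hn
  rw [e1, e2]
  split_ifs
  · linear_combination F.cap e * rot a b c d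
  · rfl

theorem bend3 : LM (FE F) * RM X = LM (FE F) * RM (FE F) * LM Y := by
  ext ⟨a, b, c⟩ ⟨d, e, f⟩
  have hz : ∀ x, F.cap x * F.cup (F.dual x) = 1 := fun x => by
    have := zig (F.dual x)
    rwa [dd] at this
  rw [Matrix.mul_assoc, rel' F dd zig, lel]
  simp only [ler F dd zig]
  by_cases h : b = F.dual a
  · rw [if_pos h, if_pos h, Finset.sum_eq_single c]
    · rw [if_pos rfl]
      have h1 := rot (F.dual d) c (F.dual f) e
      rw [dd, dd] at h1
      linear_combination F.cup a * F.cap d * F.cap (F.dual f) * h1 +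
        F.cup a * F.cap (F.dual f) * Y c (F.dual f) d e * hz d -
        F.cup a * F.cap (F.dual f) * Y c (F.dual f) d e * hz c -
        F.cup a * F.cap d * X (F.dual d) c e f * zig f
    · intro x _ hx
      have h2 : ¬ (F.dual x = F.dual c) := fun hn => hx (by rw [← dd x, hn, dd])
      rw [if_neg h2, mul_zero]
    · intro hn
      exact absurd (Finset.mem_univ _) hn
  · rw [if_neg h, if_neg h]

theorem bend4 : RM (FE F) * LM X = RM (FE F) * LM (FE F) * RM Y := by
  ext ⟨a, b, c⟩ ⟨d, e, f⟩
  have hz : ∀ x, F.cap x * F.cup (F.dual x) = 1 := fun x => by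
    have := zig (F.dual x)
    rwa [dd] at this
  rw [Matrix.mul_assoc, ler F dd zig, rel]
  simp only [rel' F dd zig]
  by_cases h : c = F.dual b
  · have h' : b = F.dual c := by rw [h, dd]
    rw [if_pos h, if_pos h', Finset.sum_eq_single (F.dual a)]
    · rw [if_pos rfl, dd]
      have h1 := rot' (F.dual d) a (F.dual f) e
      rw [dd, dd] at h1
      rw [← h']
      linear_combination (-F.cup b * F.cap d * F.cap (F.dual f)) * h1 -
        F.cup b * F.cap (F.dual f) * X a (F.dual f) d e * hz d +
        F.cup b * F.cap d * Y (F.dual d) a e f * zig f -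
        F.cup b * F.cap d * Y (F.dual d) a e f * zig a
    · intro x _ hx
      rw [if_neg hx, mul_zero]
    · intro hn
      exact absurd (Finset.mem_univ _) hn
  · have h' : ¬ (b = F.dual c) := fun hn => h (by rw [hn, dd])
    rw [if_neg h, if_neg h']

end bend

end Pool.Agent.KAF
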