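import Pool.Agent.KAF.Defs
import Pool.Agent.KAF.RE

/-!
# KAF module FA: mirror image and product

* `bar_kf`: all fields are those of `F` with `pos` and `neg` exchanged; `skein`: negate.
* `r3_neg`: by `r3_iff`: `P₁ P₂ P₁ = P₂ P₁ P₂` for `P₁ = LM P`, `P₂ = RM P`; the inverse matrices are
  `LM N`, `RM N` (`LM_mul`, `LM_one`, ...), and `(P₁ P₂ P₁)⁻¹ = N₁ N₂ N₁`: multiply both sides of
  `P₁ P₂ P₁ = P₂ P₁ P₂` by `N₁ N₂ N₁` from the left and by `N₂ N₁ N₂` from the right.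
* `prd_inv`: every field of `FD.Inv` for the product: the sums over `ι × ι` (`Fintype.sum_prod_type`)
  are products of a sum for `F` and a sum for `bar F`; the factors `θ`, `θ'` cancel.
-/

namespace Pool.Agent.KAF

open Finset
open Pool.Agent.EVT (FD)

variable {A ι : Type*} [CommRing A] [Fintype ι] [DecidableEq ι]

theorem bar_kf {F : FD A ι} {z δ θ θ' : A} (h : Kf F z δ θ θ') : Kf (bar F) (-z) δ θ' θ where
  dd := h.dd
  zig := h.zig
  loop := h.loop
  tt := by rw [mul_comm]; exact h.tt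
  skein := by
    intro a b c d
    have h1 := h.skein a b c d
    show F.neg a b c d - F.pos a b c d = -z * (one a b c d - FE F a b c d)
    linear_combination (-1) * h1
  cup1p := h.cup1n
  cup1n := h.cup1p
  cap1p := h.cap1n
  cap1n := h.cap1p
  pn := h.np
  np := h.pn
  rotp := h.rotn
  rotn := h.rotp

theorem r3_neg {P N : ι → ι → ι → ι → A} (h : R3 P)
    (pn : ∀ a b c d, ∑ x, ∑ y, N a b x y * P x y c d = if a = c ∧ b = d then 1 else 0)
    (np : ∀ a b c d, ∑ x, ∑ y, P a b x y * N x y c d = if a = c ∧ b = d then 1 else 0) :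
    R3 N := by
  have e1 : mm N P = one := by
    funext a b c d
    exact pn a b c d
  have e2 : mm P N = one := by
    funext a b c d
    exact np a b c d
  have l1 : LM N * LM P = 1 := by rw [LM_mul, e1, LM_one]
  have l2 : LM P * LM N = 1 := by rw [LM_mul, e2, LM_one]
  have r1 : RM N * RM P = 1 := by rw [RM_mul, e1, RM_one]
  have r2 : RM P * RM N = 1 := by rw [RM_mul, e2, RM_one]
  rw [r3_iff] at h ⊢
  have k1 : (LM N * RM N * LM N) * (LM P * RM P * LM P) = 1 := by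
    have : (LM N * RM N * LM N) * (LM P * RM P * LM P) =
        LM N * (RM N * (LM N * LM P) * RM P) * LM P := by
      simp only [Matrix.mul_assoc]
    rw [this, l1, Matrix.mul_one, r1, Matrix.mul_one, l1]
  have k2 : (RM P * LM P * RM P) * (RM N * LM N * RM N) = 1 := by
    have : (RM P * LM P * RM P) * (RM N * LM N * RM N) =
        RM P * (LM P * (RM P * RM N) * LM N) * RM N := by
      simp only [Matrix.mul_assoc]
    rw [this, r2, Matrix.mul_one, l2, Matrix.mul_one, r2]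
  rw [h] at k1
  exact left_inv_eq_right_inv k1 k2

private theorem sum1 (f g : ι → A) : ∑ x : ι × ι, f x.1 * g x.2 = (∑ x, f x) * ∑ x, g x := by
  rw [Fintype.sum_prod_type, Finset.sum_mul_sum]

private theorem sum2 (f g : ι → ι → A) : ∑ x : ι × ι, ∑ y : ι × ι, f x.1 y.1 * g x.2 y.2 =
    (∑ x, ∑ y, f x y) * ∑ x, ∑ y, g x y := by
  rw [← sum1 (fun x => ∑ y, f x y) (fun x => ∑ y, g x y)]
  refine Finset.sum_congr rfl fun x _ => ?_
  exact sum1 (f x.1) (g x.2)

private theorem sum3 (f g : ι → ι → ι → A) :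
    ∑ x : ι × ι, ∑ y : ι × ι, ∑ w : ι × ι, f x.1 y.1 w.1 * g x.2 y.2 w.2 =
      (∑ x, ∑ y, ∑ w, f x y w) * ∑ x, ∑ y, ∑ w, g x y w := by
  rw [← sum1 (fun x => ∑ y, ∑ w, f x y w) (fun x => ∑ y, ∑ w, g x y w)]
  refine Finset.sum_congr rfl fun x _ => ?_
  exact sum2 (f x.1) (g x.2)

theorem prd_inv {F : FD A ι} {z δ θ θ' : A} (h : Kf F z δ θ θ') (h3 : R3 F.pos) :
    (prd F (bar F)).Inv := by
  have tt := h.tt
  have h3n : R3 F.neg := r3_neg h3 h.pn h.np
  refine ⟨?_, ?_, ?_, ?_, ?_, ?_, ?_, ?_, ?_, ?_, ?_⟩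
  · intro a
    show (F.dual (F.dual a.1), F.dual (F.dual a.2)) = a
    rw [h.dd, h.dd]
  · intro a
    show F.cap (F.dual a.1) * F.cap (F.dual a.2) * (F.cup a.1 * F.cup a.2) = 1
    have e1 := h.zig a.1
    have e2 := h.zig a.2
    calc F.cap (F.dual a.1) * F.cap (F.dual a.2) * (F.cup a.1 * F.cup a.2)
        = (F.cap (F.dual a.1) * F.cup a.1) * (F.cap (F.dual a.2) * F.cup a.2) := by ring
      _ = 1 := by rw [e1, e2, one_mul]
  · intro a b
    have e := sum1 (fun c => F.pos a.1 b.1 c (F.dual c) * F.cup c)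
      (fun c => F.neg a.2 b.2 c (F.dual c) * F.cup c)
    rw [h.cup1p, h.cup1n] at e
    calc ∑ c : ι × ι, (prd F (bar F)).pos a b c ((prd F (bar F)).dual c) * (prd F (bar F)).cup c
        = ∑ c : ι × ι, (F.pos a.1 b.1 c.1 (F.dual c.1) * F.cup c.1) *
            (F.neg a.2 b.2 c.2 (F.dual c.2) * F.cup c.2) := by
          refine Finset.sum_congr rfl fun c _ => ?_
          show F.pos a.1 b.1 c.1 (F.dual c.1) * F.neg a.2 b.2 c.2 (F.dual c.2) *
            (F.cup c.1 * F.cup c.2) = _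
          ring
      _ = _ := e
      _ = if b = (F.dual a.1, F.dual a.2) then F.cup a.1 * F.cup a.2 else 0 := by
          by_cases h1 : b.1 = F.dual a.1
          · by_cases h2 : b.2 = F.dual a.2
            · rw [if_pos h1, if_pos h2, if_pos (Prod.ext h1 h2)]
              linear_combination (F.cup a.1 * F.cup a.2) * tt
            · rw [if_neg h2, mul_zero, if_neg fun hb => h2 (by rw [hb])]
          · rw [if_neg h1, zero_mul, if_neg fun hb => h1 (by rw [hb])]
  · intro a b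
    have e := sum1 (fun c => F.neg a.1 b.1 c (F.dual c) * F.cup c)
      (fun c => F.pos a.2 b.2 c (F.dual c) * F.cup c)
    rw [h.cup1p, h.cup1n] at e
    calc ∑ c : ι × ι, (prd F (bar F)).neg a b c ((prd F (bar F)).dual c) * (prd F (bar F)).cup c
        = ∑ c : ι × ι, (F.neg a.1 b.1 c.1 (F.dual c.1) * F.cup c.1) *
            (F.pos a.2 b.2 c.2 (F.dual c.2) * F.cup c.2) := by
          refine Finset.sum_congr rfl fun c _ => ?_
          show F.neg a.1 b.1 c.1 (F.dual c.1) * F.pos a.2 b.2 c.2 (F.dual c.2) *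
            (F.cup c.1 * F.cup c.2) = _
          ring
      _ = _ := e
      _ = if b = (F.dual a.1, F.dual a.2) then F.cup a.1 * F.cup a.2 else 0 := by
          by_cases h1 : b.1 = F.dual a.1
          · by_cases h2 : b.2 = F.dual a.2
            · rw [if_pos h1, if_pos h2, if_pos (Prod.ext h1 h2)]
              linear_combination (F.cup a.1 * F.cup a.2) * tt
            · rw [if_neg h2, mul_zero, if_neg fun hb => h2 (by rw [hb])]
          · rw [if_neg h1, zero_mul, if_neg fun hb => h1 (by rw [hb])]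
  · intro c d
    have e := sum1 (fun a => F.cap a * F.pos a (F.dual a) c.1 d.1)
      (fun a => F.cap a * F.neg a (F.dual a) c.2 d.2)
    rw [h.cap1p, h.cap1n] at e
    calc ∑ a : ι × ι, (prd F (bar F)).cap a * (prd F (bar F)).pos a ((prd F (bar F)).dual a) c d
        = ∑ a : ι × ι, (F.cap a.1 * F.pos a.1 (F.dual a.1) c.1 d.1) *
            (F.cap a.2 * F.neg a.2 (F.dual a.2) c.2 d.2) := by
          refine Finset.sum_congr rfl fun a _ => ?_
          show F.cap a.1 * F.cap a.2 * (F.pos a.1 (F.dual a.1) c.1 d.1 *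
            F.neg a.2 (F.dual a.2) c.2 d.2) = _
          ring
      _ = _ := e
      _ = if d = (F.dual c.1, F.dual c.2) then F.cap c.1 * F.cap c.2 else 0 := by
          by_cases h1 : d.1 = F.dual c.1
          · by_cases h2 : d.2 = F.dual c.2
            · rw [if_pos h1, if_pos h2, if_pos (Prod.ext h1 h2)]
              linear_combination (F.cap c.1 * F.cap c.2) * tt
            · rw [if_neg h2, mul_zero, if_neg fun hb => h2 (by rw [hb])]
          · rw [if_neg h1, zero_mul, if_neg fun hb => h1 (by rw [hb])]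
  · intro c d
    have e := sum1 (fun a => F.cap a * F.neg a (F.dual a) c.1 d.1)
      (fun a => F.cap a * F.pos a (F.dual a) c.2 d.2)
    rw [h.cap1p, h.cap1n] at e
    calc ∑ a : ι × ι, (prd F (bar F)).cap a * (prd F (bar F)).neg a ((prd F (bar F)).dual a) c d
        = ∑ a : ι × ι, (F.cap a.1 * F.neg a.1 (F.dual a.1) c.1 d.1) *
            (F.cap a.2 * F.pos a.2 (F.dual a.2) c.2 d.2) := by
          refine Finset.sum_congr rfl fun a _ => ?_
          show F.cap a.1 * F.cap a.2 * (F.neg a.1 (F.dual a.1) c.1 d.1 *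
            F.pos a.2 (F.dual a.2) c.2 d.2) = _
          ring
      _ = _ := e
      _ = if d = (F.dual c.1, F.dual c.2) then F.cap c.1 * F.cap c.2 else 0 := by
          by_cases h1 : d.1 = F.dual c.1
          · by_cases h2 : d.2 = F.dual c.2
            · rw [if_pos h1, if_pos h2, if_pos (Prod.ext h1 h2)]
              linear_combination (F.cap c.1 * F.cap c.2) * tt
            · rw [if_neg h2, mul_zero, if_neg fun hb => h2 (by rw [hb])]
          · rw [if_neg h1, zero_mul, if_neg fun hb => h1 (by rw [hb])]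
  · intro a b c d
    have e := sum2 (fun x y => F.neg a.1 b.1 x y * F.pos x y c.1 d.1)
      (fun x y => F.pos a.2 b.2 x y * F.neg x y c.2 d.2)
    rw [h.pn, h.np] at e
    calc ∑ x : ι × ι, ∑ y : ι × ι, (prd F (bar F)).neg a b x y * (prd F (bar F)).pos x y c d
        = ∑ x : ι × ι, ∑ y : ι × ι, (F.neg a.1 b.1 x.1 y.1 * F.pos x.1 y.1 c.1 d.1) *
            (F.pos a.2 b.2 x.2 y.2 * F.neg x.2 y.2 c.2 d.2) := by
          refine Finset.sum_congr rfl fun x _ => Finset.sum_congr rfl fun y _ => ?_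
          show F.neg a.1 b.1 x.1 y.1 * F.pos a.2 b.2 x.2 y.2 *
            (F.pos x.1 y.1 c.1 d.1 * F.neg x.2 y.2 c.2 d.2) = _
          ring
      _ = _ := e
      _ = if a = c ∧ b = d then 1 else 0 := by
          simp only [Prod.ext_iff]
          by_cases h1 : a.1 = c.1 ∧ b.1 = d.1
          · by_cases h2 : a.2 = c.2 ∧ b.2 = d.2
            · rw [if_pos h1, if_pos h2, if_pos ⟨⟨h1.1, h2.1⟩, ⟨h1.2, h2.2⟩⟩, one_mul]
            · rw [if_neg h2, mul_zero, if_neg fun hb => h2 ⟨hb.1.2, hb.2.2⟩]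
          · rw [if_neg h1, zero_mul, if_neg fun hb => h1 ⟨hb.1.1, hb.2.1⟩]
  · intro a b c d
    have e := sum2 (fun x y => F.pos a.1 b.1 x y * F.neg x y c.1 d.1)
      (fun x y => F.neg a.2 b.2 x y * F.pos x y c.2 d.2)
    rw [h.pn, h.np] at e
    calc ∑ x : ι × ι, ∑ y : ι × ι, (prd F (bar F)).pos a b x y * (prd F (bar F)).neg x y c d
        = ∑ x : ι × ι, ∑ y : ι × ι, (F.pos a.1 b.1 x.1 y.1 * F.neg x.1 y.1 c.1 d.1) *
            (F.neg a.2 b.2 x.2 y.2 * F.pos x.2 y.2 c.2 d.2) := by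
          refine Finset.sum_congr rfl fun x _ => Finset.sum_congr rfl fun y _ => ?_
          show F.pos a.1 b.1 x.1 y.1 * F.neg a.2 b.2 x.2 y.2 *
            (F.neg x.1 y.1 c.1 d.1 * F.pos x.2 y.2 c.2 d.2) = _
          ring
      _ = _ := e
      _ = if a = c ∧ b = d then 1 else 0 := by
          simp only [Prod.ext_iff]
          by_cases h1 : a.1 = c.1 ∧ b.1 = d.1
          · by_cases h2 : a.2 = c.2 ∧ b.2 = d.2
            · rw [if_pos h1, if_pos h2, if_pos ⟨⟨h1.1, h2.1⟩, ⟨h1.2, h2.2⟩⟩, one_mul]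
            · rw [if_neg h2, mul_zero, if_neg fun hb => h2 ⟨hb.1.2, hb.2.2⟩]
          · rw [if_neg h1, zero_mul, if_neg fun hb => h1 ⟨hb.1.1, hb.2.1⟩]
  · intro t₁ t₂ t₃ s₁ s₂ s₃
    have e1 := sum3
      (fun u v w => F.pos t₁.1 t₂.1 u v * F.pos v t₃.1 w s₃.1 * F.pos u w s₁.1 s₂.1)
      (fun u v w => F.neg t₁.2 t₂.2 u v * F.neg v t₃.2 w s₃.2 * F.neg u w s₁.2 s₂.2)
    have e2 := sum3
      (fun u v w => F.pos t₂.1 t₃.1 u v * F.pos t₁.1 u s₁.1 w * F.pos w v s₂.1 s₃.1)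
      (fun u v w => F.neg t₂.2 t₃.2 u v * F.neg t₁.2 u s₁.2 w * F.neg w v s₂.2 s₃.2)
    rw [h3, h3n] at e1
    have e3 := e1.trans e2.symm
    calc ∑ u : ι × ι, ∑ v : ι × ι, ∑ w : ι × ι, (prd F (bar F)).pos t₁ t₂ u v *
          (prd F (bar F)).pos v t₃ w s₃ * (prd F (bar F)).pos u w s₁ s₂
        = ∑ u : ι × ι, ∑ v : ι × ι, ∑ w : ι × ι,
          (F.pos t₁.1 t₂.1 u.1 v.1 * F.pos v.1 t₃.1 w.1 s₃.1 * F.pos u.1 w.1 s₁.1 s₂.1) *
          (F.neg t₁.2 t₂.2 u.2 v.2 * F.neg v.2 t₃.2 w.2 s₃.2 * F.neg u.2 w.2 s₁.2 s₂.2) := by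
          refine Finset.sum_congr rfl fun u _ => Finset.sum_congr rfl fun v _ =>
            Finset.sum_congr rfl fun w _ => ?_
          show F.pos t₁.1 t₂.1 u.1 v.1 * F.neg t₁.2 t₂.2 u.2 v.2 *
            (F.pos v.1 t₃.1 w.1 s₃.1 * F.neg v.2 t₃.2 w.2 s₃.2) *
            (F.pos u.1 w.1 s₁.1 s₂.1 * F.neg u.2 w.2 s₁.2 s₂.2) = _
          ring
      _ = _ := e3
      _ = _ := by
          refine Finset.sum_congr rfl fun u _ => Finset.sum_congr rfl fun v _ =>
            Finset.sum_congr rfl fun w _ => ?_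
          show _ = F.pos t₂.1 t₃.1 u.1 v.1 * F.neg t₂.2 t₃.2 u.2 v.2 *
            (F.pos t₁.1 u.1 s₁.1 w.1 * F.neg t₁.2 u.2 s₁.2 w.2) *
            (F.pos w.1 v.1 s₂.1 s₃.1 * F.neg w.2 v.2 s₂.2 s₃.2)
          ring
  · intro a b c x
    have e1 := h.rotp a.1 b.1 c.1 x.1
    have e2 := h.rotn a.2 b.2 c.2 x.2
    show F.cup (F.dual c.1) * F.cup (F.dual c.2) *
      (F.pos a.1 b.1 x.1 (F.dual c.1) * F.neg a.2 b.2 x.2 (F.dual c.2)) =
      F.cup a.1 * F.cup a.2 * (F.neg b.1 c.1 (F.dual a.1) x.1 * F.pos b.2 c.2 (F.dual a.2) x.2)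
    calc F.cup (F.dual c.1) * F.cup (F.dual c.2) *
        (F.pos a.1 b.1 x.1 (F.dual c.1) * F.neg a.2 b.2 x.2 (F.dual c.2))
        = (F.cup (F.dual c.1) * F.pos a.1 b.1 x.1 (F.dual c.1)) *
          (F.cup (F.dual c.2) * F.neg a.2 b.2 x.2 (F.dual c.2)) := by ring
      _ = _ := by rw [e1, e2]; ring
  · intro a b c x
    have e1 := h.rotn a.1 b.1 c.1 x.1
    have e2 := h.rotp a.2 b.2 c.2 x.2
    show F.cup (F.dual c.1) * F.cup (F.dual c.2) *
      (F.neg a.1 b.1 x.1 (F.dual c.1) * F.pos a.2 b.2 x.2 (F.dual c.2)) =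
      F.cup a.1 * F.cup a.2 * (F.pos b.1 c.1 (F.dual a.1) x.1 * F.neg b.2 c.2 (F.dual a.2) x.2)
    calc F.cup (F.dual c.1) * F.cup (F.dual c.2) *
        (F.neg a.1 b.1 x.1 (F.dual c.1) * F.pos a.2 b.2 x.2 (F.dual c.2))
        = (F.cup (F.dual c.1) * F.neg a.1 b.1 x.1 (F.dual c.1)) *
          (F.cup (F.dual c.2) * F.pos a.2 b.2 x.2 (F.dual c.2)) := by ring
      _ = _ := by rw [e1, e2]; ring

end Pool.Agent.KAF
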