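import Pool.Agent.KAF.Defs

/-!
# KAF module FB: the operator of a product of state sums

Write `(f ⊗ g) w = f (w.map Prod.fst) * g (w.map Prod.snd)`.
* `prd_sl`: induction on `k` generalizing `f`, `g`, `w`; for `k = 0` by the cases of the piece:
  `cup`: `b = dual a` is the conjunction of both equations; `cap`, `pos`, `neg`: the sums over
  `ι × κ` are products of sums (`Fintype.sum_prod_type`, `Finset.sum_mul_sum`).  In the step
  `(f ⊗ g) (x :: u) = ((fun v => f (x.1 :: v)) ⊗ (fun v => g (x.2 :: v))) u`.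
* `prd_RT`: induction on the diagram.
-/

namespace Pool.Agent.KAF

open Finset
open Pool.Agent.Helper9.Kashaev (Piece Diagram)
open Pool.Agent.EVT (FD)

variable {A ι κ : Type*} [CommRing A] [Fintype ι] [DecidableEq ι] [Fintype κ] [DecidableEq κ]

private theorem sum_sum_prod (g : ι → κ → ι → κ → A) :
    ∑ c : ι × κ, ∑ d : ι × κ, g c.1 c.2 d.1 d.2 =
      ∑ c, ∑ d, ∑ c', ∑ d', g c c' d d' := by
  calc ∑ c : ι × κ, ∑ d : ι × κ, g c.1 c.2 d.1 d.2
      = ∑ c, ∑ c', ∑ d : ι × κ, g c c' d.1 d.2 := Fintype.sum_prod_type _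
    _ = ∑ c, ∑ c', ∑ d, ∑ d', g c c' d d' :=
        sum_congr rfl fun c _ => sum_congr rfl fun c' _ => Fintype.sum_prod_type _
    _ = ∑ c, ∑ d, ∑ c', ∑ d', g c c' d d' := sum_congr rfl fun c _ => sum_comm

theorem prd_sl (F : FD A ι) (G : FD A κ) (p : Piece) (k : ℕ) (f : List ι → A) (g : List κ → A)
    (w : List (ι × κ)) :
    (prd F G).sl p k (fun u => f (u.map Prod.fst) * g (u.map Prod.snd)) w =
      F.sl p k f (w.map Prod.fst) * G.sl p k g (w.map Prod.snd) := by
  induction k generalizing f g w with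
  | zero =>
    cases p with
    | cup =>
      rcases w with _ | ⟨a, _ | ⟨b, w⟩⟩
      · simp [FD.sl, FD.pc]
      · simp [FD.sl, FD.pc]
      · simp only [FD.sl, FD.pc, List.map_cons, prd]
        by_cases h1 : b.1 = F.dual a.1
        · by_cases h2 : b.2 = G.dual a.2
          · rw [if_pos (Prod.ext h1 h2), if_pos h1, if_pos h2]
            ring
          · rw [if_neg (fun h => h2 (congrArg Prod.snd h)), if_neg h2, mul_zero]
        · rw [if_neg (fun h => h1 (congrArg Prod.fst h)), if_neg h1, zero_mul]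
    | cap =>
      simp only [FD.sl, FD.pc, List.map_cons, prd]
      rw [Fintype.sum_prod_type, sum_mul_sum]
      exact sum_congr rfl fun a _ => sum_congr rfl fun b _ => by ring
    | pos =>
      rcases w with _ | ⟨a, _ | ⟨b, w⟩⟩
      · simp [FD.sl, FD.pc]
      · simp [FD.sl, FD.pc]
      · simp only [FD.sl, FD.pc, List.map_cons, prd]
        rw [sum_mul_sum]
        refine (sum_sum_prod (fun c c' d d' => F.pos a.1 b.1 c d * G.pos a.2 b.2 c' d' *
          (f (c :: d :: w.map Prod.fst) * g (c' :: d' :: w.map Prod.snd)))).trans ?_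
        refine sum_congr rfl fun c _ => ?_
        rw [sum_comm]
        refine sum_congr rfl fun c' _ => ?_
        rw [sum_mul_sum]
        exact sum_congr rfl fun d _ => sum_congr rfl fun d' _ => by ring
    | neg =>
      rcases w with _ | ⟨a, _ | ⟨b, w⟩⟩
      · simp [FD.sl, FD.pc]
      · simp [FD.sl, FD.pc]
      · simp only [FD.sl, FD.pc, List.map_cons, prd]
        rw [sum_mul_sum]
        refine (sum_sum_prod (fun c c' d d' => F.neg a.1 b.1 c d * G.neg a.2 b.2 c' d' *
          (f (c :: d :: w.map Prod.fst) * g (c' :: d' :: w.map Prod.snd)))).trans ?_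
        refine sum_congr rfl fun c _ => ?_
        rw [sum_comm]
        refine sum_congr rfl fun c' _ => ?_
        rw [sum_mul_sum]
        exact sum_congr rfl fun d _ => sum_congr rfl fun d' _ => by ring
  | succ k ih =>
    rcases w with _ | ⟨x, w⟩
    · simp [FD.sl]
    · exact ih (fun u => f (x.1 :: u)) (fun u => g (x.2 :: u)) w

theorem prd_RT (F : FD A ι) (G : FD A κ) (D : Diagram) (f : List ι → A) (g : List κ → A)
    (w : List (ι × κ)) :
    (prd F G).RT D (fun u => f (u.map Prod.fst) * g (u.map Prod.snd)) w =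
      F.RT D f (w.map Prod.fst) * G.RT D g (w.map Prod.snd) := by
  induction D generalizing f g with
  | nil => rfl
  | cons t D ih =>
    have h1 : (prd F G).sl t.2 t.1 (fun u => f (u.map Prod.fst) * g (u.map Prod.snd)) =
        fun u => F.sl t.2 t.1 f (u.map Prod.fst) * G.sl t.2 t.1 g (u.map Prod.snd) :=
      funext fun u => prd_sl F G t.2 t.1 f g u
    change (prd F G).RT D
      ((prd F G).sl t.2 t.1 (fun u => f (u.map Prod.fst) * g (u.map Prod.snd))) w = _
    rw [h1]
    exact ih _ _

end Pool.Agent.KAF
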