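import Pool.Agent.KAF.Defs
import Pool.Agent.EVT.WI

/-!
# KAF module RA: simple facts on the data of quantum `so(2 n)`

All statements were checked exactly for `n ≤ 4`.
* `kf_dd`, `kf_zig`, `kf_tt`: `zp_add`, `zp_zero` (`EVT/WA.lean`).
* `zz_dK`: `dK n q = ∑ i, zp q (2 i + 2 - 2 n) + ∑ i, zp q (2 n - 2 - 2 i)` (`Fintype.sum_prod_type`,
  `Fintype.sum_bool`), and `zz q * zp q x = zp q (x + 1) - zp q (x - 1)` (`zz_mul`): both sums
  telescope (`Fin.sum_univ_eq_sum_range`, `Finset.sum_range_sub`).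
* `xk_skein`: parallel strands: from the definitions `xB`, `pB`, `nB`:
  `q ^ n * pB q i j k l - q ^ (-n) * nB q i j k l = zz q * (if i = k ∧ j = l then 1 else 0)` (cases
  `i = j`, `i < j`, `j < i`); antiparallel strands: the same with the arguments in another order, and
  `kap`, `kapi`.
* `kf_skein`: from `xk_skein` (16 cases of orientations).
-/

namespace Pool.Agent.KAF

open Finset
open Pool.Agent.EVT (FD zp zz xW)

variable {A : Type*} [CommRing A]

theorem kf_dd (n : ℕ) (q : Aˣ) (a : Bool × Fin n) : (KF n q).dual ((KF n q).dual a) = a := by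
  obtain ⟨a1, a2⟩ := a
  simp [KF]

theorem ra_zp_one {q : Aˣ} {x y : ℤ} (h : x + y = 0) : (zp q x : A) * zp q y = 1 := by
  rw [← EVT.zp_add, h, EVT.zp_zero]

theorem kf_zig (n : ℕ) (q : Aˣ) (a : Bool × Fin n) :
    (KF n q).cap ((KF n q).dual a) * (KF n q).cup a = 1 := by
  obtain ⟨a1, a2⟩ := a
  cases a1
  · simp [KF, cK, eK]
  · simp only [KF, cK, eK, Bool.not_true, Bool.false_eq_true, if_false, if_true]
    exact ra_zp_one (by ring)

theorem kf_tt (n : ℕ) (q : Aˣ) : zp q (1 - 2 * n) * zp q (2 * n - 1) = 1 :=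
  ra_zp_one (by ring)

theorem zz_dK (n : ℕ) (q : Aˣ) :
    zz q * dK n q = zz q + zp q (2 * n - 1) - zp q (1 - 2 * n) := by
  unfold dK
  rw [Fintype.sum_prod_type, Fintype.sum_bool]
  simp only [cK, eK, if_true, Bool.false_eq_true, if_false, one_mul, mul_one]
  rw [mul_add, Finset.mul_sum, Finset.mul_sum]
  have h1 : ∑ i : Fin n, zz q * zp q (2 * (i : ℤ) + 2 - 2 * n) = zp q 1 - zp q (1 - 2 * n) := by
    have h := Fin.sum_univ_eq_sum_range (fun i : ℕ => zz q * zp q (2 * (i : ℤ) + 2 - 2 * n)) n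
    rw [h]
    have e : ∀ i : ℕ, zz q * zp q (2 * (i : ℤ) + 2 - 2 * n) =
        zp q (2 * ((i + 1 : ℕ) : ℤ) + 1 - 2 * n) - zp q (2 * (i : ℤ) + 1 - 2 * n) := by
      intro i
      rw [EVT.zz_mul]
      congr 2
      · push_cast
        ring
      · ring
    rw [Finset.sum_congr rfl (fun i _ => e i),
      Finset.sum_range_sub (fun i : ℕ => (zp q (2 * (i : ℤ) + 1 - 2 * n) : A))]
    congr 2
    ring
  have h2 : ∑ i : Fin n, zz q * zp q (2 * n - 2 - 2 * (i : ℤ)) = zp q (2 * n - 1) - zp q (-1) := by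
    have h := Fin.sum_univ_eq_sum_range (fun i : ℕ => zz q * zp q (2 * n - 2 - 2 * (i : ℤ))) n
    rw [h]
    have e : ∀ i : ℕ, zz q * zp q (2 * n - 2 - 2 * (i : ℤ)) =
        zp q (2 * n - 1 - 2 * (i : ℤ)) - zp q (2 * n - 1 - 2 * ((i + 1 : ℕ) : ℤ)) := by
      intro i
      rw [EVT.zz_mul]
      congr 2
      · ring
      · push_cast
        ring
    rw [Finset.sum_congr rfl (fun i _ => e i),
      Finset.sum_range_sub' (fun i : ℕ => (zp q (2 * n - 1 - 2 * (i : ℤ)) : A))]
    congr 2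
    · push_cast
      ring
    · ring
  rw [h1, h2]
  unfold zz
  ring

/-- the skein relation for strands which go up -/
theorem ra_skB {n : ℕ} (q : Aˣ) (i j k l : Fin n) :
    zp q n * EVT.pB q i j k l - zp q (-n) * EVT.nB q i j k l =
      zz q * (if i = k ∧ j = l then 1 else 0) := by
  have e1 : (zp q (n : ℤ) : A) * zp q (-(n : ℤ)) = 1 := ra_zp_one (by ring)
  have e2 : (zp q (n : ℤ) : A) * zp q (1 - (n : ℤ)) = zp q 1 := by
    rw [← EVT.zp_add]
    congr 1
    ring
  have e3 : (zp q (-(n : ℤ)) : A) * zp q ((n : ℤ) - 1) = zp q (-1) := by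
    rw [← EVT.zp_add]
    congr 1
    ring
  unfold EVT.pB EVT.nB
  rcases lt_trichotomy i j with hij | hij | hij
  · have hne := hij.ne
    have hng := hij.not_gt
    simp only [if_neg hne, hij, hng, true_and, false_and, if_false, sub_zero]
    by_cases h : i = k ∧ j = l
    · obtain ⟨rfl, rfl⟩ := h
      simp [hne]
      linear_combination (zz q : A) * e1
    · have h' : ¬ (k = i ∧ l = j) := fun hh => h ⟨hh.1.symm, hh.2.symm⟩
      rw [if_neg h, if_neg h']
      ring_nf
  · subst hij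
    simp only [if_true]
    by_cases h : i = k ∧ i = l
    · obtain ⟨rfl, rfl⟩ := h
      simp only [and_self, if_true, mul_one]
      rw [e2, e3]
      rfl
    · have h' : ¬ (k = i ∧ l = i) := fun hh => h ⟨hh.1.symm, hh.2.symm⟩
      rw [if_neg h, if_neg h', if_neg h']
      ring
  · have hne := hij.ne'
    have hng := hij.not_gt
    simp only [if_neg hne, hij, hng, true_and, false_and, if_false, add_zero]
    by_cases h : i = k ∧ j = l
    · obtain ⟨rfl, rfl⟩ := h
      simp [hne]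
      linear_combination (zz q : A) * e1
    · have h' : ¬ (k = i ∧ l = j) := fun hh => h ⟨hh.1.symm, hh.2.symm⟩
      rw [if_neg h, if_neg h']
      ring_nf

theorem ra_kap {n : ℕ} (q : Aˣ) (i k : Fin n) :
    (EVT.kap q i : A) * EVT.kapi q k =
      zp q (2 * (i : ℤ) + 2 - 2 * n) * zp q (2 * n - 2 - 2 * (k : ℤ)) := by
  unfold EVT.kap EVT.kapi
  rw [← EVT.zp_add, ← EVT.zp_add]
  congr 1
  ring

/-- the skein relation of the framed crossings of `gl(n)` -/
theorem xk_skein (n : ℕ) (q : Aˣ) (a b c d : Bool × Fin n) :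
    xK q true a b c d - xK q false a b c d =
      if a.1 = b.1 then zz q * (if a = c ∧ b = d then 1 else 0)
      else -zz q * (if a.2 = b.2 ∧ c.2 = d.2 ∧ c.1 = !a.1 ∧ d.1 = a.1 then cK q a * eK q c else 0) := by
  obtain ⟨a1, a2⟩ := a
  obtain ⟨b1, b2⟩ := b
  obtain ⟨c1, c2⟩ := c
  obtain ⟨d1, d2⟩ := d
  cases a1 <;> cases b1 <;> cases c1 <;> cases d1 <;>
    simp [xK, xW, EVT.xB, cK, eK]
  · rw [ra_skB q d2 c2 b2 a2]
    by_cases h : a2 = c2 ∧ b2 = d2
    · rw [if_pos h, if_pos ⟨h.2.symm, h.1.symm⟩, mul_one]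
    · rw [if_neg h, if_neg (fun hh => h ⟨hh.2.symm, hh.1.symm⟩), mul_zero]
  · have h1 := ra_skB q b2 d2 a2 c2
    by_cases h : a2 = b2 ∧ c2 = d2
    · rw [if_pos ⟨h.1.symm, h.2.symm⟩] at h1
      rw [if_pos h]
      linear_combination -h1
    · rw [if_neg (fun hh => h ⟨hh.1.symm, hh.2.symm⟩)] at h1
      rw [if_neg h]
      linear_combination -h1
  · have h1 := ra_skB q c2 a2 d2 b2
    have h2 : (EVT.kap q b2 : A) * EVT.kapi q c2 = _ := ra_kap q b2 c2
    by_cases h : a2 = b2 ∧ c2 = d2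
    · rw [if_pos ⟨h.2, h.1⟩] at h1
      rw [if_pos h]
      obtain ⟨rfl, rfl⟩ := h
      linear_combination -(EVT.kap q a2 * EVT.kapi q c2 : A) * h1 - (zz q : A) * h2
    · rw [if_neg (fun hh => h ⟨hh.2, hh.1⟩)] at h1
      rw [if_neg h]
      linear_combination -(EVT.kap q b2 * EVT.kapi q c2 : A) * h1
  · rw [ra_skB q a2 b2 c2 d2, mul_ite, mul_one, mul_zero]

theorem kf_skein (n : ℕ) (q : Aˣ) (a b c d : Bool × Fin n) :
    (KF n q).pos a b c d - (KF n q).neg a b c d =
      zz q * (one a b c d - FE (KF n q) a b c d) := by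
  have hx := xk_skein n q a b c d
  have h0 : (KF n q).pos a b c d - (KF n q).neg a b c d =
      (xK q true a b c d - xK q false a b c d) + zz q * (tK q true a b c d + tK q false a b c d) := by
    simp only [KF]
    ring
  rw [h0, hx]
  obtain ⟨a1, a2⟩ := a
  obtain ⟨b1, b2⟩ := b
  obtain ⟨c1, c2⟩ := c
  obtain ⟨d1, d2⟩ := d
  cases a1 <;> cases b1 <;> cases c1 <;> cases d1 <;>
    simp [one, FE, KF, tK, @eq_comm _ b2 a2, @eq_comm _ d2 c2]
  all_goals
    by_cases h : a2 = b2 ∧ c2 = d2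
    · rw [if_pos h, if_pos h]
    · rw [if_neg h, if_neg h, neg_zero]

end Pool.Agent.KAF
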