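import Pool.Agent.KAF.Defs
import Pool.Agent.EVT.WI

/-!
# KAF module RB: rotation of the crossings

All statements were checked exactly for `n ≤ 4`.
* `xk_ty`: from `EVT.wf_ty` or the definition: a non-zero entry has `c.1 = b.1`, `d.1 = a.1`.
* `xk_rot`: for `n = N` the statement `wf_rot_aux` (`EVT/WB.lean`) is the same with `(WF n q).cup` in
  place of `cK q`.  If one side is non-zero then `a.1 = (dual c).1` (`xk_ty`), and `cK q a` is
  `(WF n q).cup a` times a factor which depends only on `a.1` (`zp q (1 - n)` if `a.1 = true`, else `1`).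
  The exponents of the framing also agree: `decide (a.1 = b.1)` is the negation of
  `decide (b.1 = c.1)`, as `c.1 = !(dual c).1 = !a.1`.
* `tk_rot`: both sides vanish unless `a.1 = x.1 = u`, `b.1 = c.1 = !u`; then an explicit computation
  (the two terms of `tK` are exchanged).
* `kf_rotp`, `kf_rotn`: sum of both.
-/

namespace Pool.Agent.KAF

open Finset
open Pool.Agent.EVT (FD zp zz xW)

variable {A : Type*} [CommRing A]

theorem xk_ty (n : ℕ) (q : Aˣ) (s : Bool) (a b c d : Bool × Fin n) (h : xK q s a b c d ≠ 0) :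
    c.1 = b.1 ∧ d.1 = a.1 := by
  have h1 := EVT.wf_ty n q s a b c d (right_ne_zero_of_mul h)
  exact ⟨h1.2.symm, h1.1.symm⟩

private theorem rb_zp (q : Aˣ) (x y : ℤ) : zp q x * zp q y = zp q (x + y) := by
  unfold zp
  rw [zpow_add, Units.val_mul]

private theorem rb_cK (n : ℕ) (q : Aˣ) (i : Fin n) :
    cK q (true, i) = zp q (1 - n) * EVT.kap q i := by
  have h1 : cK q (true, i) = zp q (2 * (i : ℤ) + 2 - 2 * n) := rfl
  rw [h1, EVT.kap, rb_zp]
  congr 1
  ring

private theorem rb_cK0 (n : ℕ) (q : Aˣ) (i : Fin n) : cK q (false, i) = 1 := rfl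

private theorem rb_zig (n : ℕ) (q : Aˣ) (u : Bool) (i : Fin n) :
    cK q (u, i) * eK q (!u, i) = 1 := by
  cases u
  · change (1 : A) * 1 = 1
    rw [one_mul]
  · change zp q (2 * (i : ℤ) + 2 - 2 * n) * zp q (2 * n - 2 - 2 * (i : ℤ)) = 1
    rw [rb_zp]
    have h1 : (2 * (i : ℤ) + 2 - 2 * n) + (2 * n - 2 - 2 * (i : ℤ)) = 0 := by ring
    rw [h1]
    simp [zp]

theorem xk_rot (n : ℕ) (q : Aˣ) (s : Bool) (a b c x : Bool × Fin n) :
    cK q ((KF n q).dual c) * xK q s a b x ((KF n q).dual c) =
      cK q a * xK q (!s) b c ((KF n q).dual a) x := by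
  obtain ⟨a0, a⟩ := a
  obtain ⟨b0, b⟩ := b
  obtain ⟨c0, c⟩ := c
  obtain ⟨x0, x⟩ := x
  have h := EVT.wf_rot_aux n q s (a0, a) (b0, b) (c0, c) (x0, x)
  change cK q (!c0, c) * xK q s (a0, a) (b0, b) (x0, x) (!c0, c) =
    cK q (a0, a) * xK q (!s) (b0, b) (c0, c) (!a0, a) (x0, x)
  unfold xK
  by_cases h1 : xW q s (a0, a) (b0, b) (x0, x) (!c0, c) = 0
  · rw [h1, mul_zero] at h
    have h2 : xW q (!s) (b0, b) (c0, c) (!a0, a) (x0, x) = 0 := by
      cases a0
      · simpa using h.symm
      · have h3 := EVT.kap_mul_kapi q a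
        have h4 : EVT.kap q a * xW q (!s) (b0, b) (c0, c) (!true, a) (x0, x) = 0 := by
          simpa using h.symm
        calc xW q (!s) (b0, b) (c0, c) (!true, a) (x0, x) =
            EVT.kapi q a * (EVT.kap q a * xW q (!s) (b0, b) (c0, c) (!true, a) (x0, x)) := by
              rw [← mul_assoc, mul_comm (EVT.kapi q a), h3, one_mul]
          _ = 0 := by rw [h4, mul_zero]
    rw [h1, h2, mul_zero, mul_zero, mul_zero, mul_zero]
  · obtain ⟨h2, h3⟩ := EVT.wf_ty n q s _ _ _ _ h1
    change a0 = !c0 at h2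
    change b0 = x0 at h3
    subst h2
    have h4 : (if s = decide ((!c0) = b0) then (n : ℤ) else -n) =
        if (!s) = decide (b0 = c0) then (n : ℤ) else -n := by
      cases s <;> cases b0 <;> cases c0 <;> rfl
    change cK q (!c0, c) * (zp q (if s = decide ((!c0) = b0) then (n : ℤ) else -n) * _) =
      cK q (!c0, a) * (zp q (if (!s) = decide (b0 = c0) then (n : ℤ) else -n) * _)
    rw [← h4]
    generalize zp q (if s = decide ((!c0) = b0) then (n : ℤ) else -n) = Z
    generalize xW q s (!c0, a) (b0, b) (x0, x) (!c0, c) = X at h ⊢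
    generalize xW q (!s) (b0, b) (c0, c) (!!c0, a) (x0, x) = Y at h ⊢
    cases c0
    · change (if (!false) = true then EVT.kap q c else 1) * X =
        (if (!false) = true then EVT.kap q a else 1) * Y at h
      change EVT.kap q c * X = EVT.kap q a * Y at h
      change cK q (true, c) * (Z * X) = cK q (true, a) * (Z * Y)
      rw [rb_cK, rb_cK]
      linear_combination (zp q (1 - n) * Z) * h
    · change (if (!true) = true then EVT.kap q c else 1) * X =
        (if (!true) = true then EVT.kap q a else 1) * Y at h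
      change 1 * X = 1 * Y at h
      change cK q (false, c) * (Z * X) = cK q (false, a) * (Z * Y)
      rw [rb_cK0, rb_cK0]
      linear_combination Z * h

theorem tk_rot (n : ℕ) (q : Aˣ) (u : Bool) (a b c x : Bool × Fin n) :
    cK q ((KF n q).dual c) * tK q u a b x ((KF n q).dual c) =
      -(cK q a * tK q (!u) b c ((KF n q).dual a) x) := by
  obtain ⟨a0, a⟩ := a
  obtain ⟨b0, b⟩ := b
  obtain ⟨c0, c⟩ := c
  obtain ⟨x0, x⟩ := x
  change cK q (!c0, c) * tK q u (a0, a) (b0, b) (x0, x) (!c0, c) =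
    -(cK q (a0, a) * tK q (!u) (b0, b) (c0, c) (!a0, a) (x0, x))
  unfold tK
  by_cases h : a0 = u ∧ b0 = !u ∧ x0 = u ∧ (!c0) = !u
  · rw [if_pos h]
    obtain ⟨h1, h2, h3, h4⟩ := h
    have h5 : c0 = u := by
      revert h4
      cases c0 <;> cases u <;> decide
    rw [if_pos (show b0 = !u ∧ c0 = !!u ∧ (!a0) = !u ∧ x0 = !!u from
      ⟨h2, by rw [h5, Bool.not_not], by rw [h1], by rw [h3, Bool.not_not]⟩)]
    subst h1 h2 h3 h5
    change cK q (!c0, c) * ((if a = x ∧ b = c then 1 else 0) -
      (if a = b ∧ x = c then cK q (c0, a) * eK q (c0, x) else 0)) =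
      -(cK q (c0, a) * ((if b = a ∧ c = x then 1 else 0) -
        (if b = c ∧ a = x then cK q (!c0, b) * eK q (!c0, a) else 0)))
    by_cases k1 : a = x ∧ b = c
    · rw [if_pos k1, if_pos (show b = c ∧ a = x from ⟨k1.2, k1.1⟩)]
      obtain ⟨k2, k3⟩ := k1
      subst k2 k3
      have z1 := rb_zig n q c0 a
      by_cases k4 : a = b
      · rw [if_pos ⟨k4, k4⟩, if_pos ⟨k4.symm, k4.symm⟩]
        subst k4
        have z2 := rb_zig n q (!c0) a
        rw [Bool.not_not] at z2
        linear_combination (-(cK q (c0, a))) * z2 - cK q (!c0, a) * z1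
      · rw [if_neg (fun h => k4 h.1), if_neg (fun h => k4 h.1.symm)]
        linear_combination (-(cK q (!c0, b))) * z1
    · rw [if_neg k1, if_neg (show ¬ (b = c ∧ a = x) from fun h => k1 ⟨h.2, h.1⟩)]
      by_cases k4 : a = b ∧ x = c
      · rw [if_pos k4, if_pos (show b = a ∧ c = x from ⟨k4.1.symm, k4.2.symm⟩)]
        obtain ⟨k5, k6⟩ := k4
        subst k5 k6
        have z2 := rb_zig n q (!c0) x
        rw [Bool.not_not] at z2
        linear_combination (-(cK q (c0, a))) * z2
      · rw [if_neg k4, if_neg (show ¬ (b = a ∧ c = x) from fun h => k4 ⟨h.1.symm, h.2.symm⟩)]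
        ring
  · rw [if_neg h, if_neg ?_]
    · ring
    · rintro ⟨h2, h5, h1, h3⟩
      apply h
      change b0 = !u at h2
      change c0 = !!u at h5
      change (!a0) = !u at h1
      change x0 = !!u at h3
      rw [Bool.not_not] at h5 h3
      refine ⟨?_, h2, h3, by rw [h5]⟩
      revert h1
      cases a0 <;> cases u <;> decide

theorem kf_rotp (n : ℕ) (q : Aˣ) (a b c x : Bool × Fin n) :
    (KF n q).cup ((KF n q).dual c) * (KF n q).pos a b x ((KF n q).dual c) =
      (KF n q).cup a * (KF n q).neg b c ((KF n q).dual a) x := by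
  have h1 := xk_rot n q true a b c x
  have h2 := tk_rot n q true a b c x
  change cK q ((KF n q).dual c) * (xK q true a b x ((KF n q).dual c) +
    zz q * tK q true a b x ((KF n q).dual c)) =
    cK q a * (xK q false b c ((KF n q).dual a) x - zz q * tK q false b c ((KF n q).dual a) x)
  rw [Bool.not_true] at h1 h2
  linear_combination h1 + zz q * h2

theorem kf_rotn (n : ℕ) (q : Aˣ) (a b c x : Bool × Fin n) :
    (KF n q).cup ((KF n q).dual c) * (KF n q).neg a b x ((KF n q).dual c) =
      (KF n q).cup a * (KF n q).pos b c ((KF n q).dual a) x := by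
  have h1 := xk_rot n q false a b c x
  have h2 := tk_rot n q false a b c x
  change cK q ((KF n q).dual c) * (xK q false a b x ((KF n q).dual c) -
    zz q * tK q false a b x ((KF n q).dual c)) =
    cK q a * (xK q true b c ((KF n q).dual a) x + zz q * tK q true b c ((KF n q).dual a) x)
  rw [Bool.not_false] at h1 h2
  linear_combination h1 - zz q * h2

end Pool.Agent.KAF
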