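import Pool.Agent.KAF.Defs
import Pool.Agent.EVT.WI

/-!
# KAF module RC: curls

All statements were checked exactly for `n ≤ 4`.  Write `b s i j k l` for `q ^ (± n) * xB q s i j k l`
(entries `q`, `1`, `± z` only; `+` for `s = true`).
* `xk_cup`: for `a = (true, i)`, `b = (false, j)`: the only terms are `c = (false, k)`, and they are
  `zp q (2 j - 2 k) * b (!s) k i j' ...`; see `sum_B1`, `sum_B2`, `tele_lt`, `tele_gt` in `EVT/WC.lean`
  for the telescoping sums `zz q * ∑ k < i, zp q (2 k) = zp q (2 i - 1) - zp q (-1)` etc.  (The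
  statements of `EVT/WC.lean` can be used directly: `sum_B1`, `sum_B2` are the sums
  `∑ k, xB ..` with weights `kap`, `kapi`, up to a power of `q` which depends on the orientation only.)
* `xk_cap`: the same for maxima.
* `tk_cup`: at `a.1 = u`, `b = dual a`: `cK q a - cK q a * ∑ c with c.1 = u, eK q c * cK q c`, and
  `zz q * ∑ i, zp q (2 i + 2 - 2 n) = zp q 1 - zp q (1 - 2 n)`, resp.
  `zz q * ∑ i, zp q (2 n - 2 - 2 i) = zp q (2 n - 1) - zp q (-1)`.
* `kf_cup1p` etc.: the sum, e.g. for `a.1 = true`: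
  `q⁻¹ + (z - (q - q ^ (1 - 2 n))) = q ^ (1 - 2 n)`.
-/

namespace Pool.Agent.KAF

open Finset
open Pool.Agent.EVT (FD zp zz xW)

variable {A : Type*} [CommRing A]

private theorem cK42 (n : ℕ) (q : Aˣ) (t : Fin n) :
    (cK q (true, t) : A) = zp q (1 - n) * EVT.kap q t := by
  unfold cK EVT.kap
  rw [← EVT.zp_add]
  simp only [if_true]
  congr 1
  ring

private theorem eK42 (n : ℕ) (q : Aˣ) (t : Fin n) :
    (eK q (false, t) : A) = zp q (n - 1) * EVT.kapi q t := by
  unfold eK EVT.kapi
  rw [← EVT.zp_add]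
  simp only [Bool.false_eq_true, if_false]
  congr 1
  ring

private theorem cKf42 (n : ℕ) (q : Aˣ) (t : Fin n) : (cK q (false, t) : A) = 1 := by
  simp [cK]

private theorem eKt42 (n : ℕ) (q : Aˣ) (t : Fin n) : (eK q (true, t) : A) = 1 := by
  simp [eK]

/-- the sum over a closed curve with fixed orientation -/
private theorem cir42 (n : ℕ) (q : Aˣ) (u : Bool) :
    zz q * (1 - ∑ t : Fin n, eK q (u, t) * cK q (u, t)) =
      (if u then zp q (1 - 2 * n) - zp q (-1) else zp q 1 - zp q (2 * n - 1) : A) := by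
  rw [mul_sub, mul_one, Finset.mul_sum]
  cases u
  · have e : ∀ t : Fin n, zz q * (eK q (false, t) * cK q (false, t)) =
        (fun k : ℕ => -(zp q (2 * n - 1 - 2 * (k : ℤ)) : A)) (t + 1) -
          (fun k : ℕ => -(zp q (2 * n - 1 - 2 * (k : ℤ)) : A)) t := by
      intro t
      rw [cKf42, mul_one]
      unfold eK
      simp only [Bool.false_eq_true, if_false]
      rw [EVT.zz_mul]
      push_cast
      rw [show (2 * (n : ℤ) - 1 - 2 * ((t : ℤ) + 1)) = 2 * n - 2 - 2 * (t : ℤ) - 1 by ring,
        show (2 * (n : ℤ) - 1 - 2 * (t : ℤ)) = 2 * n - 2 - 2 * (t : ℤ) + 1 by ring]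
      ring
    rw [Finset.sum_congr rfl fun t _ => e t]
    rw [Fin.sum_univ_eq_sum_range (fun t => (fun k : ℕ => -(zp q (2 * n - 1 - 2 * (k : ℤ)) : A)) (t + 1) -
          (fun k : ℕ => -(zp q (2 * n - 1 - 2 * (k : ℤ)) : A)) t) n,
      Finset.sum_range_sub (fun k : ℕ => -(zp q (2 * n - 1 - 2 * (k : ℤ)) : A))]
    simp only [Bool.false_eq_true, if_false]
    unfold zz
    push_cast
    rw [show (2 * (n : ℤ) - 1 - 2 * n) = -1 by ring,
      sub_zero]
    ring
  · have e : ∀ t : Fin n, zz q * (eK q (true, t) * cK q (true, t)) =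
        (fun k : ℕ => (zp q (2 * (k : ℤ) + 1 - 2 * n) : A)) (t + 1) -
          (fun k : ℕ => (zp q (2 * (k : ℤ) + 1 - 2 * n) : A)) t := by
      intro t
      rw [eKt42, one_mul]
      unfold cK
      simp only [if_true]
      rw [EVT.zz_mul]
      push_cast
      rw [show (2 * ((t : ℤ) + 1) + 1 - 2 * (n : ℤ)) = 2 * (t : ℤ) + 2 - 2 * n + 1 by ring,
        show (2 * (t : ℤ) + 1 - 2 * (n : ℤ)) = 2 * (t : ℤ) + 2 - 2 * n - 1 by ring]
    rw [Finset.sum_congr rfl fun t _ => e t]
    rw [Fin.sum_univ_eq_sum_range (fun t => (fun k : ℕ => (zp q (2 * (k : ℤ) + 1 - 2 * n) : A)) (t + 1) -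
          (fun k : ℕ => (zp q (2 * (k : ℤ) + 1 - 2 * n) : A)) t) n,
      Finset.sum_range_sub (fun k : ℕ => (zp q (2 * (k : ℤ) + 1 - 2 * n) : A))]
    simp only [if_true]
    unfold zz
    push_cast
    rw [show (2 * (n : ℤ) + 1 - 2 * n) = 1 by ring]
    ring

theorem xk_cup (n : ℕ) (q : Aˣ) (s : Bool) (a b : Bool × Fin n) :
    ∑ c, xK q s a b c ((KF n q).dual c) * cK q c =
      if b = (KF n q).dual a then kp n q s a.1 * cK q a else 0 := by
  obtain ⟨a0, a⟩ := a
  obtain ⟨b0, b⟩ := b
  change ∑ c : Bool × Fin n, xK q s (a0, a) (b0, b) c (!c.1, c.2) * cK q c =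
    if (b0, b) = (!a0, a) then kp n q s a0 * cK q (a0, a) else 0
  rw [Fintype.sum_prod_type, Fintype.sum_bool]
  unfold xK
  cases a0 <;> cases b0 <;>
    simp only [xW, Bool.not_true, Bool.not_false, mul_zero,
      zero_mul, Finset.sum_const_zero, Prod.mk.injEq, false_and, true_and, add_zero,
      zero_add, reduceCtorEq, if_false]
  · have e : ∀ t : Fin n, (zp q (if s = decide False then (n : ℤ) else -(n : ℤ)) : A) *
        EVT.xB q (!s) b t a t * cK q (true, t) =
        zp q (if s then -(n : ℤ) else n) * zp q (1 - n) * (EVT.xB q (!s) b t a t * EVT.kap q t) := by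
      intro t
      rw [cK42]
      cases s <;> simp <;> ring
    rw [Finset.sum_congr rfl fun t _ => e t, ← Finset.mul_sum, EVT.sum_B2, cKf42, mul_one]
    by_cases h : b = a
    · rw [if_pos h, if_pos h, mul_one, ← EVT.zp_add]
      unfold kp
      congr 1
      cases s <;> simp
      ring
    · rw [if_neg h, if_neg h, mul_zero]
  · have e : ∀ t : Fin n, (zp q (if s = decide False then (n : ℤ) else -(n : ℤ)) : A) *
        (EVT.kap q b * EVT.kapi q t * EVT.xB q (!s) t a t b) * cK q (false, t) =
        zp q (if s then -(n : ℤ) else n) * EVT.kap q b * (EVT.kapi q t * EVT.xB q (!s) t a t b) := by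
      intro t
      rw [cKf42]
      cases s <;> simp <;> ring
    rw [Finset.sum_congr rfl fun t _ => e t, ← Finset.mul_sum, EVT.sum_B1, cK42]
    by_cases h : b = a
    · rw [if_pos h.symm, if_pos h, mul_one, h]
      unfold kp EVT.kap
      rw [← EVT.zp_add, ← EVT.zp_add, ← EVT.zp_add]
      congr 1
      cases s <;> simp <;> ring
    · rw [if_neg h, if_neg (fun hh : _ = _ => h hh.symm), mul_zero]

theorem xk_cap (n : ℕ) (q : Aˣ) (s : Bool) (c d : Bool × Fin n) :
    ∑ a, eK q a * xK q s a ((KF n q).dual a) c d =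
      if d = (KF n q).dual c then kp n q s c.1 * eK q c else 0 := by
  obtain ⟨c0, c⟩ := c
  obtain ⟨d0, d⟩ := d
  change ∑ a : Bool × Fin n, eK q a * xK q s a (!a.1, a.2) (c0, c) (d0, d) =
    if (d0, d) = (!c0, c) then kp n q s c0 * eK q (c0, c) else 0
  rw [Fintype.sum_prod_type, Fintype.sum_bool]
  unfold xK
  cases c0 <;> cases d0 <;>
    simp only [xW, Bool.not_true, Bool.not_false, mul_zero,
      zero_mul, Finset.sum_const_zero, Prod.mk.injEq, false_and, true_and, add_zero,
      zero_add, reduceCtorEq, if_false]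
  · have e : ∀ t : Fin n, eK q (true, t) *
        ((zp q (if s = decide False then (n : ℤ) else -(n : ℤ)) : A) *
        (EVT.kap q t * EVT.kapi q c * EVT.xB q (!s) c t d t)) =
        zp q (if s then -(n : ℤ) else n) * EVT.kapi q c * (EVT.xB q (!s) c t d t * EVT.kap q t) := by
      intro t
      rw [eKt42]
      cases s <;> simp <;> ring
    rw [Finset.sum_congr rfl fun t _ => e t, ← Finset.mul_sum, EVT.sum_B2, eK42]
    by_cases h : d = c
    · rw [if_pos h.symm, if_pos h, mul_one]
      unfold kp EVT.kapi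
      rw [← EVT.zp_add, ← EVT.zp_add, ← EVT.zp_add]
      congr 1
      cases s <;> simp <;> ring
    · rw [if_neg h, if_neg (fun hh : _ = _ => h hh.symm), mul_zero]
  · have e : ∀ t : Fin n, eK q (false, t) *
        ((zp q (if s = decide False then (n : ℤ) else -(n : ℤ)) : A) *
        EVT.xB q (!s) t d t c) =
        zp q (if s then -(n : ℤ) else n) * zp q (n - 1) * (EVT.kapi q t * EVT.xB q (!s) t d t c) := by
      intro t
      rw [eK42]
      cases s <;> simp <;> ring
    rw [Finset.sum_congr rfl fun t _ => e t, ← Finset.mul_sum, EVT.sum_B1, eKt42, mul_one]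
    by_cases h : d = c
    · rw [if_pos h, if_pos h, mul_one, ← EVT.zp_add]
      unfold kp
      congr 1
      cases s <;> simp <;> ring
    · rw [if_neg h, if_neg h, mul_zero]

theorem tk_cup (n : ℕ) (q : Aˣ) (u : Bool) (a b : Bool × Fin n) :
    zz q * ∑ c, tK q u a b c ((KF n q).dual c) * cK q c =
      if b = (KF n q).dual a ∧ a.1 = u then
        (if u then zp q (1 - 2 * n) - zp q (-1) else zp q 1 - zp q (2 * n - 1)) * cK q a else 0 := by
  obtain ⟨a0, a⟩ := a
  obtain ⟨b0, b⟩ := b
  change zz q * ∑ c : Bool × Fin n, tK q u (a0, a) (b0, b) c (!c.1, c.2) * cK q c =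
    if (b0, b) = (!a0, a) ∧ a0 = u then _ else 0
  by_cases h : a0 = u ∧ b0 = !u
  · obtain ⟨h1, h2⟩ := h
    subst h1
    subst h2
    have e : ∀ c : Bool × Fin n, tK q a0 (a0, a) (!a0, b) c (!c.1, c.2) * cK q c =
        if c.1 = a0 then ((if a = c.2 ∧ b = c.2 then 1 else 0) -
          (if a = b then cK q (a0, a) * eK q c else 0)) * cK q c else 0 := by
      rintro ⟨c0, c⟩
      unfold tK
      by_cases hc : c0 = a0
      · subst hc
        simp
      · rw [if_neg (fun hh => hc hh.2.2.1), if_neg hc, zero_mul]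
    rw [Finset.sum_congr rfl fun c _ => e c, Fintype.sum_prod_type]
    rw [Finset.sum_eq_single a0]
    swap
    · intro c0 _ hc
      refine Finset.sum_eq_zero fun t _ => ?_
      rw [if_neg hc]
    swap
    · intro hn
      exact absurd (Finset.mem_univ _) hn
    simp only [if_true]
    by_cases hab : b = a
    · subst hab
      rw [if_pos ⟨rfl, trivial⟩, ← cir42]
      have e2 : ∀ t : Fin n, ((if b = t ∧ b = t then (1 : A) else 0) -
          (if b = b then cK q (a0, b) * eK q (a0, t) else 0)) * cK q (a0, t) =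
          (if b = t then cK q (a0, t) else 0) - cK q (a0, b) * (eK q (a0, t) * cK q (a0, t)) := by
        intro t
        rw [if_pos rfl]
        by_cases hbt : b = t
        · rw [if_pos ⟨hbt, hbt⟩, if_pos hbt]
          ring
        · rw [if_neg (fun hh => hbt hh.1), if_neg hbt]
          ring
      rw [Finset.sum_congr rfl fun t _ => e2 t, Finset.sum_sub_distrib, ← Finset.mul_sum,
        Finset.sum_ite_eq, if_pos (Finset.mem_univ _)]
      ring
    · rw [if_neg (fun hh => hab (Prod.mk_inj.1 hh.1).2)]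
      have e2 : ∀ t : Fin n, ((if a = t ∧ b = t then (1 : A) else 0) -
          (if a = b then cK q (a0, a) * eK q (a0, t) else 0)) * cK q (a0, t) = 0 := by
        intro t
        rw [if_neg (fun hh => hab (hh.2.trans hh.1.symm)), if_neg (fun hh => hab hh.symm)]
        ring
      rw [Finset.sum_congr rfl fun t _ => e2 t, Finset.sum_const_zero, mul_zero]
  · rw [if_neg]
    · rw [Finset.sum_eq_zero, mul_zero]
      rintro ⟨c0, c⟩ _
      unfold tK
      rw [if_neg (fun hh => h ⟨hh.1, hh.2.1⟩), zero_mul]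
    · rintro ⟨h1, h2⟩
      refine h ⟨h2, ?_⟩
      rw [← h2]
      exact (Prod.mk_inj.1 h1).1

theorem tk_cap (n : ℕ) (q : Aˣ) (u : Bool) (c d : Bool × Fin n) :
    zz q * ∑ a, eK q a * tK q u a ((KF n q).dual a) c d =
      if d = (KF n q).dual c ∧ c.1 = u then
        (if u then zp q (1 - 2 * n) - zp q (-1) else zp q 1 - zp q (2 * n - 1)) * eK q c else 0 := by
  obtain ⟨c0, c⟩ := c
  obtain ⟨d0, d⟩ := d
  change zz q * ∑ a : Bool × Fin n, eK q a * tK q u a (!a.1, a.2) (c0, c) (d0, d) =
    if (d0, d) = (!c0, c) ∧ c0 = u then _ else 0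
  by_cases h : c0 = u ∧ d0 = !u
  · obtain ⟨h1, h2⟩ := h
    subst h1
    subst h2
    have e : ∀ a : Bool × Fin n, eK q a * tK q c0 a (!a.1, a.2) (c0, c) (!c0, d) =
        if a.1 = c0 then eK q a * ((if a.2 = c ∧ a.2 = d then 1 else 0) -
          (if c = d then cK q a * eK q (c0, c) else 0)) else 0 := by
      rintro ⟨a0, a⟩
      unfold tK
      by_cases hc : a0 = c0
      · subst hc
        simp
      · rw [if_neg (fun hh => hc hh.1), if_neg hc, mul_zero]
    rw [Finset.sum_congr rfl fun c _ => e c, Fintype.sum_prod_type]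
    rw [Finset.sum_eq_single c0]
    swap
    · intro a0 _ hc
      refine Finset.sum_eq_zero fun t _ => ?_
      rw [if_neg hc]
    swap
    · intro hn
      exact absurd (Finset.mem_univ _) hn
    simp only [if_true]
    by_cases hcd : d = c
    · subst hcd
      rw [if_pos ⟨rfl, trivial⟩, ← cir42]
      have e2 : ∀ t : Fin n, eK q (c0, t) * ((if t = d ∧ t = d then (1 : A) else 0) -
          (if d = d then cK q (c0, t) * eK q (c0, d) else 0)) =
          (if t = d then eK q (c0, t) else 0) - eK q (c0, d) * (eK q (c0, t) * cK q (c0, t)) := by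
        intro t
        rw [if_pos rfl]
        by_cases hbt : t = d
        · rw [if_pos ⟨hbt, hbt⟩, if_pos hbt]
          ring
        · rw [if_neg (fun hh => hbt hh.1), if_neg hbt]
          ring
      rw [Finset.sum_congr rfl fun t _ => e2 t, Finset.sum_sub_distrib, ← Finset.mul_sum,
        Finset.sum_ite_eq', if_pos (Finset.mem_univ _)]
      ring
    · rw [if_neg (fun hh => hcd (Prod.mk_inj.1 hh.1).2)]
      have e2 : ∀ t : Fin n, eK q (c0, t) * ((if t = c ∧ t = d then (1 : A) else 0) -
          (if c = d then cK q (c0, t) * eK q (c0, c) else 0)) = 0 := by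
        intro t
        rw [if_neg (fun hh => hcd (hh.2.symm.trans hh.1)), if_neg (fun hh => hcd hh.symm)]
        ring
      rw [Finset.sum_congr rfl fun t _ => e2 t, Finset.sum_const_zero, mul_zero]
  · rw [if_neg]
    · rw [Finset.sum_eq_zero, mul_zero]
      rintro ⟨a0, a⟩ _
      unfold tK
      rw [if_neg (fun hh => h ⟨hh.2.2.1, hh.2.2.2⟩), mul_zero]
    · rintro ⟨h1, h2⟩
      refine h ⟨h2, ?_⟩
      rw [← h2]
      exact (Prod.mk_inj.1 h1).1

theorem kf_cup1p (n : ℕ) (q : Aˣ) (a b : Bool × Fin n) :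
    ∑ c, (KF n q).pos a b c ((KF n q).dual c) * (KF n q).cup c =
      if b = (KF n q).dual a then zp q (1 - 2 * n) * (KF n q).cup a else 0 := by
  have h1 := xk_cup n q true a b
  have h2 := tk_cup n q true a b
  have e : ∑ c, (KF n q).pos a b c ((KF n q).dual c) * (KF n q).cup c =
      ∑ c, xK q true a b c ((KF n q).dual c) * cK q c +
        zz q * ∑ c, tK q true a b c ((KF n q).dual c) * cK q c := by
    rw [Finset.mul_sum, ← Finset.sum_add_distrib]
    refine Finset.sum_congr rfl fun c _ => ?_
    change (xK q true a b c ((KF n q).dual c) + zz q * tK q true a b c ((KF n q).dual c)) *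
      cK q c = _
    ring
  rw [e, h1, h2]
  change _ = if b = (KF n q).dual a then zp q (1 - 2 * n) * cK q a else 0
  by_cases hb : b = (KF n q).dual a
  · rw [if_pos hb, if_pos hb]
    rcases ha : a.1 with _ | _
    · rw [if_neg (fun hh => by simp at hh)]
      simp [kp]
    · rw [if_pos ⟨hb, rfl⟩]
      simp only [kp, if_true]
      ring
  · rw [if_neg hb, if_neg hb, if_neg (fun hh => hb hh.1), add_zero]

theorem kf_cup1n (n : ℕ) (q : Aˣ) (a b : Bool × Fin n) :
    ∑ c, (KF n q).neg a b c ((KF n q).dual c) * (KF n q).cup c =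
      if b = (KF n q).dual a then zp q (2 * n - 1) * (KF n q).cup a else 0 := by
  have h1 := xk_cup n q false a b
  have h2 := tk_cup n q false a b
  have e : ∑ c, (KF n q).neg a b c ((KF n q).dual c) * (KF n q).cup c =
      ∑ c, xK q false a b c ((KF n q).dual c) * cK q c -
        zz q * ∑ c, tK q false a b c ((KF n q).dual c) * cK q c := by
    rw [Finset.mul_sum, ← Finset.sum_sub_distrib]
    refine Finset.sum_congr rfl fun c _ => ?_
    change (xK q false a b c ((KF n q).dual c) - zz q * tK q false a b c ((KF n q).dual c)) *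
      cK q c = _
    ring
  rw [e, h1, h2]
  change _ = if b = (KF n q).dual a then zp q (2 * n - 1) * cK q a else 0
  by_cases hb : b = (KF n q).dual a
  · rw [if_pos hb, if_pos hb]
    rcases ha : a.1 with _ | _
    · rw [if_pos ⟨hb, rfl⟩]
      simp only [kp, Bool.false_eq_true, if_false]
      ring
    · rw [if_neg (fun hh => by simp at hh)]
      simp [kp]
  · rw [if_neg hb, if_neg hb, if_neg (fun hh => hb hh.1), sub_zero]

theorem kf_cap1p (n : ℕ) (q : Aˣ) (c d : Bool × Fin n) :
    ∑ a, (KF n q).cap a * (KF n q).pos a ((KF n q).dual a) c d =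
      if d = (KF n q).dual c then zp q (1 - 2 * n) * (KF n q).cap c else 0 := by
  have h1 := xk_cap n q true c d
  have h2 := tk_cap n q true c d
  have e : ∑ a, (KF n q).cap a * (KF n q).pos a ((KF n q).dual a) c d =
      ∑ a, eK q a * xK q true a ((KF n q).dual a) c d +
        zz q * ∑ a, eK q a * tK q true a ((KF n q).dual a) c d := by
    rw [Finset.mul_sum, ← Finset.sum_add_distrib]
    refine Finset.sum_congr rfl fun a _ => ?_
    change eK q a * (xK q true a ((KF n q).dual a) c d +
      zz q * tK q true a ((KF n q).dual a) c d) = _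
    ring
  rw [e, h1, h2]
  change _ = if d = (KF n q).dual c then zp q (1 - 2 * n) * eK q c else 0
  by_cases hb : d = (KF n q).dual c
  · rw [if_pos hb, if_pos hb]
    rcases ha : c.1 with _ | _
    · rw [if_neg (fun hh => by simp at hh)]
      simp [kp]
    · rw [if_pos ⟨hb, rfl⟩]
      simp only [kp, if_true]
      ring
  · rw [if_neg hb, if_neg hb, if_neg (fun hh => hb hh.1), add_zero]

theorem kf_cap1n (n : ℕ) (q : Aˣ) (c d : Bool × Fin n) :
    ∑ a, (KF n q).cap a * (KF n q).neg a ((KF n q).dual a) c d =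
      if d = (KF n q).dual c then zp q (2 * n - 1) * (KF n q).cap c else 0 := by
  have h1 := xk_cap n q false c d
  have h2 := tk_cap n q false c d
  have e : ∑ a, (KF n q).cap a * (KF n q).neg a ((KF n q).dual a) c d =
      ∑ a, eK q a * xK q false a ((KF n q).dual a) c d -
        zz q * ∑ a, eK q a * tK q false a ((KF n q).dual a) c d := by
    rw [Finset.mul_sum, ← Finset.sum_sub_distrib]
    refine Finset.sum_congr rfl fun a _ => ?_
    change eK q a * (xK q false a ((KF n q).dual a) c d -
      zz q * tK q false a ((KF n q).dual a) c d) = _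
    ring
  rw [e, h1, h2]
  change _ = if d = (KF n q).dual c then zp q (2 * n - 1) * eK q c else 0
  by_cases hb : d = (KF n q).dual c
  · rw [if_pos hb, if_pos hb]
    rcases ha : c.1 with _ | _
    · rw [if_pos ⟨hb, rfl⟩]
      simp only [kp, Bool.false_eq_true, if_false]
      ring
    · rw [if_neg (fun hh => by simp at hh)]
      simp [kp]
  · rw [if_neg hb, if_neg hb, if_neg (fun hh => hb hh.1), sub_zero]

end Pool.Agent.KAF
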