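import Pool.Agent.KAF.RA
import Pool.Agent.KAF.RB
import Pool.Agent.KAF.RC

/-!
# KAF module RD: the crossings are inverse to each other

All statements were checked exactly for `n ≤ 4`.
* `xk_inv`: from `wf_pn`, `wf_np` (`EVT/WD.lean`): in `∑ x, ∑ y, xK q (!s) a b x y * xK q s x y c d` a
  non-zero term has `x.1 = b.1`, `y.1 = a.1` (`xk_ty`), so the exponents of the framing are opposite
  and the factors cancel (`zp_neg_mul`).
* `kf_inv` (both `pn` and `np`; `s = true` for `np`): expand the product of
  `xK q s + ε z tK q s` and `xK q (!s) - ε z tK q (!s)` (`ε = 1` for `s = true`, `-1` for `s = false`).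
  `∑ tK q s * tK q (!s) = 0` by orientations (the lower orientation of the first factor is
  `(s, !s)`, the upper one of the second `(!s, s)`).  The cross terms are
  `ε z ∑ tK q s a b x y * xK q (!s) x y c d - ε z ∑ xK q s a b x y * tK q (!s) x y c d`, and both live on
  `a.1 = s, b.1 = !s`, `c.1 = !s, d.1 = s`; with `tK = (1 - E)` on its block this is
  `ε z (xK q (!s) a b c d - xK q s a b c d) - ε z (cK a * ∑ eK x * xK q (!s) x (dual x) c d) +
  ε z (∑ xK q s a b x (dual x) * cK x) * eK c` where `E a b c d = cK a * eK c` if `b = dual a`,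
  `d = dual c`; use `xk_skein`, `xk_cap`, `xk_cup` (each factor `kp`): the sum is
  `z * E * (± z + kp s s - kp (!s) (!s)) = 0`.
-/

namespace Pool.Agent.KAF

open Finset
open Pool.Agent.EVT (FD zp zz xW)

variable {A : Type*} [CommRing A]

theorem zp_cancel (q : Aˣ) (e : ℤ) (w : A) (h : zp q e * w = 0) : w = 0 := by
  have h1 := EVT.zp_neg_mul q e
  calc w = zp q (-e) * zp q e * w := by rw [h1, one_mul]
    _ = zp q (-e) * (zp q e * w) := by ring
    _ = 0 := by rw [h, mul_zero]

theorem xk_inv (n : ℕ) (q : Aˣ) (s : Bool) (a b c d : Bool × Fin n) :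
    ∑ x, ∑ y, xK q (!s) a b x y * xK q s x y c d = if a = c ∧ b = d then 1 else 0 := by
  rw [← EVT.wf_r2_aux n q s a b c d]
  refine Finset.sum_congr rfl fun x _ => Finset.sum_congr rfl fun y _ => ?_
  by_cases h : xK q (!s) a b x y = 0
  · have h' : xW q (!s) a b x y = 0 := by
      unfold xK at h
      exact zp_cancel q _ _ h
    rw [h, h', zero_mul, zero_mul]
  · obtain ⟨h1, h2⟩ := xk_ty n q (!s) a b x y h
    unfold xK
    rw [h1, h2]
    have key : zp q (if (!s) = decide (a.1 = b.1) then (n : ℤ) else -n) *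
        zp q (if s = decide (b.1 = a.1) then (n : ℤ) else -n) = 1 := by
      have e1 := EVT.zp_neg_mul q (n : ℤ)
      have e2 : zp q (n : ℤ) * zp q (-(n : ℤ)) = 1 := by rw [mul_comm]; exact e1
      cases s <;> cases a.1 <;> cases b.1 <;> simp [e1, e2]
    linear_combination xW q (!s) a b x y * xW q s x y c d * key

/-- the sign of the correction -/
def sK (s : Bool) : A := if s then 1 else -1

/-- both crossings -/
def fK {n : ℕ} (q : Aˣ) (s : Bool) (a b c d : Bool × Fin n) : A :=
  xK q s a b c d + sK s * zz q * tK q s a b c d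

theorem tk_tk (n : ℕ) (q : Aˣ) (s : Bool) (a b c d x y : Bool × Fin n) :
    tK q (!s) a b x y * tK q s x y c d = 0 := by
  unfold tK
  by_cases h : a.1 = !s ∧ b.1 = !!s ∧ x.1 = !s ∧ y.1 = !!s
  · have h' : ¬ (x.1 = s ∧ y.1 = !s ∧ c.1 = s ∧ d.1 = !s) := by
      rintro ⟨h1, -⟩
      rw [h1] at h
      cases s <;> simp at h
    rw [if_neg h', mul_zero]
  · rw [if_neg h, zero_mul]

theorem tk_cross1 (n : ℕ) (q : Aˣ) (s : Bool) (a b c d : Bool × Fin n) :
    ∑ x, ∑ y, xK q (!s) a b x y * tK q s x y c d =
      if a.1 = (!s) ∧ b.1 = s ∧ c.1 = s ∧ d.1 = (!s) then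
        xK q (!s) a b c d - (if a.2 = b.2 ∧ c.2 = d.2 then kp n q (!s) (!s) * (cK q a * eK q c) else 0)
      else 0 := by
  by_cases h : a.1 = (!s) ∧ b.1 = s ∧ c.1 = s ∧ d.1 = (!s)
  · rw [if_pos h]
    obtain ⟨ha, hb, hc, hd⟩ := h
    have e : ∀ x y : Bool × Fin n, xK q (!s) a b x y * tK q s x y c d =
        (if y = d then (if x = c then xK q (!s) a b x y else 0) else 0) -
          (if y = (KF n q).dual x then (if c.2 = d.2 then xK q (!s) a b x y * cK q x * eK q c else 0)
            else 0) := by
      intro x y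
      by_cases hx : xK q (!s) a b x y = 0
      · simp [hx]
      · obtain ⟨h1, h2⟩ := xk_ty n q (!s) a b x y hx
        have hx1 : x.1 = s := h1.trans hb
        have hy1 : y.1 = !s := h2.trans ha
        unfold tK
        rw [if_pos ⟨hx1, hy1, hc, hd⟩]
        have p1 : (x.2 = c.2 ∧ y.2 = d.2) ↔ (y = d ∧ x = c) := by
          constructor
          · rintro ⟨u, v⟩
            exact ⟨Prod.ext (hy1.trans hd.symm) v, Prod.ext (hx1.trans hc.symm) u⟩
          · rintro ⟨u, v⟩
            exact ⟨congrArg _ v, congrArg _ u⟩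
        have p2 : (x.2 = y.2 ∧ c.2 = d.2) ↔ (y = (KF n q).dual x ∧ c.2 = d.2) := by
          constructor
          · rintro ⟨u, v⟩
            refine ⟨Prod.ext ?_ u.symm, v⟩
            change y.1 = !x.1
            rw [hx1, hy1]
          · rintro ⟨u, v⟩
            refine ⟨?_, v⟩
            rw [u]
            rfl
        rw [if_congr p1 rfl rfl, if_congr p2 rfl rfl, ite_and, ite_and]
        split_ifs <;> ring
    rw [Finset.sum_congr rfl (fun x _ => Finset.sum_congr rfl (fun y _ => e x y))]
    simp only [Finset.sum_sub_distrib, Finset.sum_ite_eq', Finset.mem_univ, if_true]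
    congr 1
    have hcup := xk_cup n q (!s) a b
    have e2 : ∑ x, (if c.2 = d.2 then xK q (!s) a b x ((KF n q).dual x) * cK q x * eK q c else 0) =
        if c.2 = d.2 then (∑ x, xK q (!s) a b x ((KF n q).dual x) * cK q x) * eK q c else 0 := by
      by_cases hcd : c.2 = d.2
      · simp only [if_pos hcd]
        rw [Finset.sum_mul]
      · simp only [if_neg hcd]
        exact Finset.sum_const_zero
    rw [e2, hcup]
    have p3 : b = (KF n q).dual a ↔ a.2 = b.2 := by
      constructor
      · intro u
        rw [u]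
        rfl
      · intro u
        refine Prod.ext ?_ u.symm
        change b.1 = !a.1
        rw [ha, hb, Bool.not_not]
    rw [if_congr p3 rfl rfl, ha, if_congr (and_comm (a := a.2 = b.2)) rfl rfl, ite_and]
    split_ifs <;> ring
  · rw [if_neg h]
    refine Finset.sum_eq_zero fun x _ => Finset.sum_eq_zero fun y _ => ?_
    by_cases hx : xK q (!s) a b x y = 0
    · rw [hx, zero_mul]
    · obtain ⟨h1, h2⟩ := xk_ty n q (!s) a b x y hx
      unfold tK
      rw [if_neg, mul_zero]
      rintro ⟨u1, u2, u3, u4⟩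
      exact h ⟨h2.symm.trans u2, h1.symm.trans u1, u3, u4⟩

theorem tk_cross2 (n : ℕ) (q : Aˣ) (s : Bool) (a b c d : Bool × Fin n) :
    ∑ x, ∑ y, tK q (!s) a b x y * xK q s x y c d =
      if a.1 = (!s) ∧ b.1 = s ∧ c.1 = s ∧ d.1 = (!s) then
        xK q s a b c d - (if a.2 = b.2 ∧ c.2 = d.2 then kp n q s s * (cK q a * eK q c) else 0)
      else 0 := by
  by_cases h : a.1 = (!s) ∧ b.1 = s ∧ c.1 = s ∧ d.1 = (!s)
  · rw [if_pos h]
    obtain ⟨ha, hb, hc, hd⟩ := h
    have e : ∀ x y : Bool × Fin n, tK q (!s) a b x y * xK q s x y c d =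
        (if y = b then (if x = a then xK q s x y c d else 0) else 0) -
          (if y = (KF n q).dual x then (if a.2 = b.2 then cK q a * (eK q x * xK q s x y c d) else 0)
            else 0) := by
      intro x y
      by_cases hx : xK q s x y c d = 0
      · simp [hx]
      · obtain ⟨h1, h2⟩ := xk_ty n q s x y c d hx
        have hx1 : x.1 = !s := h2.symm.trans hd
        have hy1 : y.1 = s := h1.symm.trans hc
        unfold tK
        rw [if_pos ⟨ha, by rw [Bool.not_not]; exact hb, hx1, by rw [Bool.not_not]; exact hy1⟩]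
        have p1 : (a.2 = x.2 ∧ b.2 = y.2) ↔ (y = b ∧ x = a) := by
          constructor
          · rintro ⟨u, v⟩
            exact ⟨Prod.ext (hy1.trans hb.symm) v.symm, Prod.ext (hx1.trans ha.symm) u.symm⟩
          · rintro ⟨u, v⟩
            exact ⟨(congrArg _ v).symm, (congrArg _ u).symm⟩
        have p2 : (a.2 = b.2 ∧ x.2 = y.2) ↔ (y = (KF n q).dual x ∧ a.2 = b.2) := by
          constructor
          · rintro ⟨u, v⟩
            refine ⟨Prod.ext ?_ v.symm, u⟩
            change y.1 = !x.1
            rw [hx1, hy1, Bool.not_not]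
          · rintro ⟨u, v⟩
            refine ⟨v, ?_⟩
            rw [u]
            rfl
        rw [if_congr p1 rfl rfl, if_congr p2 rfl rfl, ite_and, ite_and]
        split_ifs <;> ring
    rw [Finset.sum_congr rfl (fun x _ => Finset.sum_congr rfl (fun y _ => e x y))]
    simp only [Finset.sum_sub_distrib, Finset.sum_ite_eq', Finset.mem_univ, if_true]
    congr 1
    have hcap := xk_cap n q s c d
    have e2 : ∑ x, (if a.2 = b.2 then cK q a * (eK q x * xK q s x ((KF n q).dual x) c d) else 0) =
        if a.2 = b.2 then cK q a * (∑ x, eK q x * xK q s x ((KF n q).dual x) c d) else 0 := by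
      by_cases hcd : a.2 = b.2
      · simp only [if_pos hcd]
        rw [Finset.mul_sum]
      · simp only [if_neg hcd]
        exact Finset.sum_const_zero
    rw [e2, hcap]
    have p3 : d = (KF n q).dual c ↔ c.2 = d.2 := by
      constructor
      · intro u
        rw [u]
        rfl
      · intro u
        refine Prod.ext ?_ u.symm
        change d.1 = !c.1
        rw [hc, hd]
    rw [if_congr p3 rfl rfl, hc, ite_and]
    split_ifs <;> ring
  · rw [if_neg h]
    refine Finset.sum_eq_zero fun x _ => Finset.sum_eq_zero fun y _ => ?_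
    by_cases hx : xK q s x y c d = 0
    · rw [hx, mul_zero]
    · obtain ⟨h1, h2⟩ := xk_ty n q s x y c d hx
      unfold tK
      rw [if_neg, zero_mul]
      rintro ⟨u1, u2, u3, u4⟩
      rw [Bool.not_not] at u2 u4
      exact h ⟨u1, u2, h1.trans u4, h2.trans u3⟩

theorem fk_inv (n : ℕ) (q : Aˣ) (s : Bool) (a b c d : Bool × Fin n) :
    ∑ x, ∑ y, fK q (!s) a b x y * fK q s x y c d = if a = c ∧ b = d then 1 else 0 := by
  have e : ∀ x y : Bool × Fin n, fK q (!s) a b x y * fK q s x y c d =
      xK q (!s) a b x y * xK q s x y c d +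
        sK s * zz q * (xK q (!s) a b x y * tK q s x y c d) +
        sK (!s) * zz q * (tK q (!s) a b x y * xK q s x y c d) := by
    intro x y
    have h := tk_tk n q s a b c d x y
    unfold fK
    linear_combination sK (!s) * sK s * zz q * zz q * h
  rw [Finset.sum_congr rfl (fun x _ => Finset.sum_congr rfl (fun y _ => e x y))]
  simp only [Finset.sum_add_distrib, ← Finset.mul_sum]
  rw [xk_inv, tk_cross1, tk_cross2]
  have hsk := xk_skein n q a b c d
  by_cases h : a.1 = (!s) ∧ b.1 = s ∧ c.1 = s ∧ d.1 = (!s)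
  · rw [if_pos h, if_pos h]
    obtain ⟨ha, hb, hc, hd⟩ := h
    have hne : ¬ (a.1 = b.1) := by
      rw [ha, hb]
      cases s <;> simp
    rw [if_neg hne] at hsk
    have p : (a.2 = b.2 ∧ c.2 = d.2 ∧ c.1 = !a.1 ∧ d.1 = a.1) ↔ (a.2 = b.2 ∧ c.2 = d.2) := by
      constructor
      · rintro ⟨u, v, -⟩
        exact ⟨u, v⟩
      · rintro ⟨u, v⟩
        refine ⟨u, v, ?_, ?_⟩
        · rw [hc, ha, Bool.not_not]
        · rw [hd, ha]
    rw [if_congr p rfl rfl] at hsk
    have hz : zz q = zp q 1 - zp q (-1) := rfl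
    by_cases hE : a.2 = b.2 ∧ c.2 = d.2
    · simp only [if_pos hE] at hsk ⊢
      cases s
      · simp only [sK, kp, Bool.not_false, if_true, Bool.false_eq_true, if_false]
        linear_combination (-zz q) * hsk + zz q * (cK q a * eK q c) * hz
      · simp only [sK, kp, Bool.not_true, if_true, Bool.false_eq_true, if_false]
        linear_combination (-zz q) * hsk + zz q * (cK q a * eK q c) * hz
    · simp only [if_neg hE] at hsk ⊢
      cases s
      · simp only [sK, Bool.not_false, if_true, Bool.false_eq_true, if_false]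
        linear_combination (-zz q) * hsk
      · simp only [sK, Bool.not_true, if_true, Bool.false_eq_true, if_false]
        linear_combination (-zz q) * hsk
  · rw [if_neg h, if_neg h]
    ring

theorem fk_pos (n : ℕ) (q : Aˣ) (a b c d : Bool × Fin n) :
    (KF n q).pos a b c d = fK q true a b c d := by
  change xK q true a b c d + zz q * tK q true a b c d = fK q true a b c d
  simp only [fK, sK, if_true]
  ring

theorem fk_neg (n : ℕ) (q : Aˣ) (a b c d : Bool × Fin n) :
    (KF n q).neg a b c d = fK q false a b c d := by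
  change xK q false a b c d - zz q * tK q false a b c d = fK q false a b c d
  simp only [fK, sK, Bool.false_eq_true, if_false]
  ring

theorem kf_pn (n : ℕ) (q : Aˣ) (a b c d : Bool × Fin n) :
    ∑ x, ∑ y, (KF n q).neg a b x y * (KF n q).pos x y c d = if a = c ∧ b = d then 1 else 0 := by
  simp only [fk_pos, fk_neg]
  exact fk_inv n q true a b c d

theorem kf_np (n : ℕ) (q : Aˣ) (a b c d : Bool × Fin n) :
    ∑ x, ∑ y, (KF n q).pos a b x y * (KF n q).neg x y c d = if a = c ∧ b = d then 1 else 0 := by
  simp only [fk_pos, fk_neg]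
  exact fk_inv n q false a b c d

/-- all relations except the third Reidemeister move -/
theorem kf_kf (n : ℕ) (q : Aˣ) :
    Kf (KF n q) (zz q) (dK n q) (zp q (1 - 2 * n)) (zp q (2 * n - 1)) where
  dd := kf_dd n q
  zig := kf_zig n q
  loop := rfl
  tt := kf_tt n q
  skein := kf_skein n q
  cup1p := kf_cup1p n q
  cup1n := kf_cup1n n q
  cap1p := kf_cap1p n q
  cap1n := kf_cap1n n q
  pn := kf_pn n q
  np := kf_np n q
  rotp := kf_rotp n q
  rotn := kf_rotn n q

end Pool.Agent.KAF
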