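import Pool.Agent.KAF.RD
import Pool.Agent.KAF.RE

/-!
# KAF module RF: the third Reidemeister move

The statements were checked exactly for `n ≤ 4`.

* `xk_r3`: from `wf_r3` (`EVT/WH.lean`).  A non-zero term of either side has fixed orientations of all
  six ends and of the inner strands (`xk_ty`), so the total exponent of the framing is the same for
  both sides: it is the sum of `± n` over the three pairs of strands (`+` if they are parallel).
* `kf_r3`.  By `r3_iff` an identity of matrices.  Write `X₁ = LM (xK q true)`, `X₂ = RM (xK q true)`,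
  `Y₁`, `Y₂` the same for `xK q false`, `E₁ = LM (FE (KF n q))`, `E₂ = RM (FE (KF n q))`,
  `z = zz q`, `π_{uvw} = PM A Prod.fst u v w`, `T₁ = LM (tK q true) = π_{UD*} (1 - E₁) π_{UD*}`,
  `T₂ = RM (tK q true) = π_{*UD} (1 - E₂) π_{*UD}` (`*` stands for the sum over both types).  Then
  `(X₁ + z T₁)(X₂ + z T₂)(X₁ + z T₁) - (X₂ + z T₂)(X₁ + z T₁)(X₂ + z T₂)` expands; `T₁ T₂ = T₂ T₁ = 0`
  by types, so it is enough to show
  - (0) `X₁ X₂ X₁ = X₂ X₁ X₂`: `xk_r3`;
  - (i) `X₁ X₂ T₁ = T₂ X₁ X₂` and (ii) `T₁ X₂ X₁ = X₂ X₁ T₂`: types and
    `X₁ X₂ E₁ = E₂ E₁ = E₂ X₁ X₂`, as `X₂ E₁ = Y₁ E₂ E₁` (`bend1`) and `E₂ X₁ = E₂ E₁ Y₂` (`bend4`),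
    `X₁ Y₁ = 1`, `Y₂ X₂ = 1`; the same for (ii): `E₁ X₂ X₁ = E₁ E₂ = X₂ X₁ E₂`;
  - (iii) `X₁ T₂ X₁ + z T₁ X₂ T₁ = X₂ T₁ X₂ + z T₂ X₁ T₂`.
  For (iii) multiply by `π` on both sides.  Only the types `UUD` and `UDD` (the same type on both sides)
  give anything.  On `UUD` the term `T₁ X₂ T₁` vanishes, and one needs
  `X₁ (1 - E₂) X₁ = X₂ (1 - E₁) X₂ + z (1 - E₂) X₁ (1 - E₂)` there.  Facts on `UUD`:
  `X₁ X₁ = 1 + z X₁` (skein `X₁ - Y₁ = z` on parallel strands, `X₁ Y₁ = 1`),
  `X₂ X₂ = 1 - z q⁻¹ E₂` (`X₂ - Y₂ = - z E₂` on the block `DU → UD`, `X₂ Y₂ = 1`, and the curl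
  `X₂ E₂ = q⁻¹ E₂` there: `xk_cup`, `kp`), `E₂ X₁ E₂ = q E₂` (use `E₂ X₁ E₂ = E₂ E₁ Y₂ E₂` by `bend4`,
  the curl `Y₂ E₂ = q E₂` on the block which goes to `DU`, and `EER`), and
  `Y₁ E₂ Y₁ = X₂ E₁ X₂`: `Y₁ E₂ Y₁ = Y₁ E₂ E₁ E₂ Y₁`, `Y₁ E₂ E₁ = X₂ E₁`, `E₁ E₂ Y₁ = E₁ X₂`
  (`bend1`, `bend3`, `EEL`, `EER`; first `E₂ = E₂ E₁ E₂ = E₂ E₁ E₁`-free form: `Y₁ E₂ Y₁ =`
  `Y₁ E₂ E₁ E₂ Y₁` and `E₁ = E₁ E₂ E₁`, so it is `(Y₁ E₂ E₁) (E₂ E₁ ...)`; write
  `Y₁ E₂ Y₁ = (Y₁ E₂ E₁) E₂ (E₁ E₂ Y₁) = X₂ E₁ E₂ E₁ X₂ = X₂ E₁ X₂`, using `E₂ = E₂ E₁ E₂ E₁ E₂`).
  With `Y₁ = X₁ - z` on `UU` the last one is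
  `X₁ E₂ X₁ = X₂ E₁ X₂ + z (E₂ X₁ + X₁ E₂) - z² E₂`, and (iii) follows.
  On `UDD` the same with the roles of the strands exchanged (the strands 2, 3 are parallel there).
  A direct proof with entries instead of matrices is of course also possible.
-/

namespace Pool.Agent.KAF

open Finset
open Pool.Agent.EVT (FD zp zz xW)

variable {A : Type*} [CommRing A]

theorem xk_r3 (n : ℕ) (q : Aˣ) : R3 (fun a b c d : Bool × Fin n => xK q true a b c d) := by
  intro t₁ t₂ t₃ s₁ s₂ s₃
  have h := EVT.wf_r3 n q t₁ t₂ t₃ s₁ s₂ s₃
  have h' : ∑ u, ∑ v, ∑ w, xW q true t₁ t₂ u v * xW q true v t₃ w s₃ * xW q true u w s₁ s₂ =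
      ∑ u, ∑ v, ∑ w, xW q true t₂ t₃ u v * xW q true t₁ u s₁ w * xW q true w v s₂ s₃ := h
  let e : Bool → Bool → A := fun x y => zp q (if true = decide (x = y) then (n : ℤ) else -n)
  have e0 : ∀ a b c d : Bool × Fin n, xK q true a b c d = e a.1 b.1 * xW q true a b c d :=
    fun a b c d => rfl
  have l : ∀ u v w : Bool × Fin n,
      xK q true t₁ t₂ u v * xK q true v t₃ w s₃ * xK q true u w s₁ s₂ =
        e t₁.1 t₂.1 * e t₁.1 t₃.1 * e t₂.1 t₃.1 *
          (xW q true t₁ t₂ u v * xW q true v t₃ w s₃ * xW q true u w s₁ s₂) := by
    intro u v w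
    rw [e0, e0, e0]
    by_cases h1 : xW q true t₁ t₂ u v = 0
    · rw [h1]
      ring
    · obtain ⟨p1, p2⟩ := EVT.wf_ty n q true _ _ _ _ h1
      by_cases h2 : xW q true v t₃ w s₃ = 0
      · rw [h2]
        ring
      · obtain ⟨p3, p4⟩ := EVT.wf_ty n q true _ _ _ _ h2
        rw [← p1, ← p2, ← p4]
        ring
  have r : ∀ u v w : Bool × Fin n,
      xK q true t₂ t₃ u v * xK q true t₁ u s₁ w * xK q true w v s₂ s₃ =
        e t₁.1 t₂.1 * e t₁.1 t₃.1 * e t₂.1 t₃.1 *
          (xW q true t₂ t₃ u v * xW q true t₁ u s₁ w * xW q true w v s₂ s₃) := by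
    intro u v w
    rw [e0, e0, e0]
    by_cases h1 : xW q true t₂ t₃ u v = 0
    · rw [h1]
      ring
    · obtain ⟨p1, p2⟩ := EVT.wf_ty n q true _ _ _ _ h1
      by_cases h2 : xW q true t₁ u s₁ w = 0
      · rw [h2]
        ring
      · obtain ⟨p3, p4⟩ := EVT.wf_ty n q true _ _ _ _ h2
        rw [← p1, ← p2, ← p3]
        ring
  simp only [l, r, ← Finset.mul_sum]
  rw [h']

section alg

variable {R : Type*} [Ring R] [Algebra A R]

private theorem rf_alg (z q q' : A) (hz : z = q - q') {X1 X2 E1 E2 p : R}
    (hp : p * p = p) (hc : p * X1 = X1 * p)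
    (h1 : p * X1 * X1 * p = p + z • (p * X1 * p))
    (h2 : p * X2 * X2 * p = p - (z * q') • (p * E2 * p))
    (h3 : p * X2 * E1 * X2 * p = p * X1 * E2 * X1 * p - z • (p * E2 * X1 * p) -
      z • (p * X1 * E2 * p) + (z * z) • (p * E2 * p))
    (h4 : p * E2 * p * X1 * E2 * p = q • (p * E2 * p)) :
    p * X1 * (1 - E2) * X1 * p =
      p * X2 * (1 - E1) * X2 * p + z • (p * (1 - E2) * p * X1 * (p * (1 - E2) * p)) := by
  have k1 : p * X1 * p * E2 * p = p * X1 * E2 * p := by
    rw [hc, mul_assoc X1 p p, hp]
  have k2 : p * E2 * p * X1 * p = p * E2 * X1 * p := by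
    rw [mul_assoc (p * E2) p X1, hc, ← mul_assoc, mul_assoc (p * E2 * X1) p p, hp]
  have k3 : p * E2 * p * X1 * p * E2 * p = q • (p * E2 * p) := by
    rw [← h4]
    congr 2
    rw [mul_assoc (p * E2) p X1, hc, ← mul_assoc, mul_assoc (p * E2 * X1) p p, hp]
  have e1 : p * X1 * (1 - E2) * X1 * p = p * X1 * X1 * p - p * X1 * E2 * X1 * p := by
    noncomm_ring
  have e2 : p * X2 * (1 - E1) * X2 * p = p * X2 * X2 * p - p * X2 * E1 * X2 * p := by
    noncomm_ring
  have e3 : p * (1 - E2) * p * X1 * (p * (1 - E2) * p) =
      p * p * X1 * (p * p) - p * p * X1 * (p * E2 * p) - p * E2 * p * X1 * (p * p) +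
        p * E2 * p * X1 * (p * E2 * p) := by
    noncomm_ring
  have e4 : p * (1 - E2) * p * X1 * (p * (1 - E2) * p) =
      p * X1 * p - p * X1 * E2 * p - p * E2 * X1 * p + q • (p * E2 * p) := by
    rw [e3, hp, ← k3, ← k2, ← k1]
    noncomm_ring
  rw [e1, e2, e4, h1, h2, h3, hz]
  module

/-- the third relation on one word of orientations -/
private theorem rf_sector (z q q' : A) (hz : z = q - q') {X1 X2 Y1 Y2 E1 E2 p r : R}
    (i1 : X1 * Y1 = 1) (i2 : X2 * Y2 = 1)
    (el : E1 * E2 * E1 = E1) (er : E2 * E1 * E2 = E2)
    (b1 : X2 * E1 = Y1 * E2 * E1) (b3 : E1 * X2 = E1 * E2 * Y1) (b4 : E2 * X1 = E2 * E1 * Y2)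
    (hp : p * p = p) (hx : p * X1 = X1 * p) (hy : p * Y1 = Y1 * p)
    (sk : X1 * p = Y1 * p + z • p)
    (x2 : p * X2 = X2 * r) (x2' : X2 * p = r * X2) (y2 : Y2 * p = r * Y2) (hr : r * r = r)
    (sk2 : r * X2 * p = r * Y2 * p - z • (r * E2 * p))
    (cu : p * X2 * E2 = q' • (p * E2))
    (a4 : p * E2 * X1 * E2 * p = p * E2 * p * X1 * E2 * p)
    (b5 : p * E2 * E1 * Y2 * E2 * p = q • (p * E2 * E1 * E2 * p)) :
    p * X1 * (1 - E2) * X1 * p =
      p * X2 * (1 - E1) * X2 * p + z • (p * (1 - E2) * p * X1 * (p * (1 - E2) * p)) := by
  have sk' : p * Y1 = p * X1 - z • p := by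
    rw [hx, hy, sk]
    module
  have sk'' : Y1 * p = X1 * p - z • p := by
    rw [sk]
    module
  refine rf_alg z q q' hz hp hx ?_ ?_ ?_ ?_
  · have h : p * X1 * X1 * p = p * X1 * (X1 * p) := by noncomm_ring
    rw [h, sk, mul_add, ← mul_assoc, mul_assoc p X1 Y1, i1, mul_one, hp, mul_smul_comm]
  · have t0 : p * X2 * r = p * X2 := by
      rw [x2, mul_assoc, hr]
    have h : p * X2 * X2 * p = p * X2 * (r * X2 * p) := by
      calc p * X2 * X2 * p = p * X2 * r * X2 * p := by rw [t0]
        _ = p * X2 * (r * X2 * p) := by noncomm_ring
    have h' : p * X2 * (r * Y2 * p) = p := by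
      have t1 : r * Y2 * p = Y2 * p := by
        rw [mul_assoc, y2, ← mul_assoc, hr]
      rw [t1, ← mul_assoc, mul_assoc p X2 Y2, i2, mul_one, hp]
    have h'' : p * X2 * (r * E2 * p) = q' • (p * E2 * p) := by
      have t2 : p * X2 * r = p * X2 := by
        rw [x2, mul_assoc, hr]
      rw [← mul_assoc, ← mul_assoc, t2, cu, smul_mul_assoc]
    rw [h, sk2, mul_sub, mul_smul_comm, h', h'', smul_smul]
  · have f1 : X2 * E1 * X2 = Y1 * E2 * Y1 := by
      calc X2 * E1 * X2 = X2 * (E1 * E2 * E1) * X2 := by rw [el]
        _ = (X2 * E1) * E2 * (E1 * X2) := by noncomm_ring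
        _ = Y1 * E2 * E1 * E2 * (E1 * E2 * Y1) := by rw [b1, b3]
        _ = Y1 * ((E2 * E1 * E2) * E1 * E2) * Y1 := by noncomm_ring
        _ = Y1 * E2 * Y1 := by rw [er, er]
    calc p * X2 * E1 * X2 * p = p * (X2 * E1 * X2) * p := by noncomm_ring
      _ = (p * Y1) * E2 * (Y1 * p) := by rw [f1]; noncomm_ring
      _ = (p * X1 - z • p) * E2 * (X1 * p - z • p) := by rw [sk', sk'']
      _ = _ := by
        simp only [sub_mul, mul_sub, smul_mul_assoc, mul_smul_comm, smul_smul, mul_assoc]
        module
  · have f2 : p * E2 * X1 * E2 * p = p * E2 * E1 * Y2 * E2 * p := by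
      calc p * E2 * X1 * E2 * p = p * (E2 * X1) * E2 * p := by noncomm_ring
        _ = p * E2 * E1 * Y2 * E2 * p := by rw [b4]; noncomm_ring
    have f3 : p * E2 * E1 * E2 * p = p * E2 * p := by
      calc p * E2 * E1 * E2 * p = p * (E2 * E1 * E2) * p := by noncomm_ring
        _ = p * E2 * p := by rw [er]
    rw [← a4, f2, b5, f3]

private theorem rf_exp (z : A) {X1 X2 T1 T2 : R} (h0 : X1 * X2 * X1 = X2 * X1 * X2)
    (hi : X1 * X2 * T1 = T2 * X1 * X2) (hii : T1 * X2 * X1 = X2 * X1 * T2)
    (h12 : T1 * T2 = 0) (h21 : T2 * T1 = 0)
    (h3 : X1 * T2 * X1 + z • (T1 * X2 * T1) = X2 * T1 * X2 + z • (T2 * X1 * T2)) :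
    (X1 + z • T1) * (X2 + z • T2) * (X1 + z • T1) =
      (X2 + z • T2) * (X1 + z • T1) * (X2 + z • T2) := by
  have e1 : (X1 + z • T1) * (X2 + z • T2) * (X1 + z • T1) =
      X1 * X2 * X1 + z • (X1 * X2 * T1) + z • (T1 * X2 * X1) +
        z • (X1 * T2 * X1 + z • (T1 * X2 * T1)) + (z * z) • (X1 * (T2 * T1)) +
        (z * z) • (T1 * T2 * X1) + (z * z * z) • (T1 * T2 * T1) := by
    simp only [add_mul, mul_add, smul_mul_assoc, mul_smul_comm, mul_assoc]
    module
  have e2 : (X2 + z • T2) * (X1 + z • T1) * (X2 + z • T2) =
      X2 * X1 * X2 + z • (T2 * X1 * X2) + z • (X2 * X1 * T2) +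
        z • (X2 * T1 * X2 + z • (T2 * X1 * T2)) + (z * z) • (X2 * (T1 * T2)) +
        (z * z) • (T2 * T1 * X2) + (z * z * z) • (T2 * T1 * T2) := by
    simp only [add_mul, mul_add, smul_mul_assoc, mul_smul_comm, mul_assoc]
    module
  rw [e1, e2, h0, hi, hii, h3, h12, h21]
  simp

end alg

section mats

variable (n : ℕ) (q : Aˣ)

/-- the projection on a word of orientations -/
private def PO (A : Type*) [CommRing A] (n : ℕ) (u v w : Bool) :
    Matrix ((Bool × Fin n) × (Bool × Fin n) × (Bool × Fin n))
      ((Bool × Fin n) × (Bool × Fin n) × (Bool × Fin n)) A :=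
  PM A (Prod.fst : Bool × Fin n → Bool) u v w

private theorem po_l (u v w : Bool) (M : Matrix ((Bool × Fin n) × (Bool × Fin n) × (Bool × Fin n))
      ((Bool × Fin n) × (Bool × Fin n) × (Bool × Fin n)) A) (a b : _) :
    (PO A n u v w * M) a b = if a.1.1 = u ∧ a.2.1.1 = v ∧ a.2.2.1 = w then M a b else 0 := by
  unfold PO PM
  rw [Matrix.diagonal_mul]
  split_ifs <;> simp

private theorem po_r (u v w : Bool) (M : Matrix ((Bool × Fin n) × (Bool × Fin n) × (Bool × Fin n))
      ((Bool × Fin n) × (Bool × Fin n) × (Bool × Fin n)) A) (a b : _) :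
    (M * PO A n u v w) a b = if b.1.1 = u ∧ b.2.1.1 = v ∧ b.2.2.1 = w then M a b else 0 := by
  unfold PO PM
  rw [Matrix.mul_diagonal]
  split_ifs <;> simp

private theorem po_mul (u v w u' v' w' : Bool) : PO A n u v w * PO A n u' v' w' =
    if u = u' ∧ v = v' ∧ w = w' then PO A n u v w else 0 :=
  PM_mul _ u v w u' v' w'

private theorem po_xl (s u v w : Bool) : PO A n u v w * LM (xK (n := n) q s) =
    LM (xK (n := n) q s) * PO A n v u w :=
  PM_LM _ (fun a b c d h => xk_ty n q s a b c d h) u v w

private theorem po_xr (s u v w : Bool) : PO A n u v w * RM (xK (n := n) q s) =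
    RM (xK (n := n) q s) * PO A n u w v :=
  PM_RM _ (fun a b c d h => xk_ty n q s a b c d h) u v w

private theorem po_sl (u w : Bool) : LM (xK (n := n) q true) * PO A n u u w =
    LM (xK (n := n) q false) * PO A n u u w + zz q • PO A n u u w := by
  rw [← po_xl, ← po_xl]
  ext ⟨a, b, c⟩ ⟨d, e, f⟩
  rw [Matrix.add_apply, po_l, po_l, Matrix.smul_apply, ← Matrix.mul_one (PO A n u u w), po_l]
  by_cases h : a.1 = u ∧ b.1 = u ∧ c.1 = w
  · simp only [if_pos h]
    have hs := xk_skein n q a b d e
    rw [if_pos (h.1.trans h.2.1.symm)] at hs
    rw [Matrix.one_apply]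
    unfold LM
    by_cases hcf : c = f
    · simp only [hcf, if_true, Prod.mk.injEq, and_true, smul_eq_mul]
      linear_combination hs
    · simp [hcf]
  · simp only [if_neg h]
    simp

private theorem po_sr (u w : Bool) : RM (xK (n := n) q true) * PO A n w u u =
    RM (xK (n := n) q false) * PO A n w u u + zz q • PO A n w u u := by
  rw [← po_xr, ← po_xr]
  ext ⟨a, b, c⟩ ⟨d, e, f⟩
  rw [Matrix.add_apply, po_l, po_l, Matrix.smul_apply, ← Matrix.mul_one (PO A n w u u), po_l]
  by_cases h : a.1 = w ∧ b.1 = u ∧ c.1 = u
  · simp only [if_pos h]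
    have hs := xk_skein n q b c e f
    rw [if_pos (h.2.1.trans h.2.2.symm)] at hs
    rw [Matrix.one_apply]
    unfold RM
    by_cases hcf : a = d
    · simp only [hcf, if_true, Prod.mk.injEq, true_and, smul_eq_mul]
      linear_combination hs
    · simp [hcf]
  · simp only [if_neg h]
    simp

private theorem sk_anti (a b c d : Bool × Fin n) (h1 : b.1 = !a.1) (h2 : c.1 = !a.1)
    (h3 : d.1 = a.1) :
    xK q true a b c d = xK q false a b c d - zz q * FE (KF n q) a b c d := by
  have hs := xk_skein n q a b c d
  have hne : ¬ (a.1 = b.1) := by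
    rw [h1]
    cases a.1 <;> simp
  rw [if_neg hne] at hs
  have p : (a.2 = b.2 ∧ c.2 = d.2 ∧ c.1 = !a.1 ∧ d.1 = a.1) ↔
      (b = (KF n q).dual a ∧ d = (KF n q).dual c) := by
    constructor
    · rintro ⟨u, v, -⟩
      refine ⟨Prod.ext h1 u.symm, Prod.ext ?_ v.symm⟩
      change d.1 = !c.1
      rw [h3, h2, Bool.not_not]
    · rintro ⟨u, v⟩
      refine ⟨?_, ?_, h2, h3⟩
      · rw [u]
        rfl
      · rw [v]
        rfl
  rw [if_congr p rfl rfl] at hs
  have hE : FE (KF n q) a b c d =
      if b = (KF n q).dual a ∧ d = (KF n q).dual c then cK q a * eK q c else 0 := rfl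
  rw [hE]
  linear_combination hs

private theorem po_al (u w : Bool) :
    PO A n (!u) u w * LM (xK (n := n) q true) * PO A n u (!u) w =
      PO A n (!u) u w * LM (xK (n := n) q false) * PO A n u (!u) w -
        zz q • (PO A n (!u) u w * LM (FE (KF n q)) * PO A n u (!u) w) := by
  ext ⟨a, b, c⟩ ⟨d, e, f⟩
  rw [Matrix.sub_apply, Matrix.smul_apply]
  simp only [po_r, po_l]
  by_cases h : d.1 = u ∧ e.1 = (!u) ∧ f.1 = w
  · by_cases h' : a.1 = (!u) ∧ b.1 = u ∧ c.1 = w
    · simp only [if_pos h, if_pos h']
      have hs := sk_anti n q a b d e (by rw [h'.1, h'.2.1, Bool.not_not])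
        (by rw [h'.1, h.1, Bool.not_not]) (by rw [h'.1, h.2.1])
      unfold LM
      by_cases hcf : c = f
      · simp only [hcf, if_true, smul_eq_mul]
        exact hs
      · simp [hcf]
    · simp only [if_pos h, if_neg h']
      simp
  · simp only [if_neg h]
    simp

private theorem po_ar (u w : Bool) :
    PO A n w (!u) u * RM (xK (n := n) q true) * PO A n w u (!u) =
      PO A n w (!u) u * RM (xK (n := n) q false) * PO A n w u (!u) -
        zz q • (PO A n w (!u) u * RM (FE (KF n q)) * PO A n w u (!u)) := by
  ext ⟨a, b, c⟩ ⟨d, e, f⟩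
  rw [Matrix.sub_apply, Matrix.smul_apply]
  simp only [po_r, po_l]
  by_cases h : d.1 = w ∧ e.1 = u ∧ f.1 = (!u)
  · by_cases h' : a.1 = w ∧ b.1 = (!u) ∧ c.1 = u
    · simp only [if_pos h, if_pos h']
      have hs := sk_anti n q b c e f (by rw [h'.2.1, h'.2.2, Bool.not_not])
        (by rw [h'.2.1, h.2.1, Bool.not_not]) (by rw [h'.2.1, h.2.2])
      unfold RM
      by_cases hcf : a = d
      · simp only [hcf, if_true, smul_eq_mul]
        exact hs
      · simp [hcf]
    · simp only [if_pos h, if_neg h']
      simp
  · simp only [if_neg h]
    simp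

private theorem curl (s : Bool) (a b c d : Bool × Fin n) :
    mm (xK (n := n) q s) (FE (KF n q)) a b c d = kp n q s a.1 * FE (KF n q) a b c d := by
  have hcup := xk_cup n q s a b
  unfold mm
  have e : ∀ x y : Bool × Fin n, xK q s a b x y * FE (KF n q) x y c d =
      if y = (KF n q).dual x then
        (if d = (KF n q).dual c then xK q s a b x y * cK q x * eK q c else 0) else 0 := by
    intro x y
    have hE : FE (KF n q) x y c d =
      if y = (KF n q).dual x ∧ d = (KF n q).dual c then cK q x * eK q c else 0 := rfl
    rw [hE, ite_and]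
    split_ifs <;> ring
  rw [Finset.sum_congr rfl (fun x _ => Finset.sum_congr rfl (fun y _ => e x y))]
  simp only [Finset.sum_ite_eq', Finset.mem_univ, if_true]
  have hE : FE (KF n q) a b c d =
      if b = (KF n q).dual a ∧ d = (KF n q).dual c then cK q a * eK q c else 0 := rfl
  rw [hE]
  by_cases hd : d = (KF n q).dual c
  · simp only [if_pos hd]
    rw [← Finset.sum_mul, hcup]
    simp only [hd, and_true]
    split_ifs <;> ring
  · simp only [if_neg hd]
    rw [Finset.sum_const_zero, if_neg (fun h => hd h.2), mul_zero]

private theorem po_cl (s u v w : Bool) :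
    PO A n u v w * (LM (xK (n := n) q s) * LM (FE (KF n q))) =
      kp n q s u • (PO A n u v w * LM (FE (KF n q))) := by
  rw [LM_mul]
  ext ⟨a, b, c⟩ ⟨d, e, f⟩
  rw [Matrix.smul_apply, po_l, po_l]
  by_cases h : a.1 = u ∧ b.1 = v ∧ c.1 = w
  · simp only [if_pos h]
    unfold LM
    simp only [curl, h.1]
    split_ifs <;> simp
  · simp only [if_neg h]
    simp

private theorem po_cr (s u v w : Bool) :
    PO A n u v w * (RM (xK (n := n) q s) * RM (FE (KF n q))) =
      kp n q s v • (PO A n u v w * RM (FE (KF n q))) := by
  rw [RM_mul]
  ext ⟨a, b, c⟩ ⟨d, e, f⟩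
  rw [Matrix.smul_apply, po_l, po_l]
  by_cases h : a.1 = u ∧ b.1 = v ∧ c.1 = w
  · simp only [if_pos h]
    unfold RM
    simp only [curl, h.2.1]
    split_ifs <;> simp
  · simp only [if_neg h]
    simp

private theorem fe_ty (a b c d : Bool × Fin n) (h : FE (KF n q) a b c d ≠ 0) :
    b.1 = (!a.1) ∧ d.1 = !c.1 := by
  have hE : FE (KF n q) a b c d =
      if b = (KF n q).dual a ∧ d = (KF n q).dual c then cK q a * eK q c else 0 := rfl
  rw [hE] at h
  by_cases h' : b = (KF n q).dual a ∧ d = (KF n q).dual c
  · obtain ⟨rfl, rfl⟩ := h'
    exact ⟨rfl, rfl⟩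
  · rw [if_neg h'] at h
    exact absurd rfl h

private theorem po_e1l (u w : Bool) : PO A n u u w * LM (FE (KF n q)) = 0 := by
  ext ⟨a, b, c⟩ ⟨d, e, f⟩
  rw [po_l, Matrix.zero_apply]
  split_ifs with h
  · unfold LM
    split_ifs with h'
    · by_contra hn
      have := (fe_ty n q a b d e hn).1
      rw [h.1, h.2.1] at this
      cases u <;> simp at this
    · rfl
  · rfl

private theorem po_e1r (u w : Bool) : LM (FE (KF n q)) * PO A n u u w = 0 := by
  ext ⟨a, b, c⟩ ⟨d, e, f⟩
  rw [po_r, Matrix.zero_apply]
  split_ifs with h
  · unfold LM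
    split_ifs with h'
    · by_contra hn
      have := (fe_ty n q a b d e hn).2
      rw [h.1, h.2.1] at this
      cases u <;> simp at this
    · rfl
  · rfl

private theorem po_e2l (u w : Bool) : PO A n w u u * RM (FE (KF n q)) = 0 := by
  ext ⟨a, b, c⟩ ⟨d, e, f⟩
  rw [po_l, Matrix.zero_apply]
  split_ifs with h
  · unfold RM
    split_ifs with h'
    · by_contra hn
      have := (fe_ty n q b c e f hn).1
      rw [h.2.1, h.2.2] at this
      cases u <;> simp at this
    · rfl
  · rfl

private theorem po_e2r (u w : Bool) : RM (FE (KF n q)) * PO A n w u u = 0 := by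
  ext ⟨a, b, c⟩ ⟨d, e, f⟩
  rw [po_r, Matrix.zero_apply]
  split_ifs with h
  · unfold RM
    split_ifs with h'
    · by_contra hn
      have := (fe_ty n q b c e f hn).2
      rw [h.2.1, h.2.2] at this
      cases u <;> simp at this
    · rfl
  · rfl

/-- a matrix on the first two strands preserves the type of the third one -/
private theorem po_kl (M : Bool × Fin n → Bool × Fin n → Bool × Fin n → Bool × Fin n → A)
    (u v w u' v' w' : Bool) (h : w ≠ w') : PO A n u v w * LM M * PO A n u' v' w' = 0 := by
  ext ⟨a, b, c⟩ ⟨d, e, f⟩
  rw [po_r, po_l, Matrix.zero_apply]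
  split_ifs with h1 h2
  · unfold LM
    refine if_neg fun hcf : c = f => h ?_
    rw [← h2.2.2, ← h1.2.2, hcf]
  all_goals rfl

private theorem po_kr (M : Bool × Fin n → Bool × Fin n → Bool × Fin n → Bool × Fin n → A)
    (u v w u' v' w' : Bool) (h : u ≠ u') : PO A n u v w * RM M * PO A n u' v' w' = 0 := by
  ext ⟨a, b, c⟩ ⟨d, e, f⟩
  rw [po_r, po_l, Matrix.zero_apply]
  split_ifs with h1 h2
  · unfold RM
    refine if_neg fun hcf : a = d => h ?_
    rw [← h2.1, ← h1.1, hcf]
  all_goals rfl

private theorem po_sum : ∑ u, ∑ v, ∑ w, PO A n u v w = 1 := PM_sum _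

private theorem t_l : LM (tK (n := n) q true) =
    PO A n true false true * (1 - LM (FE (KF n q))) * PO A n true false true +
      PO A n true false false * (1 - LM (FE (KF n q))) * PO A n true false false := by
  ext ⟨a, b, c⟩ ⟨d, e, f⟩
  rw [Matrix.add_apply]
  simp only [po_r, po_l, Matrix.sub_apply, Matrix.one_apply, Prod.mk.injEq]
  have hE : FE (KF n q) a b d e =
      if b = (KF n q).dual a ∧ e = (KF n q).dual d then cK q a * eK q d else 0 := rfl
  unfold LM
  by_cases hcf : c = f
  · subst hcf
    simp only [if_true, and_true]
    unfold tK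
    by_cases h : a.1 = true ∧ b.1 = (!true) ∧ d.1 = true ∧ e.1 = (!true)
    · rw [if_pos h]
      obtain ⟨h1, h2, h3, h4⟩ := h
      have p1 : (a.2 = d.2 ∧ b.2 = e.2) ↔ (a = d ∧ b = e) := by
        constructor
        · rintro ⟨u, v⟩
          exact ⟨Prod.ext (h1.trans h3.symm) u, Prod.ext (h2.trans h4.symm) v⟩
        · rintro ⟨rfl, rfl⟩
          exact ⟨rfl, rfl⟩
      have p2 : (a.2 = b.2 ∧ d.2 = e.2) ↔
          (b = (KF n q).dual a ∧ e = (KF n q).dual d) := by
        constructor
        · rintro ⟨u, v⟩
          refine ⟨Prod.ext ?_ u.symm, Prod.ext ?_ v.symm⟩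
          · change b.1 = !a.1
            rw [h1, h2]
          · change e.1 = !d.1
            rw [h3, h4]
        · rintro ⟨u, v⟩
          rw [u, v]
          exact ⟨rfl, rfl⟩
      rw [if_congr p1 rfl rfl, if_congr p2 rfl rfl, ← hE]
      rw [Bool.not_true] at h2 h4
      simp only [h1, h2, h3, h4, true_and]
      rcases hc : c.1 with _ | _
      · simp
      · simp
    · rw [if_neg h]
      rw [Bool.not_true] at h
      have h5 : ¬ (a.1 = true ∧ b.1 = false ∧ d.1 = true ∧ e.1 = false) := h
      by_cases g1 : a.1 = true ∧ b.1 = false
      · have g2 : ¬ (d.1 = true ∧ e.1 = false) := fun g => h5 ⟨g1.1, g1.2, g.1, g.2⟩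
        rw [if_neg (fun g => g2 ⟨g.1, g.2.1⟩), if_neg (fun g => g2 ⟨g.1, g.2.1⟩), add_zero]
      · rw [if_neg (c := a.1 = true ∧ b.1 = false ∧ c.1 = true) (fun g => g1 ⟨g.1, g.2.1⟩),
          if_neg (c := a.1 = true ∧ b.1 = false ∧ c.1 = false) (fun g => g1 ⟨g.1, g.2.1⟩)]
        simp
  · simp [hcf]

private theorem t_r : RM (tK (n := n) q true) =
    PO A n true true false * (1 - RM (FE (KF n q))) * PO A n true true false +
      PO A n false true false * (1 - RM (FE (KF n q))) * PO A n false true false := by
  ext ⟨c, a, b⟩ ⟨f, d, e⟩
  rw [Matrix.add_apply]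
  simp only [po_r, po_l, Matrix.sub_apply, Matrix.one_apply, Prod.mk.injEq]
  have hE : FE (KF n q) a b d e =
      if b = (KF n q).dual a ∧ e = (KF n q).dual d then cK q a * eK q d else 0 := rfl
  unfold RM
  by_cases hcf : c = f
  · subst hcf
    simp only [if_true, true_and]
    unfold tK
    by_cases h : a.1 = true ∧ b.1 = (!true) ∧ d.1 = true ∧ e.1 = (!true)
    · rw [if_pos h]
      obtain ⟨h1, h2, h3, h4⟩ := h
      have p1 : (a.2 = d.2 ∧ b.2 = e.2) ↔ (a = d ∧ b = e) := by
        constructor
        · rintro ⟨u, v⟩
          exact ⟨Prod.ext (h1.trans h3.symm) u, Prod.ext (h2.trans h4.symm) v⟩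
        · rintro ⟨rfl, rfl⟩
          exact ⟨rfl, rfl⟩
      have p2 : (a.2 = b.2 ∧ d.2 = e.2) ↔
          (b = (KF n q).dual a ∧ e = (KF n q).dual d) := by
        constructor
        · rintro ⟨u, v⟩
          refine ⟨Prod.ext ?_ u.symm, Prod.ext ?_ v.symm⟩
          · change b.1 = !a.1
            rw [h1, h2]
          · change e.1 = !d.1
            rw [h3, h4]
        · rintro ⟨u, v⟩
          rw [u, v]
          exact ⟨rfl, rfl⟩
      rw [if_congr p1 rfl rfl, if_congr p2 rfl rfl, ← hE]
      rw [Bool.not_true] at h2 h4
      simp only [h1, h2, h3, h4, and_true]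
      rcases hc : c.1 with _ | _
      · simp
      · simp
    · rw [if_neg h]
      rw [Bool.not_true] at h
      have h5 : ¬ (a.1 = true ∧ b.1 = false ∧ d.1 = true ∧ e.1 = false) := h
      by_cases g1 : a.1 = true ∧ b.1 = false
      · have g2 : ¬ (d.1 = true ∧ e.1 = false) := fun g => h5 ⟨g1.1, g1.2, g.1, g.2⟩
        rw [if_neg (fun g => g2 ⟨g.2.1, g.2.2⟩), if_neg (fun g => g2 ⟨g.2.1, g.2.2⟩), add_zero]
      · rw [if_neg (c := c.1 = true ∧ a.1 = true ∧ b.1 = false) (fun g => g1 ⟨g.2.1, g.2.2⟩),
          if_neg (c := c.1 = false ∧ a.1 = true ∧ b.1 = false) (fun g => g1 ⟨g.2.1, g.2.2⟩)]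
        simp
  · simp [hcf]

private theorem mm_inv (s : Bool) : mm (xK (n := n) q (!s)) (xK (n := n) q s) = one := by
  funext a b c d
  exact xk_inv n q s a b c d

end mats

theorem kf_r3 (n : ℕ) (q : Aˣ) : R3 (KF n q).pos := by
  rw [r3_iff]
  have hX1Y1 : LM (xK (n := n) q true) * LM (xK (n := n) q false) = 1 := by
    rw [LM_mul, ← LM_one]
    exact congrArg _ (mm_inv n q false)
  have hY1X1 : LM (xK (n := n) q false) * LM (xK (n := n) q true) = 1 := by
    rw [LM_mul, ← LM_one]
    exact congrArg _ (mm_inv n q true)
  have hX2Y2 : RM (xK (n := n) q true) * RM (xK (n := n) q false) = 1 := by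
    rw [RM_mul, ← RM_one]
    exact congrArg _ (mm_inv n q false)
  have hY2X2 : RM (xK (n := n) q false) * RM (xK (n := n) q true) = 1 := by
    rw [RM_mul, ← RM_one]
    exact congrArg _ (mm_inv n q true)
  have dd := kf_dd n q
  have zig : ∀ a, (KF n q).cap ((KF n q).dual a) * (KF n q).cup a = 1 := kf_zig n q
  have rt : ∀ a b c x, (KF n q).cup ((KF n q).dual c) * xK q true a b x ((KF n q).dual c) =
      (KF n q).cup a * xK q false b c ((KF n q).dual a) x := xk_rot n q true
  have rt' : ∀ a b c x, (KF n q).cup ((KF n q).dual c) * xK q false a b x ((KF n q).dual c) =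
      (KF n q).cup a * xK q true b c ((KF n q).dual a) x := xk_rot n q false
  have el := EEL (KF n q) dd zig
  have er := EER (KF n q) dd zig
  have b1 := bend1 (KF n q) dd zig rt rt'
  have b2 := bend2 (KF n q) dd zig rt rt'
  have b3 := bend3 (KF n q) dd zig rt rt'
  have b4 := bend4 (KF n q) dd zig rt rt'
  have hp1 : LM (KF n q).pos = LM (xK (n := n) q true) + zz q • LM (tK (n := n) q true) :=
    LM_add _ _ _
  have hp2 : RM (KF n q).pos = RM (xK (n := n) q true) + zz q • RM (tK (n := n) q true) :=
    RM_add _ _ _
  rw [hp1, hp2]
  have h0 := (r3_iff _).mp (xk_r3 n q)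
  have h0' : LM (xK (n := n) q true) * RM (xK (n := n) q true) * LM (xK (n := n) q true) =
      RM (xK (n := n) q true) * LM (xK (n := n) q true) * RM (xK (n := n) q true) := h0
  rw [t_l, t_r]
  have xl := po_xl n q true
  have xr := po_xr n q true
  have yl := po_xl n q false
  have yr := po_xr n q false
  have sl := po_sl n q
  have sr := po_sr n q
  have al := po_al n q true false
  have ar := po_ar n q true true
  have cl1 := po_cl n q true
  have cr1 := po_cr n q true
  have cl0 := po_cl n q false
  have cr0 := po_cr n q false
  have e1l := po_e1l n q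
  have e1r := po_e1r n q
  have e2l := po_e2l n q
  have e2r := po_e2r n q
  have kl := po_kl (A := A) n (FE (KF n q))
  have kr := po_kr (A := A) n (FE (KF n q))
  have pm := po_mul (A := A) n
  have ps := po_sum (A := A) n
  have kp1 : kp n q true true = (zp q (-1) : A) := rfl
  have kp2 : kp n q false false = (zp q 1 : A) := rfl
  generalize LM (xK (n := n) q true) = X1 at *
  generalize RM (xK (n := n) q true) = X2 at *
  generalize LM (xK (n := n) q false) = Y1 at *
  generalize RM (xK (n := n) q false) = Y2 at *
  generalize LM (FE (KF n q)) = E1 at *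
  generalize RM (FE (KF n q)) = E2 at *
  clear hp1 hp2 h0 rt rt' dd zig
  generalize PO A n = P at *
  rw [Bool.not_true] at al ar
  simp only [Fintype.sum_bool] at ps
  have p_sq : ∀ u v w, P u v w * P u v w = P u v w := fun u v w => by simp [pm]
  have p_ne : ∀ u v w u' v' w' : Bool, ¬ (u = u' ∧ v = v' ∧ w = w') →
      P u v w * P u' v' w' = 0 := fun u v w u' v' w' h => by rw [pm, if_neg h]
  have g1 : X1 * X2 * E1 = E2 * E1 := by
    calc X1 * X2 * E1 = X1 * (X2 * E1) := mul_assoc _ _ _
      _ = (X1 * Y1) * E2 * E1 := by rw [b1]; noncomm_ring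
      _ = E2 * E1 := by rw [hX1Y1, one_mul]
  have g2 : E2 * X1 * X2 = E2 * E1 := by rw [b4, mul_assoc, hY2X2, mul_one]
  have g3 : E1 * X2 * X1 = E1 * E2 := by rw [b3, mul_assoc, hY1X1, mul_one]
  have g4 : X2 * X1 * E2 = E1 * E2 := by
    calc X2 * X1 * E2 = X2 * (X1 * E2) := mul_assoc _ _ _
      _ = (X2 * Y2) * E1 * E2 := by rw [b2]; noncomm_ring
      _ = E1 * E2 := by rw [hX2Y2, one_mul]
  have ci : ∀ w, X1 * X2 * (P true false w * (1 - E1) * P true false w) =
      P w true false * (1 - E2) * P w true false * X1 * X2 := by
    intro w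
    have a1 : X1 * X2 * P true false w = P w true false * X1 * X2 := by
      rw [mul_assoc, ← xr true w false, ← mul_assoc, ← xl w true false]
    calc X1 * X2 * (P true false w * (1 - E1) * P true false w) =
          (X1 * X2 * P true false w) * (1 - E1) * P true false w := by noncomm_ring
      _ = P w true false * X1 * X2 * (1 - E1) * P true false w := by rw [a1]
      _ = P w true false * (X1 * X2 - X1 * X2 * E1) * P true false w := by noncomm_ring
      _ = P w true false * (X1 * X2 - E2 * X1 * X2) * P true false w := by rw [g1, g2]
      _ = P w true false * (1 - E2) * (X1 * X2 * P true false w) := by noncomm_ring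
      _ = P w true false * (1 - E2) * (P w true false * X1 * X2) := by rw [a1]
      _ = P w true false * (1 - E2) * P w true false * X1 * X2 := by noncomm_ring
  have cii : ∀ w, P true false w * (1 - E1) * P true false w * X2 * X1 =
      X2 * X1 * (P w true false * (1 - E2) * P w true false) := by
    intro w
    have a1 : P true false w * X2 * X1 = X2 * X1 * P w true false := by
      rw [xr, mul_assoc, xl, ← mul_assoc]
    calc P true false w * (1 - E1) * P true false w * X2 * X1 =
          P true false w * (1 - E1) * (P true false w * X2 * X1) := by noncomm_ring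
      _ = P true false w * (1 - E1) * (X2 * X1 * P w true false) := by rw [a1]
      _ = P true false w * (X2 * X1 - E1 * X2 * X1) * P w true false := by noncomm_ring
      _ = P true false w * (X2 * X1 - X2 * X1 * E2) * P w true false := by rw [g3, g4]
      _ = (P true false w * X2 * X1) * (1 - E2) * P w true false := by noncomm_ring
      _ = X2 * X1 * P w true false * (1 - E2) * P w true false := by rw [a1]
      _ = X2 * X1 * (P w true false * (1 - E2) * P w true false) := by noncomm_ring
  have z12 : ∀ w w', P true false w * (1 - E1) * P true false w *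
      (P w' true false * (1 - E2) * P w' true false) = 0 := by
    intro w w'
    calc P true false w * (1 - E1) * P true false w *
          (P w' true false * (1 - E2) * P w' true false) =
          P true false w * (1 - E1) * (P true false w * P w' true false) * (1 - E2) *
            P w' true false := by noncomm_ring
      _ = 0 := by
        rw [p_ne _ _ _ _ _ _ (fun h => Bool.false_ne_true h.2.1)]
        simp
  have z21 : ∀ w w', P w' true false * (1 - E2) * P w' true false *
      (P true false w * (1 - E1) * P true false w) = 0 := by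
    intro w w'
    calc P w' true false * (1 - E2) * P w' true false *
          (P true false w * (1 - E1) * P true false w) =
          P w' true false * (1 - E2) * (P w' true false * P true false w) * (1 - E1) *
            P true false w := by noncomm_ring
      _ = 0 := by
        rw [p_ne _ _ _ _ _ _ (fun h => Bool.false_ne_true h.2.1.symm)]
        simp
  have j1 : ∀ w, X1 * (P w true false * (1 - E2) * P w true false) * X1 =
      P true w false * X1 * (1 - E2) * X1 * P true w false := by
    intro w
    calc X1 * (P w true false * (1 - E2) * P w true false) * X1 =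
          (X1 * P w true false) * (1 - E2) * (P w true false * X1) := by noncomm_ring
      _ = (P true w false * X1) * (1 - E2) * (X1 * P true w false) := by rw [← xl, xl w]
      _ = P true w false * X1 * (1 - E2) * X1 * P true w false := by noncomm_ring
  have j2 : ∀ w, X2 * (P true false w * (1 - E1) * P true false w) * X2 =
      P true w false * X2 * (1 - E1) * X2 * P true w false := by
    intro w
    calc X2 * (P true false w * (1 - E1) * P true false w) * X2 =
          (X2 * P true false w) * (1 - E1) * (P true false w * X2) := by noncomm_ring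
      _ = (P true w false * X2) * (1 - E1) * (X2 * P true w false) := by rw [← xr, xr true false w]
      _ = P true w false * X2 * (1 - E1) * X2 * P true w false := by noncomm_ring
  have v1 : P true false true * X2 * P true false true = 0 := by
    rw [xr, mul_assoc, p_ne _ _ _ _ _ _ (by decide), mul_zero]
  have v2 : P true false true * X2 * P true false false = 0 := by
    rw [xr, mul_assoc, p_ne _ _ _ _ _ _ (by decide), mul_zero]
  have v3 : P true false false * X2 * P true false true = 0 := by
    rw [xr, mul_assoc, p_ne _ _ _ _ _ _ (by decide), mul_zero]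
  have v4 : P false true false * X1 * P false true false = 0 := by
    rw [xl, mul_assoc, p_ne _ _ _ _ _ _ (by decide), mul_zero]
  have v5 : P false true false * X1 * P true true false = 0 := by
    rw [xl, mul_assoc, p_ne _ _ _ _ _ _ (by decide), mul_zero]
  have v6 : P true true false * X1 * P false true false = 0 := by
    rw [xl, mul_assoc, p_ne _ _ _ _ _ _ (by decide), mul_zero]
  have m1 : (P true false true * (1 - E1) * P true false true +
        P true false false * (1 - E1) * P true false false) * X2 *
      (P true false true * (1 - E1) * P true false true +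
        P true false false * (1 - E1) * P true false false) =
      P true false false * (1 - E1) * P true false false * X2 *
        (P true false false * (1 - E1) * P true false false) := by
    have h : (P true false true * (1 - E1) * P true false true +
        P true false false * (1 - E1) * P true false false) * X2 *
      (P true false true * (1 - E1) * P true false true +
        P true false false * (1 - E1) * P true false false) =
      P true false true * (1 - E1) * (P true false true * X2 * P true false true) * (1 - E1) *
        P true false true +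
      P true false true * (1 - E1) * (P true false true * X2 * P true false false) * (1 - E1) *
        P true false false +
      P true false false * (1 - E1) * (P true false false * X2 * P true false true) * (1 - E1) *
        P true false true +
      P true false false * (1 - E1) * P true false false * X2 *
        (P true false false * (1 - E1) * P true false false) := by
      simp only [add_mul, mul_add, mul_assoc]
      abel
    rw [h, v1, v2, v3]
    simp
  have m2 : (P true true false * (1 - E2) * P true true false +
        P false true false * (1 - E2) * P false true false) * X1 *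
      (P true true false * (1 - E2) * P true true false +
        P false true false * (1 - E2) * P false true false) =
      P true true false * (1 - E2) * P true true false * X1 *
        (P true true false * (1 - E2) * P true true false) := by
    have h : (P true true false * (1 - E2) * P true true false +
        P false true false * (1 - E2) * P false true false) * X1 *
      (P true true false * (1 - E2) * P true true false +
        P false true false * (1 - E2) * P false true false) =
      P false true false * (1 - E2) * (P false true false * X1 * P false true false) * (1 - E2) *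
        P false true false +
      P false true false * (1 - E2) * (P false true false * X1 * P true true false) * (1 - E2) *
        P true true false +
      P true true false * (1 - E2) * (P true true false * X1 * P false true false) * (1 - E2) *
        P false true false +
      P true true false * (1 - E2) * P true true false * X1 *
        (P true true false * (1 - E2) * P true true false) := by
      simp only [add_mul, mul_add, mul_assoc]
      abel
    rw [h, v4, v5, v6]
    simp
  have secU := rf_sector (zz q) (zp q 1) (zp q (-1)) rfl (X1 := X1) (X2 := X2) (Y1 := Y1)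
    (Y2 := Y2) (E1 := E1) (E2 := E2) (p := P true true false) (r := P true false true)
    hX1Y1 hX2Y2 el er b1 b3 b4 (p_sq _ _ _) (xl _ _ _) (yl _ _ _) (sl _ _) (xr _ _ _)
    (xr _ _ _).symm (yr _ _ _).symm (p_sq _ _ _) ar
    (by rw [mul_assoc, cr1, kp1])
    (by
      have q1 : ∀ v w, P true true false * E2 * P false v w = 0 :=
        fun v w => kr _ _ _ _ _ _ (by decide)
      have q2 : ∀ v, E2 * P true v v = 0 := fun v => e2r v true
      have q3 : P true false true * X1 * E2 = 0 := by rw [xl, mul_assoc, e2l, mul_zero]
      calc P true true false * E2 * X1 * E2 * P true true false =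
          P true true false * E2 * 1 * X1 * E2 * P true true false := by rw [mul_one]
        _ = P true true false * E2 * P true true false * X1 * E2 * P true true false +
            P true true false * (E2 * P true true true) * X1 * E2 * P true true false +
            P true true false * (E2 * P true false false) * X1 * E2 * P true true false +
            P true true false * E2 * (P true false true * X1 * E2) * P true true false +
            (P true true false * E2 * P false true true) * X1 * E2 * P true true false +
            (P true true false * E2 * P false true false) * X1 * E2 * P true true false +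
            (P true true false * E2 * P false false true) * X1 * E2 * P true true false +
            (P true true false * E2 * P false false false) * X1 * E2 * P true true false := by
          rw [← ps]
          simp only [add_mul, mul_add, mul_assoc]
          abel
        _ = P true true false * E2 * P true true false * X1 * E2 * P true true false := by
          rw [q1, q1, q1, q1, q2, q2, q3]
          simp)
    (by
      have q1 : ∀ v w, P false v w * E2 * P true true false = 0 :=
        fun v w => kr _ _ _ _ _ _ (by decide)
      have q2 : ∀ v, P true v v * E2 = 0 := fun v => e2l v true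
      have q3 : E1 * P true true false = 0 := e1r _ _
      have q4 : ∀ v w, P false v w * (Y2 * E2) * P true true false = 0 := by
        intro v w
        rw [cr0, smul_mul_assoc, q1, smul_zero]
      have q5 : ∀ v, P true v v * (Y2 * E2) = 0 := by
        intro v
        rw [cr0, q2, smul_zero]
      have q6 : P true false true * (Y2 * E2) = zp q 1 • (P true false true * E2) := by
        rw [cr0, kp2]
      have w1 : P true true false * E2 * E1 * Y2 * E2 * P true true false =
          P true true false * E2 * E1 * (P true false true * (Y2 * E2)) * P true true false := by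
        calc P true true false * E2 * E1 * Y2 * E2 * P true true false =
            P true true false * E2 * E1 * 1 * Y2 * E2 * P true true false := by rw [mul_one]
          _ = P true true false * E2 * E1 * (P true false true * (Y2 * E2)) * P true true false +
            P true true false * E2 * (E1 * P true true false) * Y2 * E2 * P true true false +
            P true true false * E2 * E1 * (P true true true * (Y2 * E2)) * P true true false +
            P true true false * E2 * E1 * (P true false false * (Y2 * E2)) * P true true false +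
            P true true false * E2 * E1 * (P false true true * (Y2 * E2) * P true true false) +
            P true true false * E2 * E1 * (P false true false * (Y2 * E2) * P true true false) +
            P true true false * E2 * E1 * (P false false true * (Y2 * E2) * P true true false) +
            P true true false * E2 * E1 * (P false false false * (Y2 * E2) * P true true false) := by
            rw [← ps]
            simp only [add_mul, mul_add, mul_assoc]
            abel
          _ = _ := by
            rw [q3, q5, q5, q4, q4, q4, q4]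
            simp
      have w2 : P true true false * E2 * E1 * E2 * P true true false =
          P true true false * E2 * E1 * (P true false true * E2) * P true true false := by
        calc P true true false * E2 * E1 * E2 * P true true false =
            P true true false * E2 * E1 * 1 * E2 * P true true false := by rw [mul_one]
          _ = P true true false * E2 * E1 * (P true false true * E2) * P true true false +
            P true true false * E2 * (E1 * P true true false) * E2 * P true true false +
            P true true false * E2 * E1 * (P true true true * E2) * P true true false +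
            P true true false * E2 * E1 * (P true false false * E2) * P true true false +
            P true true false * E2 * E1 * (P false true true * E2 * P true true false) +
            P true true false * E2 * E1 * (P false true false * E2 * P true true false) +
            P true true false * E2 * E1 * (P false false true * E2 * P true true false) +
            P true true false * E2 * E1 * (P false false false * E2 * P true true false) := by
            rw [← ps]
            simp only [add_mul, mul_add, mul_assoc]
            abel
          _ = _ := by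
            rw [q3, q2, q2, q1, q1, q1, q1]
            simp
      rw [w1, w2, q6, mul_smul_comm, smul_mul_assoc])
  have secD := rf_sector (zz q) (zp q 1) (zp q (-1)) rfl (X1 := X2) (X2 := X1) (Y1 := Y2)
    (Y2 := Y1) (E1 := E2) (E2 := E1) (p := P true false false) (r := P false true false)
    hX2Y2 hX1Y1 er el b2 b4 b3 (p_sq _ _ _) (xr _ _ _) (yr _ _ _) (sr _ _) (xl _ _ _)
    (xl _ _ _).symm (yl _ _ _).symm (p_sq _ _ _) al
    (by rw [mul_assoc, cl1, kp1])
    (by
      have q1 : ∀ u v, P true false false * E1 * P u v true = 0 :=
        fun u v => kl _ _ _ _ _ _ (by decide)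
      have q2 : ∀ v, E1 * P v v false = 0 := fun v => e1r v false
      have q3 : P false true false * X2 * E1 = 0 := by rw [xr, mul_assoc, e1l, mul_zero]
      calc P true false false * E1 * X2 * E1 * P true false false =
          P true false false * E1 * 1 * X2 * E1 * P true false false := by rw [mul_one]
        _ = P true false false * E1 * P true false false * X2 * E1 * P true false false +
            P true false false * (E1 * P true true false) * X2 * E1 * P true false false +
            P true false false * (E1 * P false false false) * X2 * E1 * P true false false +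
            P true false false * E1 * (P false true false * X2 * E1) * P true false false +
            (P true false false * E1 * P true true true) * X2 * E1 * P true false false +
            (P true false false * E1 * P true false true) * X2 * E1 * P true false false +
            (P true false false * E1 * P false true true) * X2 * E1 * P true false false +
            (P true false false * E1 * P false false true) * X2 * E1 * P true false false := by
          rw [← ps]
          simp only [add_mul, mul_add, mul_assoc]
          abel
        _ = P true false false * E1 * P true false false * X2 * E1 * P true false false := by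
          rw [q1, q1, q1, q1, q2, q2, q3]
          simp)
    (by
      have q1 : ∀ u v, P u v true * E1 * P true false false = 0 :=
        fun u v => kl _ _ _ _ _ _ (by decide)
      have q2 : ∀ v, P v v false * E1 = 0 := fun v => e1l v false
      have q3 : E2 * P true false false = 0 := e2r _ _
      have q4 : ∀ u v, P u v true * (Y1 * E1) * P true false false = 0 := by
        intro u v
        rw [cl0, smul_mul_assoc, q1, smul_zero]
      have q5 : ∀ v, P v v false * (Y1 * E1) = 0 := by
        intro v
        rw [cl0, q2, smul_zero]
      have q6 : P false true false * (Y1 * E1) = zp q 1 • (P false true false * E1) := by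
        rw [cl0, kp2]
      have w1 : P true false false * E1 * E2 * Y1 * E1 * P true false false =
          P true false false * E1 * E2 * (P false true false * (Y1 * E1)) * P true false false := by
        calc P true false false * E1 * E2 * Y1 * E1 * P true false false =
            P true false false * E1 * E2 * 1 * Y1 * E1 * P true false false := by rw [mul_one]
          _ = P true false false * E1 * E2 * (P false true false * (Y1 * E1)) *
                P true false false +
            P true false false * E1 * (E2 * P true false false) * Y1 * E1 * P true false false +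
            P true false false * E1 * E2 * (P true true false * (Y1 * E1)) * P true false false +
            P true false false * E1 * E2 * (P false false false * (Y1 * E1)) *
                P true false false +
            P true false false * E1 * E2 * (P true true true * (Y1 * E1) * P true false false) +
            P true false false * E1 * E2 * (P true false true * (Y1 * E1) * P true false false) +
            P true false false * E1 * E2 * (P false true true * (Y1 * E1) * P true false false) +
            P true false false * E1 * E2 *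
                (P false false true * (Y1 * E1) * P true false false) := by
            rw [← ps]
            simp only [add_mul, mul_add, mul_assoc]
            abel
          _ = _ := by
            rw [q3, q5, q5, q4, q4, q4, q4]
            simp
      have w2 : P true false false * E1 * E2 * E1 * P true false false =
          P true false false * E1 * E2 * (P false true false * E1) * P true false false := by
        calc P true false false * E1 * E2 * E1 * P true false false =
            P true false false * E1 * E2 * 1 * E1 * P true false false := by rw [mul_one]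
          _ = P true false false * E1 * E2 * (P false true false * E1) *
                P true false false +
            P true false false * E1 * (E2 * P true false false) * E1 * P true false false +
            P true false false * E1 * E2 * (P true true false * E1) * P true false false +
            P true false false * E1 * E2 * (P false false false * E1) *
                P true false false +
            P true false false * E1 * E2 * (P true true true * E1 * P true false false) +
            P true false false * E1 * E2 * (P true false true * E1 * P true false false) +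
            P true false false * E1 * E2 * (P false true true * E1 * P true false false) +
            P true false false * E1 * E2 *
                (P false false true * E1 * P true false false) := by
            rw [← ps]
            simp only [add_mul, mul_add, mul_assoc]
            abel
          _ = _ := by
            rw [q3, q2, q2, q1, q1, q1, q1]
            simp
      rw [w1, w2, q6, mul_smul_comm, smul_mul_assoc])
  refine rf_exp (zz q) h0' ?_ ?_ ?_ ?_ ?_
  · rw [mul_add, ci, ci, add_mul, add_mul]
  · rw [add_mul, add_mul, cii, cii, mul_add]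
  · rw [add_mul, mul_add, mul_add, z12, z12, z12, z12]
    simp
  · rw [add_mul, mul_add, mul_add, z21, z21, z21, z21]
    simp
  · rw [m1, m2, mul_add, add_mul, mul_add, add_mul, j1, j1, j2, j2, secU, secD]
    abel

end Pool.Agent.KAF
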