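import Pool.Agent.KAF.Defs
import Pool.Agent.EVT.GA

/-!
# KAF module TA: operators of matrices

All by induction on `k` (generalizing `f`, `w`), with cases of the first two letters of the word for
`k = 0`.
* `sl_pos`, `sl_neg`, `sl_E`: unfold.  `sl_E` for `k = 0`: at `a :: b :: w`: left
  `if b = dual a then cup a * ∑ c, cap c * f (c :: dual c :: w) else 0`, right
  `∑ c, ∑ d, (if b = dual a ∧ d = dual c then cup a * cap c else 0) * f (c :: d :: w)`.
* `op_mm`: exchange sums.
* `op_one`: `∑ c, ∑ d, (if a = c ∧ b = d then 1 else 0) * f (c :: d :: w) = f (a :: b :: w)`.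
* `op_rt`, for `k = 0` at `a :: b :: w`: `∑ y, cap y * ∑ c, ∑ d, M b y c d * (if c = dual a then
  cup a * f (d :: dual y :: w) else 0)` is `∑ d, ∑ y, cup a * cap y * M b y (dual a) d *
  f (d :: dual y :: w)`; substitute `y = dual y'` (`Equiv.sum_comp`,
  `Function.Involutive.toPerm F.dual dd`).  (`F.sl .cap (0 + 2)` and `op M (0 + 1)` unfold by `rfl`.)
* `op_cong`: `op M k f w` depends only on the values of `f` on words of the length of `w`.
* `op_lin`: linear in `M`.
* `op_close`: at `x :: w`: `∑ y, cap y * ∑ c, ∑ d, M x y c d * (if dual y = dual d then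
  cup d * f (c :: w) else 0)`.
-/

namespace Pool.Agent.KAF

open Finset
open Pool.Agent.Helper9.Kashaev (Piece Diagram)
open Pool.Agent.EVT (FD)

variable {A ι : Type*} [CommRing A] [Fintype ι] [DecidableEq ι]

theorem sl_pos (F : FD A ι) (k : ℕ) (f : List ι → A) (w : List ι) :
    F.sl .pos k f w = op F.pos k f w := by
  induction k generalizing f w with
  | zero =>
    rcases w with _ | ⟨a, _ | ⟨b, w⟩⟩
    · simp [FD.sl, FD.pc, op]
    · simp [FD.sl, FD.pc, op]
    · simp only [FD.sl, FD.pc, op]
  | succ k ih =>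
    rcases w with _ | ⟨x, w⟩
    · simp [FD.sl, op]
    · exact ih (fun u => f (x :: u)) w

theorem sl_neg (F : FD A ι) (k : ℕ) (f : List ι → A) (w : List ι) :
    F.sl .neg k f w = op F.neg k f w := by
  induction k generalizing f w with
  | zero =>
    rcases w with _ | ⟨a, _ | ⟨b, w⟩⟩
    · simp [FD.sl, FD.pc, op]
    · simp [FD.sl, FD.pc, op]
    · simp only [FD.sl, FD.pc, op]
  | succ k ih =>
    rcases w with _ | ⟨x, w⟩
    · simp [FD.sl, op]
    · exact ih (fun u => f (x :: u)) w

theorem sl_E (F : FD A ι) (k : ℕ) (f : List ι → A) (w : List ι) :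
    F.sl .cup k (F.sl .cap k f) w = op (FE F) k f w := by
  induction k generalizing f w with
  | zero =>
    rcases w with _ | ⟨a, _ | ⟨b, w⟩⟩
    · simp [FD.sl, FD.pc, op]
    · simp [FD.sl, FD.pc, op]
    · simp only [FD.sl, FD.pc, op, FE]
      by_cases hb : b = F.dual a
      · simp only [if_pos hb, mul_sum]
        refine sum_congr rfl fun c _ => ?_
        rw [sum_eq_single (F.dual c)]
        · rw [if_pos ⟨hb, rfl⟩, mul_assoc]
        · intro d _ hd
          rw [if_neg (fun h => hd h.2), zero_mul]
        · intro h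
          exact absurd (mem_univ _) h
      · rw [if_neg hb]
        refine (sum_eq_zero fun c _ => sum_eq_zero fun d _ => ?_).symm
        rw [if_neg (fun h => hb h.1), zero_mul]
  | succ k ih =>
    rcases w with _ | ⟨x, w⟩
    · simp [FD.sl, op]
    · exact ih (fun u => f (x :: u)) w

theorem op_mm (M N : ι → ι → ι → ι → A) (k : ℕ) (f : List ι → A) (w : List ι) :
    op M k (op N k f) w = op (mm M N) k f w := by
  induction k generalizing f w with
  | zero =>
    rcases w with _ | ⟨a, _ | ⟨b, w⟩⟩
    · simp [op]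
    · simp [op]
    · simp only [op, mm, mul_sum, sum_mul]
      have h1 : ∀ g : ι → ι → ι → ι → A, ∑ x, ∑ y, ∑ c, ∑ d, g x y c d =
          ∑ c, ∑ d, ∑ x, ∑ y, g x y c d := by
        intro g
        calc ∑ x, ∑ y, ∑ c, ∑ d, g x y c d
            = ∑ x, ∑ c, ∑ y, ∑ d, g x y c d := sum_congr rfl fun x _ => sum_comm
          _ = ∑ c, ∑ x, ∑ y, ∑ d, g x y c d := sum_comm
          _ = ∑ c, ∑ x, ∑ d, ∑ y, g x y c d :=
              sum_congr rfl fun c _ => sum_congr rfl fun x _ => sum_comm
          _ = ∑ c, ∑ d, ∑ x, ∑ y, g x y c d := sum_congr rfl fun c _ => sum_comm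
      rw [h1]
      exact sum_congr rfl fun c _ => sum_congr rfl fun d _ => sum_congr rfl fun x _ =>
        sum_congr rfl fun y _ => by ring
  | succ k ih =>
    rcases w with _ | ⟨x, w⟩
    · simp [op]
    · exact ih (fun u => f (x :: u)) w

theorem op_one (k : ℕ) (f : List ι → A) (w : List ι) (hw : k + 2 ≤ w.length) :
    op (one : ι → ι → ι → ι → A) k f w = f w := by
  induction k generalizing f w with
  | zero =>
    rcases w with _ | ⟨a, _ | ⟨b, w⟩⟩
    · simp at hw
    · simp at hw
    · simp only [op, one]
      rw [sum_eq_single a, sum_eq_single b]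
      · rw [if_pos ⟨rfl, rfl⟩, one_mul]
      · intro d _ hd
        rw [if_neg (fun h => hd h.2.symm), zero_mul]
      · intro h
        exact absurd (mem_univ _) h
      · intro c _ hc
        refine sum_eq_zero fun d _ => ?_
        rw [if_neg (fun h => hc h.1.symm), zero_mul]
      · intro h
        exact absurd (mem_univ _) h
  | succ k ih =>
    rcases w with _ | ⟨x, w⟩
    · simp at hw
    · refine ih (fun u => f (x :: u)) w ?_
      rw [List.length_cons] at hw
      omega

theorem op_rt (F : FD A ι) (dd : ∀ a, F.dual (F.dual a) = a) (M : ι → ι → ι → ι → A) (k : ℕ)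
    (f : List ι → A) (w : List ι) :
    F.sl .cap (k + 2) (op M (k + 1) (F.sl .cup k f)) w = op (rt F M) k f w := by
  induction k generalizing f w with
  | zero =>
    rcases w with _ | ⟨a, _ | ⟨b, w⟩⟩
    · simp [FD.sl, op]
    · simp [FD.sl, op]
    · have hL : F.sl .cap (0 + 2) (op M (0 + 1) (F.sl .cup 0 f)) (a :: b :: w) =
          ∑ y, F.cap y * ∑ c, ∑ d, M b y c d *
            (if c = F.dual a then F.cup a * f (d :: F.dual y :: w) else 0) := rfl
      have hR : op (rt F M) 0 f (a :: b :: w) = ∑ c, ∑ d,
          (F.cup a * F.cap (F.dual d) * M b (F.dual d) (F.dual a) c) * f (c :: d :: w) := rfl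
      rw [hL, hR]
      have h1 : ∀ y, ∑ c, ∑ d, M b y c d *
            (if c = F.dual a then F.cup a * f (d :: F.dual y :: w) else 0) =
          ∑ d, M b y (F.dual a) d * (F.cup a * f (d :: F.dual y :: w)) := by
        intro y
        rw [sum_eq_single (F.dual a)]
        · exact sum_congr rfl fun d _ => by rw [if_pos rfl]
        · intro c _ hc
          exact sum_eq_zero fun d _ => by rw [if_neg hc, mul_zero]
        · intro h
          exact absurd (mem_univ _) h
      simp only [h1, mul_sum]
      rw [sum_comm]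
      refine sum_congr rfl fun c _ => ?_
      have hinv : Function.Involutive F.dual := dd
      rw [← Equiv.sum_comp hinv.toPerm]
      refine sum_congr rfl fun d _ => ?_
      rw [Function.Involutive.coe_toPerm, dd]
      ring
  | succ k ih =>
    rcases w with _ | ⟨x, w⟩
    · simp [FD.sl, op]
    · exact ih (fun u => f (x :: u)) w

theorem op_cong (M : ι → ι → ι → ι → A) (k : ℕ) {f g : List ι → A} (w : List ι)
    (h : ∀ u : List ι, u.length = w.length → f u = g u) : op M k f w = op M k g w := by
  induction k generalizing f g w with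
  | zero =>
    rcases w with _ | ⟨a, _ | ⟨b, w⟩⟩
    · simp [op]
    · simp [op]
    · simp only [op]
      exact sum_congr rfl fun c _ => sum_congr rfl fun d _ => by
        rw [h (c :: d :: w) (by simp only [List.length_cons])]
  | succ k ih =>
    rcases w with _ | ⟨x, w⟩
    · simp [op]
    · refine ih (f := fun u => f (x :: u)) (g := fun u => g (x :: u)) w ?_
      intro u hu
      exact h (x :: u) (by rw [List.length_cons, List.length_cons, hu])

theorem op_close (F : FD A ι) (dd : ∀ a, F.dual (F.dual a) = a) (M : ι → ι → ι → ι → A)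
    (f : List ι → A) (x : ι) (w : List ι) :
    F.sl .cap 1 (op M 0 (F.sl .cup 1 f)) (x :: w) =
      ∑ c, (∑ y, F.cap y * F.cup y * M x y c y) * f (c :: w) := by
  have hL : F.sl .cap 1 (op M 0 (F.sl .cup 1 f)) (x :: w) =
      ∑ y, F.cap y * ∑ c, ∑ d, M x y c d *
        (if F.dual y = F.dual d then F.cup d * f (c :: w) else 0) := rfl
  rw [hL]
  have h1 : ∀ y, ∑ c, ∑ d, M x y c d *
        (if F.dual y = F.dual d then F.cup d * f (c :: w) else 0) =
      ∑ c, M x y c y * (F.cup y * f (c :: w)) := by
    intro y
    refine sum_congr rfl fun c _ => ?_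
    rw [sum_eq_single y]
    · rw [if_pos rfl]
    · intro d _ hd
      rw [if_neg, mul_zero]
      intro h
      apply hd
      rw [← dd d, ← h, dd]
    · intro h
      exact absurd (mem_univ _) h
  simp only [h1, mul_sum]
  rw [sum_comm]
  refine sum_congr rfl fun c _ => ?_
  rw [sum_mul]
  exact sum_congr rfl fun y _ => by ring

end Pool.Agent.KAF
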