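import Pool.Agent.KAF.Defs

/-!
# KAF module TB: the algebra of two strands

Let `h : Kf F z δ θ θ'` and `P = ⟨z, δ, θ, θ'⟩`.  Matrices are functions of four labels; all
statements are equalities of entries.
* products (`mm`): `one * M = M * one = M`; `FE * FE = δ FE` (`loop`; at `a b c d`:
  `∑ x y, [b = a*] cup a [y = x*] cap x * [y = x*] cup x [d = c*] cap c`);
  `pos * FE = θ FE` (`cup1p`), `FE * pos = θ FE` (`cap1p`);
  `pos * pos = one + z pos - z θ FE`: from `pos * neg = one` (`np`) and
  `neg = pos - z one + z FE` (`skein`).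
* `mm_cmb`: bilinearity (expand `cmb`, `simp only [mul_add, add_mul, sum_add_distrib, ← mul_sum]`) and the
  products above.
* `rt_cmb`: `rt one = FE`, `rt FE = one`, `rt pos = neg`:
  `rt one a b c d = cup a * cap (d*) * [b = a*] [d* = c]` (and `d* = c` iff `d = c*`);
  `rt FE a b c d = cup a * cap (d*) * [d* = b*] [c = a**] * cup b * cap (a*) = [b = d] [c = a]` by
  `zig`; `rt pos a b c d = cup a * cap (d*) * pos b (d*) (a*) c`, and `rotn` at `(a, b, d*, c)`
  says `cup d * neg a b c d = cup a * pos b (d*) (a*) c`, with `cap (d*) * cup d = 1` (`zig`).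
* `neg_cmb`: `skein`.
* `close_cmb`: `∑ y, cap y * cup y * M x y c y` for `M = one`: `δ` if `x = c`; for `FE`:
  `y = x*`, `y = c*`: `cap x* cup x* cup x cap x = 1` (`zig` twice); for `pos`: `rotp` at
  `(x, y, y*, c)` gives `cup y * pos x y c y = cup x * neg y y* x* c`, and `cap1n` gives
  `∑ y, cap y * neg y y* x* c = [c = x** ] θ' * cap (x*)`.
-/

namespace Pool.Agent.KAF

open Finset
open Pool.Agent.EVT (FD)

variable {A ι : Type*} [CommRing A] [Fintype ι] [DecidableEq ι] {F : FD A ι} {z δ θ θ' : A}

private theorem tb_one_mul (M : ι → ι → ι → ι → A) (a b c d : ι) :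
    ∑ p, ∑ q, one (A := A) a b p q * M p q c d = M a b c d := by
  unfold one
  rw [Finset.sum_eq_single a, Finset.sum_eq_single b]
  · simp
  · intro q _ hq
    rw [if_neg (fun h => hq h.2.symm), zero_mul]
  · intro h
    exact absurd (Finset.mem_univ b) h
  · intro p _ hp
    refine Finset.sum_eq_zero fun q _ => ?_
    rw [if_neg (fun h => hp h.1.symm), zero_mul]
  · intro h
    exact absurd (Finset.mem_univ a) h

private theorem tb_mul_one (M : ι → ι → ι → ι → A) (a b c d : ι) :
    ∑ p, ∑ q, M a b p q * one (A := A) p q c d = M a b c d := by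
  unfold one
  rw [Finset.sum_eq_single c, Finset.sum_eq_single d]
  · simp
  · intro q _ hq
    rw [if_neg (fun h => hq h.2), mul_zero]
  · intro h
    exact absurd (Finset.mem_univ d) h
  · intro p _ hp
    refine Finset.sum_eq_zero fun q _ => ?_
    rw [if_neg (fun h => hp h.1), mul_zero]
  · intro h
    exact absurd (Finset.mem_univ c) h

private theorem tb_mul_FE (F : FD A ι) (M : ι → ι → ι → ι → A) (a b c d : ι) :
    ∑ p, ∑ q, M a b p q * FE F p q c d =
      if d = F.dual c then (∑ p, M a b p (F.dual p) * F.cup p) * F.cap c else 0 := by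
  have h1 : ∀ p, ∑ q, M a b p q * FE F p q c d =
      if d = F.dual c then M a b p (F.dual p) * F.cup p * F.cap c else 0 := by
    intro p
    unfold FE
    rw [Finset.sum_eq_single (F.dual p)]
    · by_cases h : d = F.dual c
      · rw [if_pos ⟨rfl, h⟩, if_pos h, mul_assoc]
      · rw [if_neg (fun h' => h h'.2), if_neg h, mul_zero]
    · intro q _ hq
      rw [if_neg (fun h => hq h.1), mul_zero]
    · intro h
      exact absurd (Finset.mem_univ _) h
  simp only [h1]
  by_cases h : d = F.dual c
  · simp only [if_pos h, Finset.sum_mul]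
  · simp only [if_neg h, Finset.sum_const_zero]

private theorem tb_FE_mul (F : FD A ι) (M : ι → ι → ι → ι → A) (a b c d : ι) :
    ∑ p, ∑ q, FE F a b p q * M p q c d =
      if b = F.dual a then F.cup a * ∑ p, F.cap p * M p (F.dual p) c d else 0 := by
  have h1 : ∀ p, ∑ q, FE F a b p q * M p q c d =
      if b = F.dual a then F.cup a * (F.cap p * M p (F.dual p) c d) else 0 := by
    intro p
    unfold FE
    rw [Finset.sum_eq_single (F.dual p)]
    · by_cases h : b = F.dual a
      · rw [if_pos ⟨h, rfl⟩, if_pos h, mul_assoc]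
      · rw [if_neg (fun h' => h h'.1), if_neg h, zero_mul]
    · intro q _ hq
      rw [if_neg (fun h => hq h.2), zero_mul]
    · intro h
      exact absurd (Finset.mem_univ _) h
  simp only [h1]
  by_cases h : b = F.dual a
  · simp only [if_pos h, Finset.mul_sum]
  · simp only [if_neg h, Finset.sum_const_zero]

private theorem tb_neg (h : Kf F z δ θ θ') (a b c d : ι) :
    F.neg a b c d = F.pos a b c d - z * (one a b c d - FE F a b c d) := by
  rw [← h.skein a b c d]
  ring

private theorem tb_FE_FE (h : Kf F z δ θ θ') (a b c d : ι) :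
    ∑ p, ∑ q, FE F a b p q * FE F p q c d = δ * FE F a b c d := by
  rw [tb_mul_FE]
  have h1 : ∑ p, FE F a b p (F.dual p) * F.cup p = if b = F.dual a then F.cup a * δ else 0 := by
    unfold FE
    by_cases hb : b = F.dual a
    · simp only [hb, true_and, if_true]
      rw [← h.loop, Finset.mul_sum]
      exact Finset.sum_congr rfl fun p _ => mul_assoc _ _ _
    · simp only [hb, false_and, if_false, zero_mul, Finset.sum_const_zero]
  rw [h1]
  unfold FE
  by_cases hd : d = F.dual c <;> by_cases hb : b = F.dual a <;> simp [hd, hb]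
  ring

private theorem tb_pos_FE (h : Kf F z δ θ θ') (a b c d : ι) :
    ∑ p, ∑ q, F.pos a b p q * FE F p q c d = θ * FE F a b c d := by
  rw [tb_mul_FE, h.cup1p]
  unfold FE
  by_cases hd : d = F.dual c <;> by_cases hb : b = F.dual a <;> simp [hd, hb]
  ring

private theorem tb_FE_pos (h : Kf F z δ θ θ') (a b c d : ι) :
    ∑ p, ∑ q, FE F a b p q * F.pos p q c d = θ * FE F a b c d := by
  rw [tb_FE_mul, h.cap1p]
  unfold FE
  by_cases hd : d = F.dual c <;> by_cases hb : b = F.dual a <;> simp [hd, hb]
  ring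

private theorem tb_pos_pos (h : Kf F z δ θ θ') (a b c d : ι) :
    ∑ p, ∑ q, F.pos a b p q * F.pos p q c d =
      one a b c d + z * F.pos a b c d - z * θ * FE F a b c d := by
  have h1 := h.np a b c d
  have h2 : ∀ p q, F.pos a b p q * F.neg p q c d = F.pos a b p q * F.pos p q c d -
      z * (F.pos a b p q * one p q c d) + z * (F.pos a b p q * FE F p q c d) := by
    intro p q
    rw [tb_neg h]
    ring
  simp only [h2, Finset.sum_add_distrib, Finset.sum_sub_distrib, ← Finset.mul_sum] at h1
  rw [tb_mul_one, tb_pos_FE h] at h1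
  have h3 : one (A := A) a b c d = if a = c ∧ b = d then 1 else 0 := rfl
  rw [h3, ← h1]
  ring

theorem mm_cmb (h : Kf F z δ θ θ') (x y : A × A × A) (a b c d : ι) :
    mm (cmb F x) (cmb F y) a b c d = cmb F ((⟨z, δ, θ, θ'⟩ : Par A).mul x y) a b c d := by
  unfold mm
  have h1 : ∀ p q, cmb F x a b p q * cmb F y p q c d =
      x.1 * (one a b p q * cmb F y p q c d) +
      (x.2.1 * y.1) * (FE F a b p q * one p q c d) +
      (x.2.1 * y.2.1) * (FE F a b p q * FE F p q c d) +
      (x.2.1 * y.2.2) * (FE F a b p q * F.pos p q c d) +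
      (x.2.2 * y.1) * (F.pos a b p q * one p q c d) +
      (x.2.2 * y.2.1) * (F.pos a b p q * FE F p q c d) +
      (x.2.2 * y.2.2) * (F.pos a b p q * F.pos p q c d) := by
    intro p q
    unfold cmb
    ring
  simp only [h1, Finset.sum_add_distrib, ← Finset.mul_sum]
  rw [tb_one_mul, tb_mul_one, tb_FE_FE h, tb_FE_pos h, tb_mul_one, tb_pos_FE h, tb_pos_pos h]
  unfold cmb Par.mul
  ring

theorem rt_cmb (h : Kf F z δ θ θ') (x : A × A × A) (a b c d : ι) :
    rt F (cmb F x) a b c d = cmb F ((⟨z, δ, θ, θ'⟩ : Par A).rot x) a b c d := by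
  have h1 : F.cup a * F.cap (F.dual d) * one (A := A) b (F.dual d) (F.dual a) c =
      FE F a b c d := by
    unfold one FE
    by_cases h2 : b = F.dual a ∧ F.dual d = c
    · have h3 : b = F.dual a ∧ d = F.dual c := ⟨h2.1, by rw [← h2.2, h.dd]⟩
      rw [if_pos h2, if_pos h3, h2.2, mul_one]
    · have h3 : ¬ (b = F.dual a ∧ d = F.dual c) := fun h' => h2 ⟨h'.1, by rw [h'.2, h.dd]⟩
      rw [if_neg h2, if_neg h3, mul_zero]
  have h2 : F.cup a * F.cap (F.dual d) * FE F b (F.dual d) (F.dual a) c = one (A := A) a b c d := by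
    unfold one FE
    by_cases h2 : F.dual d = F.dual b ∧ c = F.dual (F.dual a)
    · have h4 : d = b := by rw [← h.dd d, h2.1, h.dd]
      have h5 : a = c := by rw [h2.2, h.dd]
      subst h4
      subst h5
      rw [if_pos h2, if_pos ⟨rfl, rfl⟩]
      have h6 := h.zig a
      have h7 := h.zig d
      calc F.cup a * F.cap (F.dual d) * (F.cup d * F.cap (F.dual a)) =
          (F.cap (F.dual a) * F.cup a) * (F.cap (F.dual d) * F.cup d) := by ring
        _ = 1 := by rw [h6, h7, one_mul]
    · have h3 : ¬ (a = c ∧ b = d) := by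
        rintro ⟨h4, h5⟩
        exact h2 ⟨by rw [h5], by rw [h.dd, h4]⟩
      rw [if_neg h2, if_neg h3, mul_zero]
  have h3 : F.cup a * F.cap (F.dual d) * F.pos b (F.dual d) (F.dual a) c = F.neg a b c d := by
    have h4 := h.rotn a b (F.dual d) c
    rw [h.dd] at h4
    have h5 := h.zig d
    calc F.cup a * F.cap (F.dual d) * F.pos b (F.dual d) (F.dual a) c =
        F.cap (F.dual d) * (F.cup a * F.pos b (F.dual d) (F.dual a) c) := by ring
      _ = F.cap (F.dual d) * (F.cup d * F.neg a b c d) := by rw [← h4]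
      _ = (F.cap (F.dual d) * F.cup d) * F.neg a b c d := by ring
      _ = F.neg a b c d := by rw [h5, one_mul]
  have h4 : rt F (cmb F x) a b c d =
      x.1 * (F.cup a * F.cap (F.dual d) * one (A := A) b (F.dual d) (F.dual a) c) +
      x.2.1 * (F.cup a * F.cap (F.dual d) * FE F b (F.dual d) (F.dual a) c) +
      x.2.2 * (F.cup a * F.cap (F.dual d) * F.pos b (F.dual d) (F.dual a) c) := by
    unfold rt cmb
    ring
  rw [h4, h1, h2, h3, tb_neg h]
  unfold cmb Par.rot
  ring

theorem neg_cmb (h : Kf F z δ θ θ') (a b c d : ι) :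
    F.neg a b c d = cmb F (-z, z, 1) a b c d := by
  rw [tb_neg h]
  unfold cmb
  ring

theorem pos_cmb (a b c d : ι) : F.pos a b c d = cmb F (0, 0, 1) a b c d := by
  unfold cmb
  ring

theorem one_cmb (a b c d : ι) : one a b c d = cmb F (1, 0, 0) a b c d := by
  unfold cmb
  ring

theorem close_cmb (h : Kf F z δ θ θ') (x : A × A × A) (a c : ι) :
    ∑ y, F.cap y * F.cup y * cmb F x a y c y =
      if a = c then δ * x.1 + x.2.1 + θ' * x.2.2 else 0 := by
  have h1 : ∑ y, F.cap y * F.cup y * one (A := A) a y c y = if a = c then δ else 0 := by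
    unfold one
    by_cases hac : a = c
    · simp only [hac, and_self, if_true, mul_one]
      exact h.loop
    · simp only [hac, false_and, if_false, mul_zero, Finset.sum_const_zero]
  have h2 : ∑ y, F.cap y * F.cup y * FE F a y c y = if a = c then 1 else 0 := by
    unfold FE
    by_cases hac : a = c
    · subst hac
      rw [Finset.sum_eq_single (F.dual a)]
      · rw [if_pos ⟨rfl, rfl⟩, if_pos rfl]
        have h3 := h.zig a
        have h4 := h.zig (F.dual a)
        rw [h.dd] at h4
        calc F.cap (F.dual a) * F.cup (F.dual a) * (F.cup a * F.cap a) =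
            (F.cap (F.dual a) * F.cup a) * (F.cap a * F.cup (F.dual a)) := by ring
          _ = 1 := by rw [h3, h4, one_mul]
      · intro y _ hy
        rw [if_neg (fun h' => hy h'.1), mul_zero]
      · intro h'
        exact absurd (Finset.mem_univ _) h'
    · rw [if_neg hac]
      refine Finset.sum_eq_zero fun y _ => ?_
      rw [if_neg, mul_zero]
      rintro ⟨h3, h4⟩
      refine hac ?_
      rw [← h.dd a, ← h3, h4, h.dd]
  have h3 : ∑ y, F.cap y * F.cup y * F.pos a y c y = if a = c then θ' else 0 := by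
    have h4 : ∀ y, F.cap y * F.cup y * F.pos a y c y =
        F.cup a * (F.cap y * F.neg y (F.dual y) (F.dual a) c) := by
      intro y
      have h5 := h.rotp a y (F.dual y) c
      rw [h.dd] at h5
      rw [mul_assoc, h5]
      ring
    simp only [h4, ← Finset.mul_sum]
    rw [h.cap1n, h.dd]
    by_cases hac : a = c
    · rw [if_pos hac, if_pos hac.symm]
      have h6 := h.zig a
      calc F.cup a * (θ' * F.cap (F.dual a)) = θ' * (F.cap (F.dual a) * F.cup a) := by ring
        _ = θ' := by rw [h6, mul_one]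
    · rw [if_neg hac, if_neg (fun h' => hac h'.symm), mul_zero]
  have h4 : ∀ y, F.cap y * F.cup y * cmb F x a y c y =
      x.1 * (F.cap y * F.cup y * one (A := A) a y c y) +
      x.2.1 * (F.cap y * F.cup y * FE F a y c y) +
      x.2.2 * (F.cap y * F.cup y * F.pos a y c y) := by
    intro y
    unfold cmb
    ring
  simp only [h4, Finset.sum_add_distrib, ← Finset.mul_sum]
  rw [h1, h2, h3]
  by_cases hac : a = c
  · simp only [if_pos hac]
    ring
  · simp only [if_neg hac]
    ring

end Pool.Agent.KAF
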