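import Pool.Agent.KAF.TA
import Pool.Agent.KAF.TB

/-!
# KAF module TC: the operator of a plumbing tree

* `tw_RT`: `twist k s a = List.replicate a.natAbs (k, p)`; induction on the number of crossings
  (`RT_append`, `List.replicate_succ'`): one more crossing on top multiplies by `pos` or `neg`
  (`sl_pos`, `sl_neg`, `op_mm`, `pos_cmb`, `neg_cmb`, `mm_cmb`; the algebra is commutative:
  `Par.mul_comm'`).  For no crossing `op_one`.
* `tangle_RT`: induction on the tree, generalizing `k`, `s`, `f`, `w`.  For `graft p c`: `RT_append`;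
  the top piece `cap (k + 2)` of the function `RT (tangle (k + 1) (!s) c) (...)`, whose values at words
  of length `w.length + 2` are given by the induction hypothesis (`FD.sl_congr`); then `op_rt`,
  `rt_cmb`, the induction hypothesis for `p` (`op_cong`), `op_mm`, `mm_cmb` and commutativity.
* `plumb_RT`: `tangle_RT` for `k = 0` (at words of length `3`), `op_close`, `close_cmb`.
-/

namespace Pool.Agent.KAF

open Finset
open Pool.Agent.Helper9.Kashaev (Piece Diagram twist tangle plumbLink)
open Pool.Agent.Helper9.TG (PTree)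
open Pool.Agent.EVT (FD)

variable {A ι : Type*} [CommRing A] [Fintype ι] [DecidableEq ι] {F : FD A ι} {z δ θ θ' : A}

theorem Par.mul_comm' (P : Par A) (x y : A × A × A) : P.mul x y = P.mul y x := by
  simp only [Par.mul, Prod.mk.injEq]
  refine ⟨by ring, by ring, by ring⟩

private theorem tw_aux (h : Kf F z δ θ θ') (k : ℕ) (b : Bool) (n : ℕ) (f : List ι → A)
    (w : List ι) (hw : k + 2 ≤ w.length) :
    F.RT (List.replicate n (k, if b then Piece.pos else Piece.neg)) f w =
      op (cmb F ((⟨z, δ, θ, θ'⟩ : Par A).tw b n)) k f w := by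
  induction n generalizing f with
  | zero =>
    have h1 : cmb F ((⟨z, δ, θ, θ'⟩ : Par A).tw b 0) = one := by
      funext p q r s
      exact (one_cmb p q r s).symm
    rw [h1, op_one k f w hw]
    rfl
  | succ n ih =>
    have h2 : F.sl (if b then Piece.pos else Piece.neg) k f =
        op (cmb F (if b then (0, 0, 1) else (-z, z, 1))) k f := by
      funext u
      cases b with
      | true =>
        have h3 : cmb F ((0, 0, 1) : A × A × A) = F.pos := by
          funext p q r s
          exact (pos_cmb p q r s).symm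
        simp only [if_true]
        rw [h3]
        exact sl_pos F k f u
      | false =>
        have h3 : cmb F ((-z, z, 1) : A × A × A) = F.neg := by
          funext p q r s
          exact (neg_cmb h p q r s).symm
        simp only [Bool.false_eq_true, if_false]
        rw [h3]
        exact sl_neg F k f u
    have h4 : F.RT (List.replicate (n + 1) (k, if b then Piece.pos else Piece.neg)) f w =
        F.RT (List.replicate n (k, if b then Piece.pos else Piece.neg))
          (F.sl (if b then Piece.pos else Piece.neg) k f) w := rfl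
    rw [h4, h2, ih, op_mm]
    have h5 : mm (cmb F ((⟨z, δ, θ, θ'⟩ : Par A).tw b n))
        (cmb F (if b then (0, 0, 1) else (-z, z, 1))) =
        cmb F ((⟨z, δ, θ, θ'⟩ : Par A).tw b (n + 1)) := by
      funext p q r s
      exact mm_cmb h _ _ p q r s
    rw [h5]

theorem tw_RT (h : Kf F z δ θ θ') (k : ℕ) (s : Bool) (a : ℤ) (f : List ι → A) (w : List ι)
    (hw : k + 2 ≤ w.length) :
    F.RT (twist k s a) f w =
      op (cmb F ((⟨z, δ, θ, θ'⟩ : Par A).tw (decide (decide (0 < a) = s)) a.natAbs)) k f w := by
  rw [← tw_aux h k (decide (decide (0 < a) = s)) a.natAbs f w hw]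
  unfold twist
  simp only [decide_eq_true_eq]

theorem tangle_RT (h : Kf F z δ θ θ') (t : PTree) (k : ℕ) (s : Bool) (f : List ι → A)
    (w : List ι) (hw : k + 2 ≤ w.length) :
    F.RT (tangle k s t) f w = op (cmb F ((⟨z, δ, θ, θ'⟩ : Par A).tr s t)) k f w := by
  induction t generalizing k s f w with
  | leaf a => exact tw_RT h k s a f w hw
  | graft p c ihp ihc =>
    have h1 : F.RT (tangle k s (.graft p c)) f =
        F.sl .cap (k + 2) (F.RT (tangle (k + 1) (!s) c) (F.sl .cup k (F.RT (tangle k s p) f))) := by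
      have h2 : tangle k s (.graft p c) =
          tangle k s p ++ [(k, .cup)] ++ tangle (k + 1) (!s) c ++ [(k + 2, .cap)] := rfl
      rw [h2, FD.RT_append, FD.RT_append, FD.RT_append]
      rfl
    rw [h1]
    have h3 : F.sl .cap (k + 2)
        (F.RT (tangle (k + 1) (!s) c) (F.sl .cup k (F.RT (tangle k s p) f))) w =
        F.sl .cap (k + 2) (op (cmb F ((⟨z, δ, θ, θ'⟩ : Par A).tr (!s) c)) (k + 1)
          (F.sl .cup k (F.RT (tangle k s p) f))) w := by
      refine F.sl_congr .cap (n := w.length + 2) ?_ ?_ w ?_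
      · simp only [Pool.Agent.Helper77.ST.nin]
        omega
      · intro u hu
        exact ihc (k + 1) (!s) _ u (by omega)
      · simp only [Pool.Agent.Helper77.ST.nin, Pool.Agent.Helper77.ST.nout]
    rw [h3, op_rt F h.dd]
    have h4 : op (rt F (cmb F ((⟨z, δ, θ, θ'⟩ : Par A).tr (!s) c))) k
        (F.RT (tangle k s p) f) w =
        op (rt F (cmb F ((⟨z, δ, θ, θ'⟩ : Par A).tr (!s) c))) k
          (op (cmb F ((⟨z, δ, θ, θ'⟩ : Par A).tr s p)) k f) w := by
      refine op_cong _ k w ?_
      intro u hu
      exact ihp k s f u (by omega)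
    rw [h4, op_mm]
    have h5 : mm (rt F (cmb F ((⟨z, δ, θ, θ'⟩ : Par A).tr (!s) c)))
        (cmb F ((⟨z, δ, θ, θ'⟩ : Par A).tr s p)) =
        cmb F ((⟨z, δ, θ, θ'⟩ : Par A).tr s (.graft p c)) := by
      have h6 : rt F (cmb F ((⟨z, δ, θ, θ'⟩ : Par A).tr (!s) c)) =
          cmb F ((⟨z, δ, θ, θ'⟩ : Par A).rot ((⟨z, δ, θ, θ'⟩ : Par A).tr (!s) c)) := by
        funext x y u v
        exact rt_cmb h _ x y u v
      rw [h6]
      funext x y u v
      rw [mm_cmb h, Par.mul_comm']
      rfl
    rw [h5]

theorem plumb_RT (h : Kf F z δ θ θ') (t : PTree) (f : List ι → A) (x : ι) :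
    F.RT (plumbLink t) f [x] = (⟨z, δ, θ, θ'⟩ : Par A).val t * f [x] := by
  have h1 : F.RT (plumbLink t) f [x] =
      F.sl .cap 1 (F.RT (tangle 0 true t) (F.sl .cup 1 f)) [x] := by
    unfold plumbLink
    rw [FD.RT_append, FD.RT_append]
    rfl
  have h2 : F.sl .cap 1 (F.RT (tangle 0 true t) (F.sl .cup 1 f)) [x] =
      F.sl .cap 1 (op (cmb F ((⟨z, δ, θ, θ'⟩ : Par A).tr true t)) 0 (F.sl .cup 1 f)) [x] := by
    refine F.sl_congr .cap (n := 3) ?_ ?_ [x] ?_
    · simp only [Pool.Agent.Helper77.ST.nin]
      omega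
    · intro u hu
      exact tangle_RT h t 0 true _ u (by omega)
    · simp only [Pool.Agent.Helper77.ST.nin, Pool.Agent.Helper77.ST.nout, List.length_cons,
        List.length_nil]
  rw [h1, h2, op_close F h.dd]
  simp only [close_cmb h]
  rw [sum_eq_single x]
  · rw [if_pos rfl]
    rfl
  · intro c _ hc
    rw [if_neg (fun h' => hc h'.symm), zero_mul]
  · intro h'
    exact absurd (mem_univ _) h'

end Pool.Agent.KAF
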