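import Pool.Agent.KAF.RF
import Pool.Agent.KAF.FA
import Pool.Agent.KAF.FB
import Pool.Agent.KAF.TC
import Pool.Agent.EVT.WI
import Pool.Agent.EVT.GF

/-!
# KAF module VA: the coefficients of `vK` are Vassiliev invariants

Exactly as the second half of `Pool/Agent/EVT/WI.lean` (`WF_map`, `val_map`, `val_isotopic`, `VI`,
`vi_vassiliev`, `val_tU_eq`, `val_real_eq`), with `KP n q` instead of `WF N q`.
* `kf_map`: `wi_map_zp`, `wi_map_zz`, `wi_map_xW`.
* `kp_dvd`: at `q = 1` the matrices `pos` and `neg` of `KP n` agree: it is enough that those of `KF n`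
  agree (`wi_one_xW`, `zz 1 = 0`); then the differences have constant coefficient `0`.
* `vK_plumb`: `vK` is the value of `(prd F (bar F)).RT` at the function
  `ket A [(x, x)] = (ket A [x]) ⊗ (ket A [x])` (on all words); `prd_RT`, `plumb_RT` for `KF n q` and for
  `bar (KF n q)` (`bar_kf`).
-/

namespace Pool.Agent.KAF

open Finset
open Pool.Agent.Helper9.Kashaev (Piece Diagram plumbLink)
open Pool.Agent.Helper9.TG (PTree)
open Pool.Agent.Helper77.ST (Isotopic IsVassiliev SDiagram alt dbls tU psU)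
open Pool.Agent.EVT (FD zp zz ket)

variable {A : Type*} [CommRing A]

theorem kp_inv (n : ℕ) (q : Aˣ) : (KP n q).Inv := prd_inv (kf_kf n q) (kf_r3 n q)

theorem map_cK {B : Type*} [CommRing B] (φ : A →+* B) {n : ℕ} (q : Aˣ) (a : Bool × Fin n) :
    φ (cK q a) = cK (Units.map (φ : A →* B) q) a := by
  unfold cK
  simp only [apply_ite φ, map_one, EVT.wi_map_zp]

theorem map_eK {B : Type*} [CommRing B] (φ : A →+* B) {n : ℕ} (q : Aˣ) (a : Bool × Fin n) :
    φ (eK q a) = eK (Units.map (φ : A →* B) q) a := by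
  unfold eK
  simp only [apply_ite φ, map_one, EVT.wi_map_zp]

theorem map_xK {B : Type*} [CommRing B] (φ : A →+* B) {n : ℕ} (q : Aˣ) (s : Bool)
    (a b c d : Bool × Fin n) :
    φ (xK q s a b c d) = xK (Units.map (φ : A →* B) q) s a b c d := by
  unfold xK
  rw [map_mul, EVT.wi_map_zp, EVT.wi_map_xW]

theorem map_tK {B : Type*} [CommRing B] (φ : A →+* B) {n : ℕ} (q : Aˣ) (u : Bool)
    (a b c d : Bool × Fin n) :
    φ (tK q u a b c d) = tK (Units.map (φ : A →* B) q) u a b c d := by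
  unfold tK
  simp only [apply_ite φ, map_sub, map_mul, map_one, map_zero, map_cK, map_eK]

theorem kf_map {B : Type*} [CommRing B] (φ : A →+* B) (n : ℕ) (q : Aˣ) :
    (KF n q).map φ = KF n (Units.map (φ : A →* B) q) := by
  unfold KF FD.map
  simp only [FD.mk.injEq, true_and]
  refine ⟨?_, ?_, ?_, ?_⟩
  · funext a
    exact map_cK φ q a
  · funext a
    exact map_eK φ q a
  · funext a b c d
    rw [map_add, map_mul, EVT.wi_map_zz, map_xK, map_tK]
  · funext a b c d
    rw [map_sub, map_mul, EVT.wi_map_zz, map_xK, map_tK]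

theorem barF_map {B ι : Type*} [CommRing B] (φ : A →+* B) (F : FD A ι) :
    (bar F).map φ = bar (F.map φ) := rfl

theorem prd_map {B ι κ : Type*} [CommRing B] (φ : A →+* B) (F : FD A ι) (G : FD A κ) :
    (prd F G).map φ = prd (F.map φ) (G.map φ) := by
  unfold prd FD.map
  simp only [map_mul]

theorem kp_map {B : Type*} [CommRing B] (φ : A →+* B) (n : ℕ) (q : Aˣ) :
    (KP n q).map φ = KP n (Units.map (φ : A →* B) q) := by
  unfold KP
  rw [prd_map, barF_map, kf_map]

theorem vK_map {B : Type*} [CommRing B] (φ : A →+* B) (n : ℕ) [NeZero n] (q : Aˣ)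
    (D : Diagram) : φ (vK n q D) = vK n (Units.map (φ : A →* B) q) D := by
  unfold vK
  rw [FD.map_RT, kp_map]
  congr 1
  funext u
  unfold ket
  simp only [apply_ite φ, map_one, map_zero]

theorem vK_isotopic (n : ℕ) [NeZero n] (q : Aˣ) {D D' : Diagram} (h : Isotopic D D') :
    vK n q D = vK n q D' :=
  (kp_inv n q).isotopic h _ _ rfl

theorem vK_nil (n : ℕ) [NeZero n] (q : Aˣ) : vK n q [] = 1 := by
  unfold vK ket FD.RT
  simp

/-- a coefficient of the value at `q = 1 + X` -/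
noncomputable def VK (n : ℕ) [NeZero n] (j : ℕ) (D : Diagram) : ℚ :=
  PowerSeries.coeff j (vK n psU D)

theorem kf_one (n : ℕ) (a b c d : Bool × Fin n) :
    (KF n (1 : ℚˣ)).pos a b c d = (KF n (1 : ℚˣ)).neg a b c d := by
  have hz : zz (1 : ℚˣ) = 0 := by
    unfold zz
    rw [EVT.wi_one_zp, EVT.wi_one_zp, sub_self]
  change xK 1 true a b c d + zz 1 * tK 1 true a b c d =
    xK 1 false a b c d - zz 1 * tK 1 false a b c d
  rw [hz, zero_mul, zero_mul, add_zero, sub_zero]
  unfold xK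
  rw [EVT.wi_one_zp, EVT.wi_one_zp, EVT.wi_one_xW]

theorem kp_dvd (n : ℕ) (a b c d : (Bool × Fin n) × (Bool × Fin n)) :
    (PowerSeries.X : PowerSeries ℚ) ∣ (KP n psU).pos a b c d - (KP n psU).neg a b c d := by
  rw [PowerSeries.X_dvd_iff, map_sub]
  have h : Units.map ((PowerSeries.constantCoeff (R := ℚ) : PowerSeries ℚ →+* ℚ) :
      PowerSeries ℚ →* ℚ) psU = 1 := by
    ext
    change PowerSeries.constantCoeff (1 + PowerSeries.X : PowerSeries ℚ) = 1
    simp
  have h1 := kp_map (PowerSeries.constantCoeff (R := ℚ) : PowerSeries ℚ →+* ℚ) n psU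
  rw [h] at h1
  have hp : PowerSeries.constantCoeff ((KP n psU).pos a b c d) = (KP n (1 : ℚˣ)).pos a b c d :=
    congrArg (fun F : FD ℚ ((Bool × Fin n) × (Bool × Fin n)) => F.pos a b c d) h1
  have hn : PowerSeries.constantCoeff ((KP n psU).neg a b c d) = (KP n (1 : ℚˣ)).neg a b c d :=
    congrArg (fun F : FD ℚ ((Bool × Fin n) × (Bool × Fin n)) => F.neg a b c d) h1
  rw [hp, hn]
  change (KF n 1).pos a.1 b.1 c.1 d.1 * (KF n 1).neg a.2 b.2 c.2 d.2 -
    (KF n 1).neg a.1 b.1 c.1 d.1 * (KF n 1).pos a.2 b.2 c.2 d.2 = 0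
  rw [kf_one, kf_one, sub_self]

theorem vk_alt (n : ℕ) [NeZero n] (j : ℕ) (D : Diagram) (S : SDiagram) (h : j < dbls S) :
    alt (VK n j) D S = 0 := by
  have h1 : alt (VK n j) D S = PowerSeries.coeff j (alt (vK n psU) D S) :=
    EVT.wi_alt_coeff j (vK n psU) S D
  have h2 : alt (vK n psU) D S = (KP n psU).sRT S ((KP n psU).RT D
      (ket (PowerSeries ℚ) [((true, 0), (true, 0))])) [((true, 0), (true, 0))] :=
    (KP n psU).alt_RT (ket (PowerSeries ℚ) [((true, 0), (true, 0))]) [((true, 0), (true, 0))] D S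
  rw [h1, h2]
  exact PowerSeries.X_pow_dvd_iff.mp ((KP n psU).sRT_dvd PowerSeries.X (kp_dvd n) S _ _) j h

theorem vk_vassiliev (n : ℕ) [NeZero n] (j : ℕ) : IsVassiliev j (VK n j) where
  inv := fun _ _ _ _ h => by
    unfold VK
    rw [vK_isotopic n psU h]
  fin := fun S _ hS => vk_alt n j [] S hS

theorem vK_real_eq (n : ℕ) [NeZero n] {D D' : Diagram} (h : ∀ j, VK n j D = VK n j D')
    (q : ℝˣ) : vK n q D = vK n q D' := by
  have h0 : vK n tU D = vK n tU D' := by
    apply Pool.Agent.Helper77.ST.laurent_ps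
    rw [vK_map, vK_map, EVT.wi_eval_tU]
    ext j
    exact h j
  have h1 := congrArg (LaurentPolynomial.eval₂ (algebraMap ℚ ℝ) q) h0
  rwa [vK_map, vK_map, EVT.wi_eval_tU] at h1

/-- the parameters of `so(2 n)` -/
def parK (n : ℕ) (q : Aˣ) : Par A := ⟨zz q, dK n q, zp q (1 - 2 * n), zp q (2 * n - 1)⟩

theorem ket_prod {ι : Type*} [DecidableEq ι] (x : ι) (u : List (ι × ι)) :
    ket A [(x, x)] u = ket A [x] (u.map Prod.fst) * ket A [x] (u.map Prod.snd) := by
  unfold ket
  match u with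
  | [] => simp
  | [(a, b)] =>
    by_cases h1 : a = x <;> by_cases h2 : b = x <;> simp [h1, h2]
  | a :: b :: u => simp

theorem vK_plumb (n : ℕ) [NeZero n] (q : Aˣ) (t : PTree) :
    vK n q (plumbLink t) = (parK n q).val t * (parK n q).bar.val t := by
  unfold vK KP
  have h1 : (ket A [((true, (0 : Fin n)), (true, (0 : Fin n)))]) =
      fun u => ket A [(true, (0 : Fin n))] (u.map Prod.fst) *
        ket A [(true, (0 : Fin n))] (u.map Prod.snd) := by
    funext u
    exact ket_prod _ u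
  rw [h1, prd_RT]
  have h2 := plumb_RT (kf_kf n q) t (ket A [(true, (0 : Fin n))]) (true, 0)
  have h3 := plumb_RT (bar_kf (kf_kf n q)) t (ket A [(true, (0 : Fin n))]) (true, 0)
  have h4 : ket A [(true, (0 : Fin n))] [(true, 0)] = 1 := by
    unfold ket
    simp
  rw [h4, mul_one] at h2 h3
  simp only [List.map_cons, List.map_nil]
  rw [h2, h3]
  rfl

end Pool.Agent.KAF
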