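import Pool.Agent.KAF.VA

/-!
# KAF module VB: the real identity for a knot which is not detected

For `N = n + 1`: `vK_real_eq` (all `VK N j` agree), `vK_plumb`, `vK_nil`, and
`parK N (Units.mk0 q _) = par (q ^ (2 n + 1)) (q - q⁻¹)`: `zp (Units.mk0 q _) x = q ^ x` in `ℝ`, and the
second entry from `zz_dK` (`zz q = q - q⁻¹ ≠ 0`).
-/

namespace Pool.Agent.KAF

open Pool.Agent.Helper9.Kashaev (Piece Diagram plumbLink)
open Pool.Agent.Helper9.TG (PTree)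
open Pool.Agent.Helper77.ST (IsVassiliev)

theorem zp_mk0 {q : ℝ} (hq : q ≠ 0) (x : ℤ) : EVT.zp (Units.mk0 q hq) x = q ^ x := by
  unfold EVT.zp
  rw [Units.val_zpow_eq_zpow_val, Units.val_mk0]

theorem parK_eq (n : ℕ) {q : ℝ} (hq : 1 < q) :
    parK (n + 1) (Units.mk0 q (by positivity)) = par (q ^ (2 * n + 1)) (q - q⁻¹) := by
  have h0 : q ≠ 0 := by positivity
  have hz : EVT.zz (Units.mk0 q h0) = q - q⁻¹ := by
    unfold EVT.zz
    rw [zp_mk0, zp_mk0, zpow_one, zpow_neg_one]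
  have hz0 : q - q⁻¹ ≠ 0 := by
    have h1 : q⁻¹ < 1 := inv_lt_one_of_one_lt₀ hq
    have h2 : 0 < q - q⁻¹ := by linarith
    exact h2.ne'
  have h1 : EVT.zp (Units.mk0 q h0) (2 * ((n + 1 : ℕ) : ℤ) - 1) = q ^ (2 * n + 1) := by
    rw [zp_mk0, ← zpow_natCast]
    congr 1
    push_cast
    ring
  have h2 : EVT.zp (Units.mk0 q h0) (1 - 2 * ((n + 1 : ℕ) : ℤ)) = (q ^ (2 * n + 1))⁻¹ := by
    rw [zp_mk0, ← zpow_natCast, ← zpow_neg,
      show (1 - 2 * ((n + 1 : ℕ) : ℤ)) = -((2 * n + 1 : ℕ) : ℤ) by push_cast; ring]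
  have h3 := zz_dK (n + 1) (Units.mk0 q h0)
  rw [hz, h1, h2] at h3
  unfold parK par
  rw [hz, h1, h2]
  congr 1
  have h4 : dK (n + 1) (Units.mk0 q h0) =
      ((q - q⁻¹) + (q ^ (2 * n + 1) - (q ^ (2 * n + 1))⁻¹)) / (q - q⁻¹) := by
    rw [eq_div_iff hz0, mul_comm, h3]
    ring
  rw [h4, add_div, div_self hz0]

theorem real_id (t : PTree) (h : ∀ e I, IsVassiliev e I → I (plumbLink t) = I []) (q : ℝ)
    (hq : 1 < q) (n : ℕ) :
    (par (q ^ (2 * n + 1)) (q - q⁻¹)).val t * (par (q ^ (2 * n + 1)) (q - q⁻¹)).bar.val t = 1 := by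
  have h1 := vK_real_eq (n + 1) (D := plumbLink t) (D' := [])
    (fun j => h j _ (vk_vassiliev (n + 1) j)) (Units.mk0 q (by positivity))
  rw [vK_nil, vK_plumb, parK_eq n hq] at h1
  exact h1

end Pool.Agent.KAF
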