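import Pool.Agent.KAF.Defs

/-!
# KAF module VC: from the real identity to the complex one

Call a function `g : ℂ → ℂ → ℂ` rational (`Rt g`) if there are `N` and a polynomial
`p : Polynomial (Polynomial ℂ)` (or two-variable data of another kind) with
`g a z * (a * z) ^ N = (p.map (Polynomial.evalRingHom z)).eval a` for all `a, z ≠ 0`.  This class contains
constants, `a`, `z`, `a⁻¹`, `1 + (a - a⁻¹) / z` and is closed under sums and products.  By induction on
the tree the three entries of `(par a z).tr s t` and of `(par a z).bar.tr s t` are rational, hence so is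
`g a z = (par a z).val t * (par a z).bar.val t - 1`.
If `g (q ^ (2 n + 1)) (q - q⁻¹) = 0` for all real `q > 1` and all `n`: fix `q`; the polynomial
`a ↦ g a z * (a z) ^ N` for `z = q - q⁻¹` has infinitely many zeros, so `g a z = 0` for all `a ≠ 0` and
all `z` of the form `q - q⁻¹`; fix `a ≠ 0`: the polynomial `z ↦ g a z * (a z) ^ N` has infinitely many
zeros (`Polynomial.eq_zero_of_infinite_isRoot`), so `g = 0`.
(The hypothesis is in `ℝ`; `par` commutes with `Complex.ofRealHom`: `Par.map`, `tr_map`, `val_map`.)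
-/

namespace Pool.Agent.KAF

open Pool.Agent.Helper9.TG (PTree)

theorem mul_map {A B : Type*} [CommRing A] [CommRing B] (φ : A →+* B) (P : Par A)
    (x y : A × A × A) : (P.map φ).mul (φ x.1, φ x.2.1, φ x.2.2) (φ y.1, φ y.2.1, φ y.2.2) =
      (φ (P.mul x y).1, φ (P.mul x y).2.1, φ (P.mul x y).2.2) := by
  simp only [Par.mul, Par.map, map_add, map_mul, map_sub]

theorem rot_map {A B : Type*} [CommRing A] [CommRing B] (φ : A →+* B) (P : Par A)
    (x : A × A × A) : (P.map φ).rot (φ x.1, φ x.2.1, φ x.2.2) =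
      (φ (P.rot x).1, φ (P.rot x).2.1, φ (P.rot x).2.2) := by
  simp only [Par.rot, Par.map, map_add, map_mul, map_sub]

theorem tw_map {A B : Type*} [CommRing A] [CommRing B] (φ : A →+* B) (P : Par A) (s : Bool)
    (n : ℕ) : (P.map φ).tw s n =
      (φ (P.tw s n).1, φ (P.tw s n).2.1, φ (P.tw s n).2.2) := by
  induction n with
  | zero => simp only [Par.tw, map_one, map_zero]
  | succ n ih =>
    show (P.map φ).mul ((P.map φ).tw s n) _ = _
    rw [ih]
    have e : (if s = true then ((0, 0, 1) : B × B × B) else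
        (-(P.map φ).z, (P.map φ).z, 1)) =
        (φ (if s = true then ((0, 0, 1) : A × A × A) else (-P.z, P.z, 1)).1,
          φ (if s = true then ((0, 0, 1) : A × A × A) else (-P.z, P.z, 1)).2.1,
          φ (if s = true then ((0, 0, 1) : A × A × A) else (-P.z, P.z, 1)).2.2) := by
      cases s <;> simp [Par.map]
    rw [e, mul_map]
    rfl

theorem tr_map {A B : Type*} [CommRing A] [CommRing B] (φ : A →+* B) (P : Par A) (s : Bool)
    (t : PTree) : (P.map φ).tr s t =
      (φ (P.tr s t).1, φ (P.tr s t).2.1, φ (P.tr s t).2.2) := by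
  induction t generalizing s with
  | leaf a => exact tw_map φ P _ _
  | graft p c ihp ihc =>
    show (P.map φ).mul ((P.map φ).tr s p) ((P.map φ).rot ((P.map φ).tr (!s) c)) = _
    rw [ihp, ihc, rot_map, mul_map]
    rfl

theorem val_map {A B : Type*} [CommRing A] [CommRing B] (φ : A →+* B) (P : Par A)
    (t : PTree) : (P.map φ).val t = φ (P.val t) := by
  simp only [Par.val]
  rw [tr_map]
  simp only [Par.map, map_add, map_mul]

theorem bar_map {A B : Type*} [CommRing A] [CommRing B] (φ : A →+* B) (P : Par A) :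
    (P.map φ).bar = P.bar.map φ := by
  simp only [Par.bar, Par.map, map_neg]

/-- rational functions of two variables with the denominators `a` and `z` -/
def Rt (g : ℂ → ℂ → ℂ) : Prop := ∃ (N : ℕ) (p : Polynomial (Polynomial ℂ)), ∀ a z : ℂ,
  a ≠ 0 → z ≠ 0 → g a z * (a * z) ^ N = (p.map (Polynomial.evalRingHom z)).eval a

theorem ev_comm (p : Polynomial (Polynomial ℂ)) (a z : ℂ) :
    (p.map (Polynomial.evalRingHom z)).eval a = (p.eval (Polynomial.C a)).eval z := by
  rw [Polynomial.eval_map]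
  have h := Polynomial.eval₂_hom (p := p) (Polynomial.evalRingHom z) (Polynomial.C a)
  simpa using h

theorem rt_const (c : ℂ) : Rt (fun _ _ => c) :=
  ⟨0, Polynomial.C (Polynomial.C c), fun a z _ _ => by simp⟩

theorem Rt.add {g h : ℂ → ℂ → ℂ} (hg : Rt g) (hh : Rt h) : Rt (fun a z => g a z + h a z) := by
  obtain ⟨N, p, hp⟩ := hg
  obtain ⟨M, r, hr⟩ := hh
  refine ⟨N + M, p * (Polynomial.X * Polynomial.C Polynomial.X) ^ M +
    r * (Polynomial.X * Polynomial.C Polynomial.X) ^ N, fun a z ha hz => ?_⟩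
  simp only [Polynomial.map_add, Polynomial.map_mul, Polynomial.map_pow, Polynomial.map_X,
    Polynomial.map_C, Polynomial.eval_add, Polynomial.eval_mul, Polynomial.eval_pow,
    Polynomial.eval_X, Polynomial.eval_C, Polynomial.coe_evalRingHom]
  rw [← hp a z ha hz, ← hr a z ha hz]
  ring

theorem Rt.mul {g h : ℂ → ℂ → ℂ} (hg : Rt g) (hh : Rt h) : Rt (fun a z => g a z * h a z) := by
  obtain ⟨N, p, hp⟩ := hg
  obtain ⟨M, r, hr⟩ := hh
  refine ⟨N + M, p * r, fun a z ha hz => ?_⟩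
  simp only [Polynomial.map_mul, Polynomial.eval_mul]
  rw [← hp a z ha hz, ← hr a z ha hz]
  ring

theorem rt_a : Rt (fun a _ => a) :=
  ⟨0, Polynomial.X, fun a z _ _ => by simp⟩

theorem rt_z : Rt (fun _ z => z) :=
  ⟨0, Polynomial.C Polynomial.X, fun a z _ _ => by simp⟩

theorem rt_ai : Rt (fun a _ => a⁻¹) :=
  ⟨1, Polynomial.C Polynomial.X, fun a z ha _ => by simp [ha]⟩

theorem rt_zi : Rt (fun _ z => z⁻¹) :=
  ⟨1, Polynomial.X, fun a z _ hz => by
    simp only [pow_one, Polynomial.map_X, Polynomial.eval_X]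
    field_simp⟩

theorem Rt.neg {g : ℂ → ℂ → ℂ} (hg : Rt g) : Rt (fun a z => -g a z) := by
  have h := (rt_const (-1)).mul hg
  have e : (fun a z => -g a z) = (fun a z => (-1 : ℂ) * g a z) := by
    funext a z
    ring
  rw [e]
  exact h

theorem Rt.sub {g h : ℂ → ℂ → ℂ} (hg : Rt g) (hh : Rt h) : Rt (fun a z => g a z - h a z) := by
  have h1 := hg.add hh.neg
  have e : (fun a z => g a z - h a z) = (fun a z => g a z + -h a z) := by
    funext a z
    ring
  rw [e]
  exact h1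

/-- all four parameters are rational -/
structure RP (P : ℂ → ℂ → Par ℂ) : Prop where
  z : Rt (fun a z => (P a z).z)
  d : Rt (fun a z => (P a z).d)
  t : Rt (fun a z => (P a z).t)
  t' : Rt (fun a z => (P a z).t')

/-- all three entries are rational -/
structure R3t (x : ℂ → ℂ → ℂ × ℂ × ℂ) : Prop where
  a : Rt (fun a z => (x a z).1)
  b : Rt (fun a z => (x a z).2.1)
  c : Rt (fun a z => (x a z).2.2)

theorem rt_mul {P : ℂ → ℂ → Par ℂ} (hP : RP P) {x y : ℂ → ℂ → ℂ × ℂ × ℂ} (hx : R3t x)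
    (hy : R3t y) : R3t (fun a z => (P a z).mul (x a z) (y a z)) := by
  refine ⟨?_, ?_, ?_⟩
  · exact (hx.a.mul hy.a).add (hx.c.mul hy.c)
  · exact ((((hx.a.mul hy.b).add (hx.b.mul hy.a)).add (hP.d.mul (hx.b.mul hy.b))).add
      (hP.t.mul ((hx.b.mul hy.c).add (hx.c.mul hy.b)))).sub
      ((hP.z.mul hP.t).mul (hx.c.mul hy.c))
  · exact ((hx.a.mul hy.c).add (hx.c.mul hy.a)).add (hP.z.mul (hx.c.mul hy.c))

theorem rt_rot {P : ℂ → ℂ → Par ℂ} (hP : RP P) {x : ℂ → ℂ → ℂ × ℂ × ℂ} (hx : R3t x) :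
    R3t (fun a z => (P a z).rot (x a z)) := by
  refine ⟨?_, ?_, ?_⟩
  · exact hx.b.sub (hP.z.mul hx.c)
  · exact hx.a.add (hP.z.mul hx.c)
  · exact hx.c

theorem rt_tw {P : ℂ → ℂ → Par ℂ} (hP : RP P) (s : Bool) (n : ℕ) :
    R3t (fun a z => (P a z).tw s n) := by
  induction n with
  | zero => exact ⟨rt_const 1, rt_const 0, rt_const 0⟩
  | succ n ih =>
    cases s with
    | true =>
      have h1 : R3t (fun _ _ => ((0, 0, 1) : ℂ × ℂ × ℂ)) := ⟨rt_const 0, rt_const 0, rt_const 1⟩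
      exact rt_mul hP ih h1
    | false =>
      have h1 : R3t (fun a z => ((-(P a z).z, (P a z).z, 1) : ℂ × ℂ × ℂ)) :=
        ⟨hP.z.neg, hP.z, rt_const 1⟩
      exact rt_mul hP ih h1

theorem rt_tr {P : ℂ → ℂ → Par ℂ} (hP : RP P) (s : Bool) (t : PTree) :
    R3t (fun a z => (P a z).tr s t) := by
  induction t generalizing s with
  | leaf a => exact rt_tw hP _ _
  | graft p c ihp ihc => exact rt_mul hP (ihp s) (rt_rot hP (ihc (!s)))

theorem rt_val {P : ℂ → ℂ → Par ℂ} (hP : RP P) (t : PTree) :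
    Rt (fun a z => (P a z).val t) := by
  have h := rt_tr hP true t
  exact ((hP.d.mul h.a).add h.b).add (hP.t'.mul h.c)

theorem rt_d : Rt (fun a z => 1 + (a - a⁻¹) / z) := by
  have h := (rt_const 1).add ((rt_a.sub rt_ai).mul rt_zi)
  exact h

theorem parK_rt : RP (fun a z => par a z) := ⟨rt_z, rt_d, rt_ai, rt_a⟩

theorem bar_rt : RP (fun a z => (par a z).bar) := ⟨rt_z.neg, rt_d, rt_a, rt_ai⟩

theorem complex_id (t : PTree) (h : ∀ q : ℝ, 1 < q → ∀ n : ℕ,
      (par (q ^ (2 * n + 1)) (q - q⁻¹)).val t * (par (q ^ (2 * n + 1)) (q - q⁻¹)).bar.val t = 1)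
    (a z : ℂ) (ha : a ≠ 0) (hz : z ≠ 0) : (par a z).val t * (par a z).bar.val t = 1 := by
  obtain ⟨N, p, hp⟩ := (rt_val parK_rt t).mul (rt_val bar_rt t) |>.add (rt_const (-1))
  -- the real identity, in the complex numbers
  have hreal : ∀ q : ℝ, 1 < q → ∀ n : ℕ,
      (par (((q ^ (2 * n + 1) : ℝ) : ℂ)) ((q - q⁻¹ : ℝ) : ℂ)).val t *
        (par (((q ^ (2 * n + 1) : ℝ) : ℂ)) ((q - q⁻¹ : ℝ) : ℂ)).bar.val t = 1 := by
    intro q hq n
    have e : (par (((q ^ (2 * n + 1) : ℝ) : ℂ)) ((q - q⁻¹ : ℝ) : ℂ)) =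
        (par (q ^ (2 * n + 1)) (q - q⁻¹)).map Complex.ofRealHom := by
      simp [par, Par.map]
    rw [e, bar_map, val_map, val_map, ← map_mul, h q hq n, map_one]
  -- step 1
  have h1 : ∀ q : ℝ, 1 < q → p.map (Polynomial.evalRingHom (((q - q⁻¹ : ℝ) : ℂ))) = 0 := by
    intro q hq
    apply Polynomial.eq_zero_of_infinite_isRoot
    have hinj : Function.Injective (fun n : ℕ => (((q ^ (2 * n + 1) : ℝ) : ℂ))) := by
      intro m n hmn
      have h2 : q ^ (2 * m + 1) = q ^ (2 * n + 1) := Complex.ofReal_injective hmn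
      have h3 := (pow_right_injective₀ (by linarith : (0 : ℝ) < q) (by linarith : q ≠ 1)) h2
      omega
    apply (Set.infinite_range_of_injective hinj).mono
    rintro _ ⟨n, rfl⟩
    have hq0 : q ≠ 0 := by linarith
    have hz0 : q - q⁻¹ ≠ 0 := by
      have : q⁻¹ < 1 := inv_lt_one_of_one_lt₀ hq
      intro h0
      linarith
    have h4 := hp (((q ^ (2 * n + 1) : ℝ) : ℂ)) (((q - q⁻¹ : ℝ) : ℂ))
      (by exact_mod_cast pow_ne_zero _ hq0) (by exact_mod_cast hz0)
    have h5 := hreal q hq n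
    show Polynomial.eval _ _ = 0
    rw [← h4]
    beta_reduce
    rw [h5]
    ring
  -- step 2
  have h2 : p.eval (Polynomial.C a) = 0 := by
    apply Polynomial.eq_zero_of_infinite_isRoot
    have hinj : Function.Injective (fun n : ℕ => ((((n + 2 : ℝ) - (n + 2 : ℝ)⁻¹ : ℝ) : ℂ))) := by
      intro m n hmn
      have h2 : ((m + 2 : ℝ) - (m + 2 : ℝ)⁻¹ : ℝ) = ((n + 2 : ℝ) - (n + 2 : ℝ)⁻¹ : ℝ) :=
        Complex.ofReal_injective hmn
      have hm : (0 : ℝ) < m + 2 := by positivity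
      have hn : (0 : ℝ) < n + 2 := by positivity
      have h3 : ((m : ℝ) - n) * (1 + (m + 2 : ℝ)⁻¹ * (n + 2 : ℝ)⁻¹) = 0 := by
        have e1 : (m + 2 : ℝ) * (m + 2 : ℝ)⁻¹ = 1 := mul_inv_cancel₀ hm.ne'
        have e2 : (n + 2 : ℝ) * (n + 2 : ℝ)⁻¹ = 1 := mul_inv_cancel₀ hn.ne'
        linear_combination h2 + (n + 2 : ℝ)⁻¹ * e1 - (m + 2 : ℝ)⁻¹ * e2
      have h4 : (1 + (m + 2 : ℝ)⁻¹ * (n + 2 : ℝ)⁻¹) ≠ 0 := by positivity
      have h5 : (m : ℝ) - n = 0 := (mul_eq_zero.mp h3).resolve_right h4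
      have h6 : (m : ℝ) = n := by linarith
      exact_mod_cast h6
    apply (Set.infinite_range_of_injective hinj).mono
    rintro _ ⟨n, rfl⟩
    have h3 := h1 (n + 2) (by have : (0 : ℝ) ≤ n := Nat.cast_nonneg n; linarith)
    show Polynomial.eval _ _ = 0
    have h4 := ev_comm p a ((((n + 2 : ℝ) - (n + 2 : ℝ)⁻¹ : ℝ) : ℂ))
    rw [h3, Polynomial.eval_zero] at h4
    exact h4.symm
  have h3 := hp a z ha hz
  rw [ev_comm, h2, Polynomial.eval_zero] at h3
  have h4 : (a * z) ^ N ≠ 0 := pow_ne_zero _ (mul_ne_zero ha hz)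
  have h5 := (mul_eq_zero.mp h3).resolve_right h4
  beta_reduce at h5
  linear_combination h5

end Pool.Agent.KAF
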