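import Pool.Agent.KAF.VB
import Pool.Agent.KAF.AA
import Pool.Agent.KAF.AB
import Pool.Agent.ARB.Detect

/-!
# KAF module ZA: Vassiliev invariants detect arborescent knots
-/

namespace Pool.Agent.KAF

open Filter Topology
open Pool.Agent.Helper9.Kashaev (Piece Diagram plumbLink)
open Pool.Agent.Helper9.TG (PTree)
open Pool.Agent.Helper77.ST (IsVassiliev IsKnot)

theorem detect0 (t : PTree) (h : Reduced t) :
    ∃ e I, IsVassiliev e I ∧ I (plumbLink t) ≠ I [] := by
  by_contra hcon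
  push Not at hcon
  have h1 := complex_id t (fun q hq n => real_id t hcon q hq n)
  have h2 : ∀ L : ℝ, 1 < L → (rotR L (eR L true t)).2.2 ^ 2 = 1 := by
    intro L hL
    have hL' : (0 : ℝ) < L + L⁻¹ := by positivity
    have e := h1 Complex.I (-Complex.I * (L + L⁻¹ : ℂ)) Complex.I_ne_zero (by
      apply mul_ne_zero (neg_ne_zero.mpr Complex.I_ne_zero)
      exact_mod_cast hL'.ne')
    rw [val_sq t L hL] at e
    exact_mod_cast e
  have h3 := grow t h
  have h4 : ∀ᶠ L : ℝ in atTop, 2 ≤ (rotR L (eR L true t)).2.2 := h3.eventually_ge_atTop 2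
  obtain ⟨L, hL, hL2⟩ := (h4.and (eventually_gt_atTop 1)).exists
  have := h2 L hL2
  nlinarith

theorem detect (n : ℕ) : ∃ d : ℕ, ∀ t : PTree, t.size ≤ n → Reduced t →
    IsKnot (plumbLink t) → ∃ I : Diagram → ℚ, IsVassiliev d I ∧ I (plumbLink t) ≠ I [] := by
  obtain ⟨d, hd⟩ := Pool.Agent.Helper87.BT.main (4 * n)
  refine ⟨d, fun t h1 h2 h4 => ?_⟩
  by_contra hcon
  push Not at hcon
  obtain ⟨e, I, hI, hI2⟩ := detect0 t h2
  apply hI2
  have h5 := hd (ARB.patLink t) [] (ARB.wfL_patLink t) rfl (by rw [ARB.size_patLink]; omega)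
    (by simp [Helper87.BT.size])
    (fun i => (0 :: (ARB.exps t ++ [0])).getD i 0) (fun _ => 0) (by rw [ARB.dia_patLink]; exact h4)
    (by show ([0] : List ℕ).length = 1; rfl)
    (fun I hI => by rw [ARB.dia_patLink]; exact hcon I hI) e I hI
  rw [ARB.dia_patLink] at h5
  exact h5

end Pool.Agent.KAF
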